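import Pool.Agent.H99.FI.Defs

/-!
# FI: averaging operators over finitely many coordinates
-/

set_option autoImplicit false

namespace FI

open Finset Function
open scoped Classical

variable {V : Type*} {d : ℕ}

/-- change of one coordinate -/
noncomputable def upc : V ⊕ Dart V d → Equiv.Perm (Fin d) × Bool → Cfg V d → Cfg V d
  | .inl v, t, ω => (Function.update ω.1 v t.1, ω.2)
  | .inr e, t, ω => (ω.1, Function.update ω.2 e t.2)

/-- weights of the coordinate change -/
noncomputable def wt (ε : Dart V d → ℝ) : V ⊕ Dart V d → Equiv.Perm (Fin d) × Bool → ℝ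
  | .inl _, t => if t.2 = true then 1 / (d.factorial : ℝ) else 0
  | .inr e, t => (if t.2 = true then 1 - ε e else ε e) * (if t.1 = 1 then 1 else 0)

theorem av1_eq (ε : Dart V d → ℝ) (i : V ⊕ Dart V d) (F : Cfg V d → ℝ) (ω : Cfg V d) :
    av1 ε i F ω = ∑ t : Equiv.Perm (Fin d) × Bool, wt ε i t * F (upc i t ω) := by
  rw [Fintype.sum_prod_type]
  cases i with
  | inl v =>
    simp only [av1, wt, upc, Fintype.sum_bool, Bool.false_eq_true, if_true, if_false, zero_mul,
      add_zero, Finset.mul_sum]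
  | inr e =>
    simp only [av1, wt, upc, Fintype.sum_bool, Bool.false_eq_true, if_true, if_false]
    rw [Finset.sum_eq_single (1 : Equiv.Perm (Fin d))]
    · simp
    · intro σ _ hσ
      simp [hσ]
    · simp

theorem upc_comm {i j : V ⊕ Dart V d} (h : i ≠ j) (t s : Equiv.Perm (Fin d) × Bool)
    (ω : Cfg V d) : upc i t (upc j s ω) = upc j s (upc i t ω) := by
  cases i with
  | inl v =>
    cases j with
    | inl w =>
      simp only [upc, Prod.mk.injEq, and_true]
      exact Function.update_comm (fun h' => h (by rw [h'])) _ _ _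
    | inr e => rfl
  | inr e =>
    cases j with
    | inl w => rfl
    | inr f =>
      simp only [upc, Prod.mk.injEq, true_and]
      exact Function.update_comm (fun h' => h (by rw [h'])) _ _ _

theorem av1_comm (ε : Dart V d → ℝ) (i j : V ⊕ Dart V d) (F : Cfg V d → ℝ) :
    av1 ε i (av1 ε j F) = av1 ε j (av1 ε i F) := by
  by_cases h : i = j
  · subst h; rfl
  · funext ω
    simp only [av1_eq, Finset.mul_sum]
    rw [Finset.sum_comm]
    refine Finset.sum_congr rfl fun t _ => Finset.sum_congr rfl fun s _ => ?_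
    rw [upc_comm h]
    ring

instance (ε : Dart V d → ℝ) :
    LeftCommutative (fun (i : V ⊕ Dart V d) (F : Cfg V d → ℝ) => av1 ε i F) :=
  ⟨fun i j F => av1_comm ε i j F⟩

/-- average over a finite set of coordinates -/
noncomputable def AV (ε : Dart V d → ℝ) (s : Finset (V ⊕ Dart V d)) (F : Cfg V d → ℝ) :
    Cfg V d → ℝ :=
  Multiset.foldr (fun i F => av1 ε i F) F s.val

@[simp] theorem AV_empty (ε : Dart V d → ℝ) (F : Cfg V d → ℝ) : AV ε ∅ F = F := rfl

theorem AV_insert (ε : Dart V d → ℝ) {s : Finset (V ⊕ Dart V d)} {i : V ⊕ Dart V d}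
    (h : i ∉ s) (F : Cfg V d → ℝ) : AV ε (insert i s) F = av1 ε i (AV ε s F) := by
  unfold AV
  rw [Finset.insert_val_of_notMem h, Multiset.foldr_cons]

theorem AV_singleton (ε : Dart V d → ℝ) (i : V ⊕ Dart V d) (F : Cfg V d → ℝ) :
    AV ε {i} F = av1 ε i F := by
  rw [← insert_empty_eq i, AV_insert ε (by simp), AV_empty]

theorem AV_union (ε : Dart V d → ℝ) {s t : Finset (V ⊕ Dart V d)}
    (h : Disjoint s t) (F : Cfg V d → ℝ) : AV ε (s ∪ t) F = AV ε s (AV ε t F) := by
  induction s using Finset.induction_on with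
  | empty => simp
  | insert i s his ih =>
    have h1 : i ∉ s ∪ t := by
      simp only [Finset.mem_union, not_or]
      exact ⟨his, Finset.disjoint_left.mp h (Finset.mem_insert_self i s)⟩
    have h2 : Disjoint s t :=
      Finset.disjoint_left.mpr fun a ha => Finset.disjoint_left.mp h (Finset.mem_insert_of_mem ha)
    rw [Finset.insert_union, AV_insert ε h1, ih h2, AV_insert ε his]

/-- the average over one more coordinate, innermost version -/
theorem AV_insert' (ε : Dart V d → ℝ) {s : Finset (V ⊕ Dart V d)} {i : V ⊕ Dart V d}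
    (h : i ∉ s) (F : Cfg V d → ℝ) : AV ε (insert i s) F = AV ε s (av1 ε i F) := by
  rw [← AV_singleton, ← AV_union ε (by simpa using h), Finset.union_comm]
  rfl

section lin

variable (ε : Dart V d → ℝ)

theorem av1_add (i : V ⊕ Dart V d) (F F' : Cfg V d → ℝ) :
    av1 ε i (fun ω => F ω + F' ω) = fun ω => av1 ε i F ω + av1 ε i F' ω := by
  funext ω
  simp only [av1_eq, mul_add, Finset.sum_add_distrib]

theorem av1_smul (i : V ⊕ Dart V d) (c : ℝ) (F : Cfg V d → ℝ) :
    av1 ε i (fun ω => c * F ω) = fun ω => c * av1 ε i F ω := by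
  funext ω
  simp only [av1_eq, Finset.mul_sum]
  exact Finset.sum_congr rfl fun t _ => by ring

theorem AV_add (s : Finset (V ⊕ Dart V d)) (F F' : Cfg V d → ℝ) :
    AV ε s (fun ω => F ω + F' ω) = fun ω => AV ε s F ω + AV ε s F' ω := by
  induction s using Finset.induction_on with
  | empty => rfl
  | insert i s his ih => rw [AV_insert ε his, AV_insert ε his, AV_insert ε his, ih, av1_add]

theorem AV_smul (s : Finset (V ⊕ Dart V d)) (c : ℝ) (F : Cfg V d → ℝ) :
    AV ε s (fun ω => c * F ω) = fun ω => c * AV ε s F ω := by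
  induction s using Finset.induction_on with
  | empty => rfl
  | insert i s his ih => rw [AV_insert ε his, AV_insert ε his, ih, av1_smul]

theorem AV_zero (s : Finset (V ⊕ Dart V d)) :
    AV ε s (fun _ => (0 : ℝ)) = fun _ => 0 := by
  have := AV_smul ε s 0 (fun _ => 0)
  simpa using this

theorem AV_sum {κ : Type*} (t : Finset κ) (s : Finset (V ⊕ Dart V d)) (F : κ → Cfg V d → ℝ) :
    AV ε s (fun ω => ∑ k ∈ t, F k ω) = fun ω => ∑ k ∈ t, AV ε s (F k) ω := by
  induction t using Finset.induction_on with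
  | empty => simp [AV_zero]
  | insert k t hk ih =>
    simp only [Finset.sum_insert hk]
    rw [AV_add, ih]

/-- nonnegative weights -/
def WOK (ε : Dart V d → ℝ) : Prop := ∀ e, 0 ≤ ε e ∧ ε e ≤ 1

variable {ε}

theorem wt_nonneg (hε : WOK ε) (i : V ⊕ Dart V d) (t : Equiv.Perm (Fin d) × Bool) :
    0 ≤ wt ε i t := by
  cases i with
  | inl v => simp only [wt]; split_ifs <;> positivity
  | inr e =>
    simp only [wt]
    have := hε e
    split_ifs <;> simp <;> linarith

theorem av1_mono (hε : WOK ε) (i : V ⊕ Dart V d) {F F' : Cfg V d → ℝ} (h : ∀ ω, F ω ≤ F' ω)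
    (ω : Cfg V d) : av1 ε i F ω ≤ av1 ε i F' ω := by
  rw [av1_eq, av1_eq]
  exact Finset.sum_le_sum fun t _ => mul_le_mul_of_nonneg_left (h _) (wt_nonneg hε _ _)

theorem AV_mono (hε : WOK ε) (s : Finset (V ⊕ Dart V d)) {F F' : Cfg V d → ℝ}
    (h : ∀ ω, F ω ≤ F' ω) (ω : Cfg V d) : AV ε s F ω ≤ AV ε s F' ω := by
  induction s using Finset.induction_on generalizing ω with
  | empty => exact h ω
  | insert i s his ih => rw [AV_insert ε his, AV_insert ε his]; exact av1_mono hε i ih ω

theorem AV_nonneg (hε : WOK ε) (s : Finset (V ⊕ Dart V d)) {F : Cfg V d → ℝ}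
    (h : ∀ ω, 0 ≤ F ω) (ω : Cfg V d) : 0 ≤ AV ε s F ω := by
  have := AV_mono hε s (F := fun _ => 0) h ω
  rwa [AV_zero] at this

/-- agreement off a set of coordinates -/
def Off (s : Finset (V ⊕ Dart V d)) (ω ω' : Cfg V d) : Prop :=
  (∀ v, Sum.inl v ∉ s → ω'.1 v = ω.1 v) ∧ (∀ e, Sum.inr e ∉ s → ω'.2 e = ω.2 e)

theorem Off.refl (s : Finset (V ⊕ Dart V d)) (ω : Cfg V d) : Off s ω ω :=
  ⟨fun _ _ => rfl, fun _ _ => rfl⟩

theorem Off.upc {s : Finset (V ⊕ Dart V d)} {i : V ⊕ Dart V d} {ω : Cfg V d}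
    {t : Equiv.Perm (Fin d) × Bool} {ω' : Cfg V d} (h : Off s (upc i t ω) ω') :
    Off (insert i s) ω ω' := by
  refine ⟨fun v hv => ?_, fun e he => ?_⟩
  · simp only [Finset.mem_insert, not_or] at hv
    rw [h.1 v hv.2]
    cases i with
    | inl w =>
      have : v ≠ w := fun h' => hv.1 (by rw [h'])
      simp [FI.upc, Function.update_of_ne this]
    | inr e => rfl
  · simp only [Finset.mem_insert, not_or] at he
    rw [h.2 e he.2]
    cases i with
    | inl w => rfl
    | inr f =>
      have : e ≠ f := fun h' => he.1 (by rw [h'])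
      simp [FI.upc, Function.update_of_ne this]

/-- monotonicity, only on configurations agreeing with `ω` off `s` -/
theorem AV_mono_off (hε : WOK ε) (s : Finset (V ⊕ Dart V d)) {F F' : Cfg V d → ℝ}
    (ω : Cfg V d) (h : ∀ ω', Off s ω ω' → F ω' ≤ F' ω') : AV ε s F ω ≤ AV ε s F' ω := by
  induction s using Finset.induction_on generalizing ω with
  | empty => exact h ω (Off.refl _ _)
  | insert i s his ih =>
    rw [AV_insert ε his, AV_insert ε his, av1_eq, av1_eq]
    exact Finset.sum_le_sum fun t _ => mul_le_mul_of_nonneg_left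
      (ih _ fun ω' hω' => h ω' hω'.upc) (wt_nonneg hε _ _)

theorem AV_congr_off (s : Finset (V ⊕ Dart V d)) {F F' : Cfg V d → ℝ}
    (ω : Cfg V d) (h : ∀ ω', Off s ω ω' → F ω' = F' ω') : AV ε s F ω = AV ε s F' ω := by
  induction s using Finset.induction_on generalizing ω with
  | empty => exact h ω (Off.refl _ _)
  | insert i s his ih =>
    rw [AV_insert ε his, AV_insert ε his, av1_eq, av1_eq]
    exact Finset.sum_congr rfl fun t _ => by rw [ih _ fun ω' hω' => h ω' hω'.upc]

end lin

end FI
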