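import Pool.Agent.H99.FI.Law

/-!
# FI: one repair step preserves the exact law; the law after a window
-/

set_option autoImplicit false

namespace FI

open Finset Function
open scoped Classical

variable {V : Type*} {G : SimpleGraph V} {d : ℕ}

theorem AV_eps_congr {ε ε' : Dart V d → ℝ} (s : Finset (V ⊕ Dart V d))
    (h : ∀ e, Sum.inr e ∈ s → ε e = ε' e) (F : Cfg V d → ℝ) : AV ε s F = AV ε' s F := by
  induction s using Finset.induction_on with
  | empty => rfl
  | insert i s hi ih =>
    rw [AV_insert ε hi, AV_insert ε' hi,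
      ih fun e he => h e (Finset.mem_insert_of_mem he)]
    cases i with
    | inl v => rfl
    | inr e =>
      funext ω
      simp only [av1, h e (Finset.mem_insert_self _ _)]

/-- the step at a hit edge, no mask -/
noncomputable def PT.hit (T : PT G d) [NeZero d] (P : Par) (B : Finset V) :
    Dart V d → ℕ → Cfg V d → Cfg V d :=
  T.hs P B (fun _ => true)

theorem PT.hit_cut (T : PT G d) [NeZero d] (P : Par) (B : Finset V) (e : Dart V d) (ξ : ℕ)
    {ω : Cfg V d} (h : ω.2 e = false) :
    T.hit P B e ξ ω =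
      (kern P (T.nof B ω.2) ω.1 ξ e (T.N0 e), Function.update ω.2 e true) := by
  unfold PT.hit PT.hs
  rw [if_pos ⟨rfl, h⟩]

theorem PT.hit_uncut (T : PT G d) [NeZero d] (P : Par) (B : Finset V) (e : Dart V d) (ξ : ℕ)
    {ω : Cfg V d} (h : ω.2 e = true) : T.hit P B e ξ ω = ω := by
  unfold PT.hit PT.hs
  rw [if_neg]
  rw [h]; simp

namespace PT

variable {T : PT G d}

theorem EE_eps_congr {ε ε' : Dart V d → ℝ} (B A : Finset V)
    (h : ∀ e, e ∈ T.EB B → e ∉ T.EB A → ε e = ε' e) (F : Cfg V d → ℝ) :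
    T.EE ε B A F = T.EE ε' B A F :=
  AV_eps_congr _ (fun e he => by rw [mem_cA_inr] at he; exact h e he.1 he.2) _

theorem AX_congr (B A : Finset V) {F F' : Cfg V d → ℝ} (ω : Cfg V d)
    (h : ∀ x, F (x, ω.2) = F' (x, ω.2)) : T.AX B A F ω = T.AX B A F' ω := by
  rw [AX_eq, AX_eq]
  congr 1
  exact Finset.sum_congr rfl fun x _ => h x

theorem AX_mono (B A : Finset V) {F F' : Cfg V d → ℝ} (ω : Cfg V d)
    (h : ∀ x ∈ XS (B \ A) ω.1, T.ConsOn (T.EB B \ T.EB A) (x, ω.2) → F (x, ω.2) ≤ F' (x, ω.2)) :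
    T.AX B A F ω ≤ T.AX B A F' ω := by
  rw [AX_eq, AX_eq]
  refine mul_le_mul_of_nonneg_left (Finset.sum_le_sum fun x hx => ?_) (by positivity)
  rw [Finset.mem_filter] at hx
  exact h x hx.1 hx.2

theorem AX_add (B A : Finset V) (F F' : Cfg V d → ℝ) (ω : Cfg V d) :
    T.AX B A (fun ω => F ω + F' ω) ω = T.AX B A F ω + T.AX B A F' ω := by
  rw [AX_eq, AX_eq, AX_eq, Finset.sum_add_distrib, mul_add]

theorem AX_smul (B A : Finset V) (c : ℝ) (F : Cfg V d → ℝ) (ω : Cfg V d) :
    T.AX B A (fun ω => c * F ω) ω = c * T.AX B A F ω := by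
  rw [AX_eq, AX_eq, ← Finset.mul_sum]
  ring

/-- one repair step, law -/
theorem law_step [NeZero d] (hd : 3 ≤ d) (hG : G.IsTree) (P : Par) (hK : 0 < P.K)
    {B : Finset V} {e : Dart V d} (he : e ∈ T.EB B) (ε : Dart V d → ℝ) (p : ℝ)
    (F : Cfg V d → ℝ) (ω : Cfg V d) :
    T.EE ε B ∅ (fun ω => (1 - p) * F ω +
      p * ((1 / (P.K : ℝ)) * ∑ ξ ∈ range P.K, F (T.hit P B e ξ ω))) ω =
    T.EE (Function.update ε e (ε e * (1 - p))) B ∅ F ω := by
  have hKR : (0 : ℝ) < P.K := by exact_mod_cast hK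
  have hE0 : T.EB (∅ : Finset V) = ∅ := by ext c; simp [T.mem_EB]
  have heA : e ∉ T.EB (∅ : Finset V) := by rw [hE0]; simp
  rw [EE_split ε B ∅ he heA, EE_split (Function.update ε e (ε e * (1 - p))) B ∅ he heA]
  rw [AV_eps_congr (ε := Function.update ε e (ε e * (1 - p))) (ε' := ε)]
  · congr 1
    funext ω
    rw [Function.update_self]
    have h1 : T.AX B ∅ (fun ω => (1 - p) * F ω +
        p * ((1 / (P.K : ℝ)) * ∑ ξ ∈ range P.K, F (T.hit P B e ξ ω)))
        (ω.1, Function.update ω.2 e true) = T.AX B ∅ F (ω.1, Function.update ω.2 e true) := by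
      refine AX_congr B ∅ _ fun x => ?_
      have : ∀ ξ, T.hit P B e ξ (x, Function.update ω.2 e true) =
          (x, Function.update ω.2 e true) := fun ξ => T.hit_uncut P B e ξ (by simp)
      simp only [this, Finset.sum_const, Finset.card_range, nsmul_eq_mul]
      field_simp
      ring
    have h0 : T.AX B ∅ (fun ω => (1 - p) * F ω +
        p * ((1 / (P.K : ℝ)) * ∑ ξ ∈ range P.K, F (T.hit P B e ξ ω)))
        (ω.1, Function.update ω.2 e false) =
        (1 - p) * T.AX B ∅ F (ω.1, Function.update ω.2 e false) +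
        p * T.AX B ∅ F (ω.1, Function.update ω.2 e true) := by
      rw [AX_add, AX_smul, AX_smul]
      congr 2
      rw [← AX_repair_eq hd hG P hK he F ω]
      refine AX_congr B ∅ _ fun x => ?_
      simp only
      congr 1
      refine Finset.sum_congr rfl fun ξ _ => ?_
      rw [T.hit_cut P B e ξ (by simp)]
    rw [h1, h0]
    ring
  · intro c hc
    simp only [Finset.mem_image, Finset.mem_erase, Sum.inr.injEq, exists_eq_right] at hc
    rw [Function.update_of_ne hc.1]

/-- one repair step, conditional on the explored set `A`, on a no-touch event -/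
theorem law_step_le [NeZero d] (hd : 3 ≤ d) (hG : G.IsTree) (P : Par) (hK : 0 < P.K)
    {B A : Finset V} {e : Dart V d} (he : e ∈ T.EB B) (heA : e ∉ T.EB A)
    (ε : Dart V d → ℝ) (hε : WOK ε) (p : ℝ) (hp : 0 ≤ p) (F : Cfg V d → ℝ) (hF : ∀ ω, 0 ≤ F ω)
    (nt : Cfg V d → Prop) (ω : Cfg V d) (hcons : T.ConsOn (T.EB A) ω)
    (hnt : ∀ ω', nt ω' → Off (T.cA B A) ω ω' → Cons (T.nof B ω'.2) ω'.1 → ω'.2 e = false →
      ∀ ξ, ∀ v ∈ A, kern P (T.nof B ω'.2) ω'.1 ξ e (T.N0 e) v = ω'.1 v) :
    T.EE ε B A (fun ω => (1 - p) * F ω + p * (if ω.2 e = false ∧ ¬ nt ω then 0 else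
      (1 / (P.K : ℝ)) * ∑ ξ ∈ range P.K, F (T.hit P B e ξ ω))) ω ≤
    T.EE (Function.update ε e (ε e * (1 - p))) B A F ω := by
  have hKR : (0 : ℝ) < P.K := by exact_mod_cast hK
  rw [EE_split ε B A he heA, EE_split (Function.update ε e (ε e * (1 - p))) B A he heA]
  rw [AV_eps_congr (ε := Function.update ε e (ε e * (1 - p))) (ε' := ε)]
  · refine AV_mono_off hε _ ω fun ω' hω' => ?_
    rw [Function.update_self]
    have hcons' : T.ConsOn (T.EB A) ω' := by
      intro c hc hu
      have h1 : ∀ v, ω'.1 v = ω.1 v := fun v => hω'.1 v (by simp)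
      have h2 : ω'.2 c = ω.2 c := hω'.2 c (by simp [hc])
      unfold col
      rw [h1, h1]
      exact hcons c hc (by rw [← h2]; exact hu)
    have h1 : T.AX B A (fun ω => (1 - p) * F ω + p * (if ω.2 e = false ∧ ¬ nt ω then 0 else
        (1 / (P.K : ℝ)) * ∑ ξ ∈ range P.K, F (T.hit P B e ξ ω)))
        (ω'.1, Function.update ω'.2 e true) = T.AX B A F (ω'.1, Function.update ω'.2 e true) := by
      refine AX_congr B A _ fun x => ?_
      have : ∀ ξ, T.hit P B e ξ (x, Function.update ω'.2 e true) =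
          (x, Function.update ω'.2 e true) := fun ξ => T.hit_uncut P B e ξ (by simp)
      simp only [this, Finset.sum_const, Finset.card_range, nsmul_eq_mul, Function.update_self,
        Bool.true_eq_false, false_and, if_false]
      field_simp
      ring
    have h0 : T.AX B A (fun ω => (1 - p) * F ω + p * (if ω.2 e = false ∧ ¬ nt ω then 0 else
        (1 / (P.K : ℝ)) * ∑ ξ ∈ range P.K, F (T.hit P B e ξ ω)))
        (ω'.1, Function.update ω'.2 e false) ≤
        (1 - p) * T.AX B A F (ω'.1, Function.update ω'.2 e false) +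
        p * T.AX B A F (ω'.1, Function.update ω'.2 e true) := by
      rw [AX_add, AX_smul, AX_smul]
      refine add_le_add (le_refl _) (mul_le_mul_of_nonneg_left ?_ hp)
      refine le_trans (le_of_eq ?_) (AX_repair_le hd hG P hK he heA F hF nt ω' hcons' ?_)
      · refine AX_congr B A _ fun x => ?_
        simp only [Function.update_self, true_and]
        by_cases hn : nt (x, Function.update ω'.2 e false)
        · rw [if_neg (not_not.mpr hn), if_pos hn]
          congr 1
          refine Finset.sum_congr rfl fun ξ _ => ?_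
          rw [T.hit_cut P B e ξ (by simp)]
        · rw [if_pos hn, if_neg hn]
      · intro ω'' hn hO hc hcut ξ v hv
        refine hnt ω'' hn ?_ hc hcut ξ v hv
        refine ⟨fun w hw => ?_, fun c hc => ?_⟩
        · rw [hO.1 w hw, hω'.1 w (by simp)]
        · rw [hO.2 c hc]
          refine hω'.2 c ?_
          simp only [Finset.mem_image, Finset.mem_erase, Finset.mem_sdiff, Sum.inr.injEq,
            exists_eq_right, not_and, not_not]
          intro _ hcB
          by_contra hcA
          exact hc (by rw [mem_cA_inr]; exact ⟨hcB, hcA⟩)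
    rw [h1]
    have hε0 := (hε e).1
    nlinarith [mul_le_mul_of_nonneg_left h0 hε0]
  · intro c hc
    simp only [Finset.mem_image, Finset.mem_erase, Sum.inr.injEq, exists_eq_right] at hc
    rw [Function.update_of_ne hc.1]

/-- law after the repairs of a list of edges -/
theorem law_list [NeZero d] (hd : 3 ≤ d) (hG : G.IsTree) (P : Par) (hK : 0 < P.K)
    (B : Finset V) (p : ℝ) (L : List (Dart V d)) (hL : L.Nodup) (hLB : ∀ a ∈ L, a ∈ T.EB B)
    (ε : Dart V d → ℝ) (F : Cfg V d → ℝ) (ω : Cfg V d) :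
    T.EE ε B ∅ (fun ω => VP p P.K (T.hit P B) (T.hit P B) L (fun ω _ => F ω) ω ω) ω =
    T.EE (fun e => if e ∈ L then ε e * (1 - p) else ε e) B ∅ F ω := by
  induction L generalizing ε with
  | nil => simp [VP]
  | cons e L ih =>
    rw [List.nodup_cons] at hL
    simp only [VP]
    rw [law_step hd hG P hK (hLB e (by simp)) ε p
      (fun ω => VP p P.K (T.hit P B) (T.hit P B) L (fun ω _ => F ω) ω ω) ω]
    rw [ih hL.2 (fun a ha => hLB a (by simp [ha]))]
    congr 1
    funext c
    by_cases hc : c = e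
    · subst hc
      simp [hL.1]
    · simp [Function.update_of_ne hc, hc]

end PT

theorem law_window {d : ℕ} [NeZero d] (hd : 3 ≤ d) {V : Type} {G : SimpleGraph V} (hG : G.IsTree)
    (T : PT G d) (P : Par) (hK : 0 < P.K) (p ε : ℝ) (B : Finset V)
    (L : List (Dart V d)) (hL : L.Nodup) (hLB : ∀ a, a ∈ L ↔ a ∈ T.EB B) (F : Cfg V d → ℝ)
    (ω : Cfg V d) :
    T.EE (fun _ => ε) B ∅ (fun ω => VP p P.K (T.hs P B (fun _ => true)) (T.hs P B (fun _ => true))
      L (fun ω _ => F ω) ω ω) ω = T.EE (fun _ => ε * (1 - p)) B ∅ F ω := by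
  have h := PT.law_list (T := T) hd hG P hK B p L hL (fun a ha => (hLB a).mp ha) (fun _ => ε) F ω
  unfold PT.hit at h
  rw [h]
  refine congrFun (PT.EE_eps_congr B ∅ (fun e he _ => ?_) F) ω
  rw [if_pos ((hLB e).mpr he)]

end FI
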