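import Pool.Agent.H99.FI.Touch
import Pool.Agent.H99.FI.LawStep

/-!
# FI: exploration of a Kempe chain from an explored set
-/

set_option autoImplicit false

namespace FI

open Finset Function
open scoped Classical

variable {V : Type*} {G : SimpleGraph V} {d : ℕ}

namespace PT

variable (T : PT G d)

/-- replace the configuration on `A` by that of `ρ` -/
noncomputable def pt (A : Finset V) (ρ ω : Cfg V d) : Cfg V d :=
  (fun v => if v ∈ A then ρ.1 v else ω.1 v, fun e => if e ∈ T.EB A then ρ.2 e else ω.2 e)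

/-- agreement on `X` -/
def Ag (X : Finset V) (ω ω' : Cfg V d) : Prop :=
  (∀ v ∈ X, ω'.1 v = ω.1 v) ∧ ∀ c ∈ T.EB X, ω'.2 c = ω.2 c

/-- the Kempe permutation of the repair at `e` -/
noncomputable def sw (e : Dart V d) (ω : Cfg V d) : Equiv.Perm (Fin d) :=
  Equiv.swap (col ω.1 e) (col ω.1 (T.N0 e))

/-- the closure of the chain on the side of `N0 e` is inside `X` -/
def ClX (B : Finset V) (e : Dart V d) (X : Finset V) (ω : Cfg V d) : Prop :=
  ∀ n f, pos (T.nof B ω.2) ω.1 (Equiv.swap (col ω.1 e) (col ω.1 (T.N0 e))) (T.N0 e) n = some f →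
    f.1 ∈ X ∧
    ((T.N0 (dt ω.1 f.1 (Equiv.swap (col ω.1 e) (col ω.1 (T.N0 e)) (col ω.1 f)))).1 ∈ B →
      (T.N0 (dt ω.1 f.1 (Equiv.swap (col ω.1 e) (col ω.1 (T.N0 e)) (col ω.1 f)))).1 ∈ X)

variable {T}

theorem cov_iff (P : Par) (B : Finset V) (e : Dart V d) (X : Finset V) (ω : Cfg V d) :
    T.Cov P B e X ω ↔
      (∀ v ∈ B, G.dist e.1 v ≤ 2 * P.M + P.J + 2 → v ∈ X) ∧ T.ClX B e X ω := Iff.rfl

theorem Ag.refl (X : Finset V) (ω : Cfg V d) : T.Ag X ω ω := ⟨fun _ _ => rfl, fun _ _ => rfl⟩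

theorem Ag.symm {X : Finset V} {ω ω' : Cfg V d} (h : T.Ag X ω ω') : T.Ag X ω' ω :=
  ⟨fun v hv => (h.1 v hv).symm, fun c hc => (h.2 c hc).symm⟩

theorem Ag.trans {X : Finset V} {ω ω' ω'' : Cfg V d} (h : T.Ag X ω ω') (h' : T.Ag X ω' ω'') :
    T.Ag X ω ω'' :=
  ⟨fun v hv => (h'.1 v hv).trans (h.1 v hv), fun c hc => (h'.2 c hc).trans (h.2 c hc)⟩

theorem Ag.mono {X Y : Finset V} (hYX : Y ⊆ X) {ω ω' : Cfg V d} (h : T.Ag X ω ω') :
    T.Ag Y ω ω' :=
  ⟨fun v hv => h.1 v (hYX hv), fun c hc => h.2 c (T.EB_mono hYX hc)⟩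

theorem Ag.col {X : Finset V} {ω ω' : Cfg V d} (h : T.Ag X ω ω') {a : Dart V d} (ha : a.1 ∈ X) :
    col ω'.1 a = col ω.1 a := by
  unfold FI.col
  rw [h.1 _ ha]

theorem Ag.dt {X : Finset V} {ω ω' : Cfg V d} (h : T.Ag X ω ω') {v : V} (hv : v ∈ X)
    (k : Fin d) : FI.dt ω'.1 v k = FI.dt ω.1 v k := by
  unfold FI.dt
  rw [h.1 _ hv]

theorem ag_of_off {B X : Finset V} {ω ω' : Cfg V d} (h : Off (T.cA B X) ω ω') : T.Ag X ω ω' :=
  ⟨fun v hv => h.1 v (by rw [mem_cA_inl]; exact fun h => h.2 hv),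
    fun c hc => h.2 c (by rw [mem_cA_inr]; exact fun h => h.2 hc)⟩

theorem ag_pt {A X : Finset V} (ρ : Cfg V d) {ω ω' : Cfg V d} (h : T.Ag X ω ω') :
    T.Ag X (T.pt A ρ ω) (T.pt A ρ ω') := by
  refine ⟨fun v hv => ?_, fun c hc => ?_⟩
  · unfold pt
    simp only
    rw [h.1 v hv]
  · unfold pt
    simp only
    rw [h.2 c hc]

/-- chains are determined by the configuration on a set containing them -/
theorem pos_ag {B X : Finset V} {b : Dart V d} {ω ω' : Cfg V d}
    (h : T.Ag X ω ω') {τ : Equiv.Perm (Fin d)} {n : ℕ} {f : Dart V d}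
    (hf : pos (T.nof B ω.2) ω.1 τ b n = some f)
    (hX : ∀ m ≤ n, ∀ g, pos (T.nof B ω.2) ω.1 τ b m = some g → g.1 ∈ X) :
    ∀ m ≤ n, pos (T.nof B ω'.2) ω'.1 τ b m = pos (T.nof B ω.2) ω.1 τ b m := by
  intro m
  induction m with
  | zero => intro _; rfl
  | succ m ih =>
    intro hm
    obtain ⟨g', hg'⟩ := pos_le hf hm
    obtain ⟨g, hg, hN⟩ := pos_succ99.mp hg'
    have hgX := hX m (by omega) g hg
    have hg'X := hX (m + 1) hm g' hg'
    rw [hg']
    rw [pos_succ99]
    refine ⟨g, by rw [ih (by omega), hg], ?_⟩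
    have e1 : ω'.1 g.1 = ω.1 g.1 := h.1 _ hgX
    have e2 : dt ω'.1 g.1 (τ (col ω'.1 g)) = dt ω.1 g.1 (τ (col ω.1 g)) := by
      unfold dt col; rw [e1]
    rw [e2]
    rw [T.nof_some] at hN ⊢
    refine ⟨hN.1, hN.2.1, ?_, hN.2.2.2⟩
    rw [h.2 _ (T.cd_mem_EB (a := dt ω.1 g.1 (τ (col ω.1 g))) hgX (by rw [hN.2.2.2]; exact hg'X))]
    exact hN.2.2.1

theorem clX_ag {B X : Finset V} {e : Dart V d} (he1 : e.1 ∈ X) (he2 : (T.N0 e).1 ∈ X)
    {ω ω' : Cfg V d} (h : T.Ag X ω ω') (hc : T.ClX B e X ω) : T.ClX B e X ω' := by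
  intro n f hf
  have e1 : col ω'.1 e = col ω.1 e := h.col he1
  have e2 : col ω'.1 (T.N0 e) = col ω.1 (T.N0 e) := h.col he2
  rw [e1, e2] at hf ⊢
  -- positions are the same
  have key : ∀ n f, pos (T.nof B ω'.2) ω'.1 (Equiv.swap (col ω.1 e) (col ω.1 (T.N0 e)))
      (T.N0 e) n = some f →
      pos (T.nof B ω.2) ω.1 (Equiv.swap (col ω.1 e) (col ω.1 (T.N0 e))) (T.N0 e) n = some f := by
    intro n
    induction n with
    | zero => intro f hf; exact hf
    | succ n ih =>
      intro f hf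
      obtain ⟨g, hg, hN⟩ := pos_succ99.mp hf
      have hg' := ih g hg
      obtain ⟨hgX, hgn⟩ := hc n g hg'
      have e3 : ω'.1 g.1 = ω.1 g.1 := h.1 _ hgX
      have e4 : dt ω'.1 g.1 (Equiv.swap (col ω.1 e) (col ω.1 (T.N0 e)) (col ω'.1 g)) =
          dt ω.1 g.1 (Equiv.swap (col ω.1 e) (col ω.1 (T.N0 e)) (col ω.1 g)) := by
        unfold dt col; rw [e3]
      rw [e4, T.nof_some] at hN
      rw [pos_succ99]
      refine ⟨g, hg', ?_⟩
      rw [T.nof_some]
      refine ⟨hN.1, hN.2.1, ?_, hN.2.2.2⟩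
      rw [← h.2 _ (T.cd_mem_EB
        (a := dt ω.1 g.1 (Equiv.swap (col ω.1 e) (col ω.1 (T.N0 e)) (col ω.1 g)))
        hgX (hgn hN.2.1))]
      exact hN.2.2.1
  have hf' := key n f hf
  have := hc n f hf'
  have e3 : ω'.1 f.1 = ω.1 f.1 := h.1 _ this.1
  have e4 : dt ω'.1 f.1 (Equiv.swap (col ω.1 e) (col ω.1 (T.N0 e)) (col ω'.1 f)) =
      dt ω.1 f.1 (Equiv.swap (col ω.1 e) (col ω.1 (T.N0 e)) (col ω.1 f)) := by
    unfold dt col; rw [e3]
  rw [e4]
  exact this

theorem clX_mono {B X Y : Finset V} (hXY : X ⊆ Y) {e : Dart V d} {ω : Cfg V d}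
    (hc : T.ClX B e X ω) : T.ClX B e Y ω :=
  fun n f hf => ⟨hXY (hc n f hf).1, fun h => hXY ((hc n f hf).2 h)⟩

/-- exit state: the chain is explored up to position `n`, and leaves `X` through `a` -/
def ES (T : PT G d) (B : Finset V) (e : Dart V d) (X : Finset V) (ω : Cfg V d)
    (a : Dart V d) : Prop :=
  ∃ n f, pos (T.nof B ω.2) ω.1 (T.sw e ω) (T.N0 e) n = some f ∧
    (∀ m ≤ n, ∀ g, pos (T.nof B ω.2) ω.1 (T.sw e ω) (T.N0 e) m = some g → g.1 ∈ X) ∧
    a = dt ω.1 f.1 (T.sw e ω (col ω.1 f)) ∧ (T.N0 a).1 ∈ B ∧ (T.N0 a).1 ∉ X ∧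
    T.sw e ω (col ω.1 f) ≠ col ω.1 f

theorem exists_exit {B X : Finset V} {e : Dart V d} (he1 : e.1 ∈ X) (he2 : (T.N0 e).1 ∈ X)
    {ω : Cfg V d} (h : ¬ T.ClX B e X ω) : ∃ a, T.ES B e X ω a := by
  unfold ClX at h
  push Not at h
  have hex : ∃ n, ∃ f, pos (T.nof B ω.2) ω.1 (T.sw e ω) (T.N0 e) n = some f ∧
      (f.1 ∈ X → (T.N0 (dt ω.1 f.1 (T.sw e ω (col ω.1 f)))).1 ∈ B ∧
      (T.N0 (dt ω.1 f.1 (T.sw e ω (col ω.1 f)))).1 ∉ X) := by
    obtain ⟨n, f, h1, h2⟩ := h
    exact ⟨n, f, h1, h2⟩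
  obtain ⟨f, hf, hbad⟩ := Nat.find_spec hex
  set n := Nat.find hex with hn
  have hmin : ∀ m < n, ∀ g, pos (T.nof B ω.2) ω.1 (T.sw e ω) (T.N0 e) m = some g →
      g.1 ∈ X ∧ ((T.N0 (dt ω.1 g.1 (T.sw e ω (col ω.1 g)))).1 ∈ B →
      (T.N0 (dt ω.1 g.1 (T.sw e ω (col ω.1 g)))).1 ∈ X) := by
    intro m hm g hg
    have := Nat.find_min hex hm
    by_contra hcon
    apply this
    refine ⟨g, hg, fun hgX => ?_⟩
    by_contra h3
    apply hcon
    refine ⟨hgX, fun h4 => ?_⟩
    by_contra h5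
    exact h3 ⟨h4, h5⟩
  -- f is in X, and its partner is in X
  have hfX : f.1 ∈ X ∧ (T.N0 f).1 ∈ X := by
    rcases Nat.eq_zero_or_pos n with h0 | h0
    · rw [h0] at hf
      simp only [pos, Option.some.injEq] at hf
      rw [← hf, T.inv]
      exact ⟨he2, he1⟩
    · obtain ⟨m, hm⟩ := Nat.exists_eq_succ_of_ne_zero (Nat.pos_iff_ne_zero.mp h0)
      rw [hm] at hf
      obtain ⟨g, hg, hN⟩ := pos_succ99.mp hf
      have h1 := hmin m (by omega) g hg
      rw [T.nof_some] at hN
      have h2 := h1.2 hN.2.1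
      rw [hN.2.2.2] at h2
      refine ⟨h2, ?_⟩
      rw [← hN.2.2.2, T.inv]
      exact h1.1
  have hb := hbad hfX.1
  refine ⟨_, n, f, hf, ?_, rfl, hb.1, hb.2, ?_⟩
  · intro m hm g hg
    rcases Nat.lt_or_ge m n with h1 | h1
    · exact (hmin m h1 g hg).1
    · obtain rfl : m = n := by omega
      rw [hf] at hg
      rw [← Option.some.inj hg]
      exact hfX.1
  · intro h1
    rw [h1, dt_col'] at hb
    exact hb.2 hfX.2

/-- the situation of an exploration -/
structure Sit (T : PT G d) (r : V) (B A : Finset V) (ρ ω₀ : Cfg V d) (e : Dart V d)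
    (Gd : Finset V → Cfg V d → Prop) (X : Finset V) (ω : Cfg V d) : Prop where
  clo : Clo G r X
  AX : A ⊆ X
  XB : X ⊆ B
  e1 : e.1 ∈ X
  e2 : (T.N0 e).1 ∈ X
  off : Off (T.cA B A) ω₀ ω
  cons : T.ConsOn (T.EB X) ω
  gd : Gd X ω

section explore

variable {ε : Dart V d → ℝ} {εl K t₀ c M : ℝ} {γ : V → ℝ}

/-- the potential of an exit dart -/
noncomputable def Th (T : PT G d) (B : Finset V) (q : ℝ) (γ : V → ℝ) (a : Dart V d) : ℝ :=
  ∑ u ∈ B.filter (fun u => T.Byd a u), q ^ G.dist (T.N0 a).1 u * γ u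

theorem Th_nonneg (B : Finset V) {q : ℝ} (hq : 0 ≤ q) (hγ : ∀ v, 0 ≤ γ v) (a : Dart V d) :
    0 ≤ T.Th B q γ a :=
  Finset.sum_nonneg fun u _ => mul_nonneg (pow_nonneg hq _) (hγ u)

theorem Th_step (hG : G.IsTree) {B : Finset V} {q : ℝ} (a : Dart V d) (hB : (T.N0 a).1 ∈ B) :
    T.Th B q γ a = γ (T.N0 a).1 +
      q * ∑ i ∈ univ.erase (T.N0 a).2, T.Th B q γ ((T.N0 a).1, i) := by
  unfold Th
  rw [sum_byd hG a B, if_pos hB, SimpleGraph.dist_self, pow_zero, one_mul]
  congr 1
  rw [Finset.mul_sum]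
  refine Finset.sum_congr rfl fun i _ => ?_
  rw [Finset.mul_sum]
  refine Finset.sum_congr rfl fun u hu => ?_
  have h3 := (Finset.mem_filter.mp hu).2
  unfold Byd at h3
  simp only at h3
  rw [SimpleGraph.dist_comm (u := u), SimpleGraph.dist_comm (u := u)] at h3
  rw [h3, pow_succ']
  ring

/-- exploration from an exit state -/
theorem explore_exit [NeZero d] (hG : G.IsTree) (hd : 3 ≤ d) (hε : WOK ε)
    (hεl : ∀ e, εl ≤ ε e) {r : V} {B : Finset V} (hK : 1 ≤ K) (ht1 : 1 ≤ t₀)
    (ht : εl * K + (1 - εl) * K * t₀ ≤ t₀)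
    (hγ : ∀ v, 0 ≤ γ v) (hc : 0 ≤ c) (hM : 0 ≤ M)
    {A : Finset V} {ρ ω₀ : Cfg V d}
    (hbd : ∀ a : Dart V d, a.1 ∈ A → (T.N0 a).1 ∈ B → (T.N0 a).1 ∉ A → col ρ.1 a = col ω₀.1 a)
    {e : Dart V d} {Gd : Finset V → Cfg V d → Prop}
    (hGd : ∀ X X' ω ω', Gd X ω → X ⊆ X' → X' ⊆ B → T.Ag X ω ω' → Gd X' ω')
    (H : Cfg V d → ℝ)
    (hfin : ∀ X ω, T.Sit r B A ρ ω₀ e Gd X ω → T.ClX B e X (T.pt A ρ ω) →
      T.EE ε B X H ω ≤ M * (K ^ X.card * (c + ∑ v ∈ X, γ v)))
    (X : Finset V) (ω : Cfg V d) (a : Dart V d) (hS : T.Sit r B A ρ ω₀ e Gd X ω)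
    (hE : T.ES B e X (T.pt A ρ ω) a) :
    T.EE ε B X H ω ≤ M * (t₀ * (K ^ X.card * (c + ∑ v ∈ X, γ v +
      T.Th B (K * (1 - εl) / ((d : ℝ) - 1)) γ a))) := by
  have hd1 : (0 : ℝ) < (d : ℝ) - 1 := by
    have : (3 : ℝ) ≤ d := by exact_mod_cast hd
    linarith
  have hεl1 : εl ≤ 1 := (hεl e).trans (hε e).2
  set q := K * (1 - εl) / ((d : ℝ) - 1) with hq
  have hq0 : 0 ≤ q := div_nonneg (mul_nonneg (by linarith) (by linarith)) hd1.le
  induction hn : (B \ X).card using Nat.strong_induction_on generalizing X ω a with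
  | _ N ih =>
    obtain ⟨n, f, hf, hX, ha, haB, haX, hne⟩ := hE
    set ω' := T.pt A ρ ω with hω'
    have hfX : f.1 ∈ X := hX n le_rfl f hf
    have ha1 : a.1 = f.1 := by rw [ha]; rfl
    have haX1 : a.1 ∈ X := ha1 ▸ hfX
    set w := (T.N0 a).1 with hw
    have hwA : w ∉ A := fun h => haX (hS.AX h)
    have hX'clo : Clo G r (insert w X) := hS.clo.insert hG haX1 (T.adj a).symm
    have hX'B : insert w X ⊆ B := Finset.insert_subset haB hS.XB
    have hcard : (insert w X).card = X.card + 1 := Finset.card_insert_of_notMem haX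
    have hsum : ∑ v ∈ insert w X, γ v = γ w + ∑ v ∈ X, γ v := Finset.sum_insert haX
    have hlt : (B \ insert w X).card < N := by
      rw [← hn]
      apply Finset.card_lt_card
      rw [Finset.ssubset_iff_of_subset]
      · exact ⟨w, by simp [haB, haX], by simp⟩
      · intro v hv
        simp only [Finset.mem_sdiff, Finset.mem_insert, not_or] at hv ⊢
        exact ⟨hv.1, hv.2.2⟩
    have hEBi : T.EB (insert w X) = insert (T.cd a) (T.EB X) := EB_insert hG hS.clo haX1 haX
    have hcdX : T.cd a ∉ T.EB X := cd_notMem_EB haX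
    have hcdA : T.cd a ∉ T.EB A := fun h => hcdX (T.EB_mono hS.AX h)
    have hcdB : T.cd a ∈ T.EB B := T.cd_mem_EB (hS.XB haX1) haB
    -- colours at the exit
    have hcola : col ω'.1 a = col ω.1 a := by
      by_cases haA : a.1 ∈ A
      · have h1 : col ω'.1 a = col ρ.1 a := by
          unfold col
          rw [hω']
          unfold pt
          simp only [if_pos haA]
        have h2 : col ω.1 a = col ω₀.1 a := (ag_of_off hS.off).col haA
        rw [h1, h2]
        exact hbd a haA haB hwA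
      · unfold col
        rw [hω']
        unfold pt
        simp only [if_neg haA]
    have hcola' : col ω'.1 a = T.sw e ω' (col ω'.1 f) := by rw [ha, col_dt']
    -- new configurations
    have hnew : ∀ (σ : Equiv.Perm (Fin d)) (s : Bool),
        T.Ag X ω (Function.update ω.1 w σ, Function.update ω.2 (T.cd a) s) := by
      intro σ s
      refine ⟨fun v hv => ?_, fun c hc => ?_⟩
      · have : v ≠ w := fun h => haX (h ▸ hv)
        simp only [Function.update_of_ne this]
      · have : c ≠ T.cd a := fun h => hcdX (h ▸ hc)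
        simp only [Function.update_of_ne this]
    have hSit : ∀ (σ : Equiv.Perm (Fin d)) (s : Bool), (s = true → col ω.1 a = σ (T.N0 a).2) →
        T.Sit r B A ρ ω₀ e Gd (insert w X)
          (Function.update ω.1 w σ, Function.update ω.2 (T.cd a) s) := by
      intro σ s hs
      refine ⟨hX'clo, hS.AX.trans (Finset.subset_insert _ _), hX'B,
        Finset.mem_insert_of_mem hS.e1, Finset.mem_insert_of_mem hS.e2, ?_, ?_,
        hGd X _ ω _ hS.gd (Finset.subset_insert _ _) hX'B (hnew σ s)⟩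
      · refine ⟨fun v hv => ?_, fun c hc => ?_⟩
        · have : v ≠ w := by
            rintro rfl
            exact hv (by rw [mem_cA_inl]; exact ⟨haB, hwA⟩)
          simp only [Function.update_of_ne this]
          exact hS.off.1 v hv
        · have : c ≠ T.cd a := by
            rintro rfl
            exact hc (by rw [mem_cA_inr]; exact ⟨hcdB, hcdA⟩)
          simp only [Function.update_of_ne this]
          exact hS.off.2 c hc
      · intro c hc hu
        rw [hEBi, Finset.mem_insert] at hc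
        have hwa : a.1 ≠ w := (T.adj a).ne
        rcases hc with rfl | hc
        · have h1 : (Function.update ω.2 (T.cd a) s) (T.cd a) = s := Function.update_self ..
          simp only [h1] at hu
          have h2 := hs hu
          have e1 : col (Function.update ω.1 w σ) a = col ω.1 a := by
            unfold col; rw [Function.update_of_ne hwa]
          have e2 : col (Function.update ω.1 w σ) (T.N0 a) = σ (T.N0 a).2 := by
            unfold col; rw [← hw, Function.update_self]
          rcases T.cd_cases a with h3 | h3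
          · rw [h3]; simp only; rw [e1, e2, h2]
          · rw [h3, T.inv]; simp only; rw [e1, e2, h2]
        · have hne' : c ≠ T.cd a := fun h => hcdX (h ▸ hc)
          simp only [Function.update_of_ne hne'] at hu
          have h1 := hS.cons c hc hu
          have hcX := T.mem_EB.mp hc
          rw [(hnew σ s).col hcX.1, (hnew σ s).col hcX.2.2]
          exact h1
    -- facts about the new patched configuration
    have hptw : ∀ (σ : Equiv.Perm (Fin d)) (s : Bool),
        (T.pt A ρ (Function.update ω.1 w σ, Function.update ω.2 (T.cd a) s)).1 w = σ := by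
      intro σ s
      unfold pt
      simp only [if_neg hwA, Function.update_self]
    have hptu : ∀ (σ : Equiv.Perm (Fin d)) (s : Bool),
        (T.pt A ρ (Function.update ω.1 w σ, Function.update ω.2 (T.cd a) s)).2 (T.cd a) = s := by
      intro σ s
      unfold pt
      simp only [if_neg hcdA, Function.update_self]
    have hagp : ∀ (σ : Equiv.Perm (Fin d)) (s : Bool),
        T.Ag X ω' (T.pt A ρ (Function.update ω.1 w σ, Function.update ω.2 (T.cd a) s)) :=
      fun σ s => ag_pt ρ (hnew σ s)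
    have hsw : ∀ (σ : Equiv.Perm (Fin d)) (s : Bool),
        T.sw e (T.pt A ρ (Function.update ω.1 w σ, Function.update ω.2 (T.cd a) s)) =
        T.sw e ω' := by
      intro σ s
      unfold sw
      rw [(hagp σ s).col hS.e1, (hagp σ s).col hS.e2]
    have hposm : ∀ (σ : Equiv.Perm (Fin d)) (s : Bool), ∀ m ≤ n,
        pos (T.nof B (T.pt A ρ (Function.update ω.1 w σ, Function.update ω.2 (T.cd a) s)).2)
        (T.pt A ρ (Function.update ω.1 w σ, Function.update ω.2 (T.cd a) s)).1
        (T.sw e ω') (T.N0 e) m = pos (T.nof B ω'.2) ω'.1 (T.sw e ω') (T.N0 e) m :=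
      fun σ s => pos_ag (hagp σ s) hf hX
    have hpos1 : ∀ (σ : Equiv.Perm (Fin d)) (s : Bool) (g : Dart V d),
        pos (T.nof B (T.pt A ρ (Function.update ω.1 w σ, Function.update ω.2 (T.cd a) s)).2)
        (T.pt A ρ (Function.update ω.1 w σ, Function.update ω.2 (T.cd a) s)).1
        (T.sw e ω') (T.N0 e) (n + 1) = some g ↔ (s = true ∧ g = T.N0 a) := by
      intro σ s g
      rw [pos_succ99]
      constructor
      · rintro ⟨f', hf', hN⟩
        rw [hposm σ s n le_rfl, hf] at hf'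
        obtain rfl := Option.some.inj hf'
        have e1 : dt (T.pt A ρ (Function.update ω.1 w σ, Function.update ω.2 (T.cd a) s)).1 f.1
            (T.sw e ω' (col (T.pt A ρ (Function.update ω.1 w σ,
              Function.update ω.2 (T.cd a) s)).1 f)) = a := by
          rw [(hagp σ s).col hfX, (hagp σ s).dt hfX]
          exact ha.symm
        rw [e1, T.nof_some, hptu] at hN
        exact ⟨hN.2.2.1, hN.2.2.2.symm⟩
      · rintro ⟨hs, rfl⟩
        refine ⟨f, by rw [hposm σ s n le_rfl, hf], ?_⟩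
        have e1 : dt (T.pt A ρ (Function.update ω.1 w σ, Function.update ω.2 (T.cd a) s)).1 f.1
            (T.sw e ω' (col (T.pt A ρ (Function.update ω.1 w σ,
              Function.update ω.2 (T.cd a) s)).1 f)) = a := by
          rw [(hagp σ s).col hfX, (hagp σ s).dt hfX]
          exact ha.symm
        rw [e1, T.nof_some, hptu]
        exact ⟨hS.XB haX1, haB, hs, rfl⟩
    -- closure of the positions up to n
    have hclo : ∀ (σ : Equiv.Perm (Fin d)) (s : Bool), ∀ m ≤ n, ∀ g,
        pos (T.nof B (T.pt A ρ (Function.update ω.1 w σ, Function.update ω.2 (T.cd a) s)).2)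
        (T.pt A ρ (Function.update ω.1 w σ, Function.update ω.2 (T.cd a) s)).1
        (T.sw e ω') (T.N0 e) m = some g →
        g.1 ∈ X ∧ (T.N0 (dt (T.pt A ρ (Function.update ω.1 w σ,
            Function.update ω.2 (T.cd a) s)).1 g.1
          (T.sw e ω' (col (T.pt A ρ (Function.update ω.1 w σ,
            Function.update ω.2 (T.cd a) s)).1 g)))).1 ∈ insert w X := by
      intro σ s m hm g hg
      rw [hposm σ s m hm] at hg
      have hgX := hX m hm g hg
      refine ⟨hgX, ?_⟩
      have e1 : dt (T.pt A ρ (Function.update ω.1 w σ, Function.update ω.2 (T.cd a) s)).1 g.1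
            (T.sw e ω' (col (T.pt A ρ (Function.update ω.1 w σ,
              Function.update ω.2 (T.cd a) s)).1 g)) =
            dt ω'.1 g.1 (T.sw e ω' (col ω'.1 g)) := by
        rw [(hagp σ s).col hgX, (hagp σ s).dt hgX]
      rw [e1]
      rcases Nat.lt_or_ge m n with h1 | h1
      · obtain ⟨g', hg'⟩ := pos_le hf (show m + 1 ≤ n by omega)
        obtain ⟨g'', hg'', hN⟩ := pos_succ99.mp hg'
        rw [hg] at hg''
        obtain rfl := Option.some.inj hg''
        rw [T.nof_some] at hN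
        rw [hN.2.2.2]
        exact Finset.mem_insert_of_mem (hX (m + 1) (by omega) g' hg')
      · obtain rfl : m = n := by omega
        rw [hf] at hg
        obtain rfl := Option.some.inj hg
        rw [← ha]
        exact Finset.mem_insert_self _ _
    -- bounds for the two cases
    have hE2 : ∀ σ : Equiv.Perm (Fin d), T.EE ε B (insert w X) H
        (Function.update ω.1 w σ, Function.update ω.2 (T.cd a) false) ≤
        M * (K ^ (X.card + 1) * (c + (γ w + ∑ v ∈ X, γ v))) := by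
      intro σ
      have := hfin (insert w X) _ (hSit σ false (by simp)) ?_
      · rwa [hcard, hsum] at this
      · intro m g hg
        change pos _ _ (T.sw e (T.pt A ρ (Function.update ω.1 w σ,
          Function.update ω.2 (T.cd a) false))) _ _ = some g at hg
        change g.1 ∈ insert w X ∧ ((T.N0 (dt _ g.1 (T.sw e (T.pt A ρ (Function.update ω.1 w σ,
          Function.update ω.2 (T.cd a) false)) _))).1 ∈ B → (T.N0 (dt _ g.1 (T.sw e (T.pt A ρ
          (Function.update ω.1 w σ, Function.update ω.2 (T.cd a) false)) _))).1 ∈ insert w X)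
        rw [hsw] at hg ⊢
        rcases Nat.lt_or_ge n m with h1 | h1
        · exfalso
          obtain ⟨g', hg'⟩ := pos_le hg (show n + 1 ≤ m by omega)
          rw [hpos1] at hg'
          exact absurd hg'.1 (by simp)
        · have := hclo σ false m h1 g hg
          exact ⟨Finset.mem_insert_of_mem this.1, fun _ => this.2⟩
    have hE1 : ∀ σ : Equiv.Perm (Fin d), col ω.1 a = σ (T.N0 a).2 →
        T.EE ε B (insert w X) H
        (Function.update ω.1 w σ, Function.update ω.2 (T.cd a) true) ≤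
        M * (t₀ * (K ^ (X.card + 1) * (c + (γ w + ∑ v ∈ X, γ v) +
          T.Th B q γ (w, σ.symm (T.sw e ω' (col ω.1 a)))))) := by
      intro σ hσ
      set a' : Dart V d := (w, σ.symm (T.sw e ω' (col ω.1 a))) with ha'
      -- position n+1
      have hp1 := (hpos1 σ true (T.N0 a)).mpr ⟨rfl, rfl⟩
      have hcolN : col (T.pt A ρ (Function.update ω.1 w σ, Function.update ω.2 (T.cd a) true)).1
          (T.N0 a) = col ω.1 a := by
        unfold col
        rw [← hw, hptw]
        exact hσ.symm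
      have hleave : dt (T.pt A ρ (Function.update ω.1 w σ, Function.update ω.2 (T.cd a) true)).1
          (T.N0 a).1 (T.sw e ω' (col (T.pt A ρ (Function.update ω.1 w σ,
            Function.update ω.2 (T.cd a) true)).1 (T.N0 a))) = a' := by
        rw [hcolN]
        unfold dt
        rw [← hw, hptw]
      -- the colour changes
      have hsw2 : T.sw e ω' (col ω.1 a) ≠ col ω.1 a := by
        rw [← hcola, hcola']
        unfold sw
        rw [Equiv.swap_apply_self]
        exact Ne.symm hne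
      by_cases hB' : (T.N0 a').1 ∈ B
      · have hX'' : (T.N0 a').1 ∉ insert w X := by
          rw [Finset.mem_insert, not_or]
          refine ⟨T.N0_ne a', fun h => ?_⟩
          have h1 : (T.N0 a').1 = a.1 := hS.clo.nbr_unique hG h haX1 haX
            (T.adj a') (T.adj a).symm
          have h2 : a' = T.N0 a := T.eq_of_nb rfl (by rw [T.inv]; exact h1)
          have h3 : a'.2 = (T.N0 a).2 := congrArg Prod.snd h2
          apply hsw2
          rw [ha'] at h3
          simp only at h3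
          rw [Equiv.symm_apply_eq] at h3
          rw [h3, ← hσ]
        have := ih _ hlt (insert w X) _ a' (hSit σ true (fun _ => hσ)) ⟨n + 1, T.N0 a, ?_, ?_, ?_,
          hB', hX'', ?_⟩ rfl
        · rw [hcard, hsum] at this
          exact this
        · rw [hsw]; exact hp1
        · intro m hm g hg
          rw [hsw] at hg
          rcases Nat.lt_or_ge m (n + 1) with h1 | h1
          · exact Finset.mem_insert_of_mem (hclo σ true m (by omega) g hg).1
          · obtain rfl : m = n + 1 := by omega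
            rw [hp1] at hg
            rw [← Option.some.inj hg]
            exact Finset.mem_insert_self _ _
        · rw [hsw]; exact hleave.symm
        · rw [hsw, hcolN]; exact hsw2
      · have := hfin (insert w X) _ (hSit σ true (fun _ => hσ)) ?_
        · rw [hcard, hsum] at this
          refine this.trans (mul_le_mul_of_nonneg_left ?_ hM)
          have h0 : 0 ≤ K ^ (X.card + 1) := pow_nonneg (by linarith) _
          have h1 : 0 ≤ c + (γ w + ∑ v ∈ X, γ v) :=
            add_nonneg hc (add_nonneg (hγ w) (Finset.sum_nonneg fun v _ => hγ v))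
          have h2 : 0 ≤ T.Th B q γ a' := Th_nonneg B hq0 hγ a'
          calc K ^ (X.card + 1) * (c + (γ w + ∑ v ∈ X, γ v)) ≤
              K ^ (X.card + 1) * (c + (γ w + ∑ v ∈ X, γ v) + T.Th B q γ a') :=
                mul_le_mul_of_nonneg_left (by linarith) h0
            _ ≤ t₀ * (K ^ (X.card + 1) * (c + (γ w + ∑ v ∈ X, γ v) + T.Th B q γ a')) :=
                le_mul_of_one_le_left (mul_nonneg h0 (by linarith)) ht1
        · intro m g hg
          change pos _ _ (T.sw e (T.pt A ρ (Function.update ω.1 w σ,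
            Function.update ω.2 (T.cd a) true))) _ _ = some g at hg
          change g.1 ∈ insert w X ∧ ((T.N0 (dt _ g.1 (T.sw e (T.pt A ρ (Function.update ω.1 w σ,
            Function.update ω.2 (T.cd a) true)) _))).1 ∈ B → (T.N0 (dt _ g.1 (T.sw e (T.pt A ρ
            (Function.update ω.1 w σ, Function.update ω.2 (T.cd a) true)) _))).1 ∈ insert w X)
          rw [hsw] at hg ⊢
          rcases Nat.lt_trichotomy m (n + 1) with h1 | h1 | h1
          · have := hclo σ true m (by omega) g hg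
            exact ⟨Finset.mem_insert_of_mem this.1, fun _ => this.2⟩
          · subst h1
            rw [hp1] at hg
            obtain rfl := Option.some.inj hg
            refine ⟨Finset.mem_insert_self _ _, fun h2 => ?_⟩
            rw [hleave] at h2
            exact absurd h2 hB'
          · exfalso
            obtain ⟨g', hg'⟩ := pos_le hg (show (n + 1) + 1 ≤ m by omega)
            obtain ⟨g'', hg'', hN⟩ := pos_succ99.mp hg'
            rw [hp1] at hg''
            obtain rfl := Option.some.inj hg''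
            rw [hleave, T.nof_some] at hN
            exact hB' hN.2.1
    -- averaging
    rw [EE_step' ε hG hS.clo hS.XB haX1 haX haB]
    have hεa := hε (T.cd a)
    have hεla := hεl (T.cd a)
    set U : ℝ := c + (γ w + ∑ v ∈ X, γ v) with hU
    have hU0 : 0 ≤ U := add_nonneg hc (add_nonneg (hγ w) (Finset.sum_nonneg fun v _ => hγ v))
    have hKX : 0 ≤ K ^ (X.card + 1) := pow_nonneg (by linarith) _
    have hlc : T.sw e ω' (col ω.1 a) ≠ col ω.1 a := by
      rw [← hcola, hcola']
      unfold sw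
      rw [Equiv.swap_apply_self]
      exact Ne.symm hne
    have hsumle : ∑ σ : Equiv.Perm (Fin d),
        ((1 - ε (T.cd a)) * ((if col ω.1 a = σ (T.N0 a).2 then (d : ℝ) else 0) *
          T.EE ε B (insert (T.N0 a).1 X) H
            (Function.update ω.1 (T.N0 a).1 σ, Function.update ω.2 (T.cd a) true)) +
        ε (T.cd a) * T.EE ε B (insert (T.N0 a).1 X) H
            (Function.update ω.1 (T.N0 a).1 σ, Function.update ω.2 (T.cd a) false)) ≤
        ∑ σ : Equiv.Perm (Fin d), ((1 - ε (T.cd a)) *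
          ((if col ω.1 a = σ (T.N0 a).2 then (d : ℝ) else 0) *
          (M * (t₀ * (K ^ (X.card + 1) * (U +
            T.Th B q γ (w, σ.symm (T.sw e ω' (col ω.1 a)))))))) +
        ε (T.cd a) * (M * (K ^ (X.card + 1) * U))) := by
      refine Finset.sum_le_sum fun σ _ => add_le_add ?_ ?_
      · refine mul_le_mul_of_nonneg_left ?_ (by linarith)
        by_cases hσ : col ω.1 a = σ (T.N0 a).2
        · rw [if_pos hσ]
          exact mul_le_mul_of_nonneg_left (hE1 σ hσ) (by positivity)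
        · rw [if_neg hσ]; simp
      · exact mul_le_mul_of_nonneg_left (hE2 σ) hεa.1
    refine (mul_le_mul_of_nonneg_left hsumle (by positivity)).trans ?_
    rw [Finset.sum_add_distrib, mul_add, ← Finset.mul_sum, mul_left_comm]
    rw [avg_inv (d := d) (by omega) (T.N0 a).2 hlc
      (fun i => M * (t₀ * (K ^ (X.card + 1) * (U + T.Th B q γ (w, i)))))]
    have hfact : (1 / (d.factorial : ℝ)) * ∑ _σ : Equiv.Perm (Fin d),
        ε (T.cd a) * (M * (K ^ (X.card + 1) * U)) = ε (T.cd a) * (M * (K ^ (X.card + 1) * U)) := by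
      rw [Finset.sum_const, Finset.card_univ, Fintype.card_perm, Fintype.card_fin, nsmul_eq_mul]
      field_simp
    rw [hfact]
    have hTh := Th_step (T := T) (γ := γ) (q := q) hG a haB
    set Sg : ℝ := ∑ i ∈ univ.erase (T.N0 a).2, T.Th B q γ ((T.N0 a).1, i) with hSg
    have hSg0 : 0 ≤ Sg := Finset.sum_nonneg fun i _ => Th_nonneg B hq0 hγ _
    have hcardE : (univ.erase (T.N0 a).2 : Finset (Fin d)).card = d - 1 := by
      rw [Finset.card_erase_of_mem (Finset.mem_univ _), Finset.card_univ, Fintype.card_fin]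
    have hsumE : ∑ i ∈ univ.erase (T.N0 a).2,
        M * (t₀ * (K ^ (X.card + 1) * (U + T.Th B q γ (w, i)))) =
        M * (t₀ * (K ^ (X.card + 1) * (((d : ℝ) - 1) * U + Sg))) := by
      rw [← Finset.mul_sum, ← Finset.mul_sum, ← Finset.mul_sum, Finset.sum_add_distrib,
        Finset.sum_const, hcardE, nsmul_eq_mul, Nat.cast_sub (by omega : 1 ≤ d), Nat.cast_one]
    rw [hsumE]
    have hTh' : c + ∑ v ∈ X, γ v + T.Th B q γ a = U + q * Sg := by
      rw [hTh, hU]; ring
    rw [hTh']
    -- final inequality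
    have hKpos : 0 ≤ K ^ X.card := pow_nonneg (by linarith) _
    have h1 : ε (T.cd a) * K + (1 - ε (T.cd a)) * K * t₀ ≤ t₀ := by
      nlinarith [mul_nonneg (sub_nonneg.mpr hεla) (mul_nonneg (show 0 ≤ K by linarith)
        (sub_nonneg.mpr ht1))]
    have h2 : (1 - ε (T.cd a)) * K * t₀ * (1 / ((d : ℝ) - 1)) ≤ t₀ * q := by
      have : (1 - ε (T.cd a)) * K ≤ (1 - εl) * K :=
        mul_le_mul_of_nonneg_right (by linarith) (by linarith)
      calc (1 - ε (T.cd a)) * K * t₀ * (1 / ((d : ℝ) - 1)) ≤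
          (1 - εl) * K * t₀ * (1 / ((d : ℝ) - 1)) :=
            mul_le_mul_of_nonneg_right (mul_le_mul_of_nonneg_right this (by linarith))
              (by positivity)
        _ = t₀ * q := by rw [hq]; ring
    have h3 : (1 - ε (T.cd a)) * (1 / ((d : ℝ) - 1) *
        (M * (t₀ * (K ^ (X.card + 1) * (((d : ℝ) - 1) * U + Sg))))) +
        ε (T.cd a) * (M * (K ^ (X.card + 1) * U)) =
        M * K ^ X.card * ((ε (T.cd a) * K + (1 - ε (T.cd a)) * K * t₀) * U +
          ((1 - ε (T.cd a)) * K * t₀ * (1 / ((d : ℝ) - 1))) * Sg) := by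
      rw [pow_succ]
      field_simp
      ring
    rw [h3]
    calc M * K ^ X.card * ((ε (T.cd a) * K + (1 - ε (T.cd a)) * K * t₀) * U +
          ((1 - ε (T.cd a)) * K * t₀ * (1 / ((d : ℝ) - 1))) * Sg) ≤
          M * K ^ X.card * (t₀ * U + (t₀ * q) * Sg) :=
            mul_le_mul_of_nonneg_left (add_le_add (mul_le_mul_of_nonneg_right h1 hU0)
              (mul_le_mul_of_nonneg_right h2 hSg0)) (mul_nonneg hM hKpos)
      _ = M * (t₀ * (K ^ X.card * (U + q * Sg))) := by ring

/-- exploration of a chain: the potential increases at most by a constant factor -/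
theorem explore [NeZero d] (hG : G.IsTree) (hd : 3 ≤ d) (hε : WOK ε)
    (hεl : ∀ e, εl ≤ ε e) {r : V} {B : Finset V} (hK : 1 ≤ K) (ht1 : 1 ≤ t₀)
    (ht : εl * K + (1 - εl) * K * t₀ ≤ t₀)
    (hγ : ∀ v, 0 ≤ γ v) (hc : 0 ≤ c) (hM : 0 ≤ M) {CT : ℝ} (hCT : 0 ≤ CT)
    (hTh : ∀ a : Dart V d, T.Th B (K * (1 - εl) / ((d : ℝ) - 1)) γ a ≤ CT * γ a.1)
    {A : Finset V} {ρ ω₀ : Cfg V d}
    (hbd : ∀ a : Dart V d, a.1 ∈ A → (T.N0 a).1 ∈ B → (T.N0 a).1 ∉ A → col ρ.1 a = col ω₀.1 a)
    {e : Dart V d} {Gd : Finset V → Cfg V d → Prop}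
    (hGd : ∀ X X' ω ω', Gd X ω → X ⊆ X' → X' ⊆ B → T.Ag X ω ω' → Gd X' ω')
    (H : Cfg V d → ℝ)
    (hfin : ∀ X ω, T.Sit r B A ρ ω₀ e Gd X ω → T.ClX B e X (T.pt A ρ ω) →
      T.EE ε B X H ω ≤ M * (K ^ X.card * (c + ∑ v ∈ X, γ v)))
    (X : Finset V) (ω : Cfg V d) (hS : T.Sit r B A ρ ω₀ e Gd X ω) :
    T.EE ε B X H ω ≤ (M * (t₀ * (1 + CT))) * (K ^ X.card * (c + ∑ v ∈ X, γ v)) := by
  have hKX : 0 ≤ K ^ X.card := pow_nonneg (by linarith) _
  have hU0 : 0 ≤ c + ∑ v ∈ X, γ v := add_nonneg hc (Finset.sum_nonneg fun v _ => hγ v)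
  by_cases hcl : T.ClX B e X (T.pt A ρ ω)
  · refine (hfin X ω hS hcl).trans ?_
    have : 1 ≤ t₀ * (1 + CT) := by nlinarith
    calc M * (K ^ X.card * (c + ∑ v ∈ X, γ v)) ≤
        (t₀ * (1 + CT)) * (M * (K ^ X.card * (c + ∑ v ∈ X, γ v))) :=
          le_mul_of_one_le_left (mul_nonneg hM (mul_nonneg hKX hU0)) this
      _ = _ := by ring
  · obtain ⟨a, ha⟩ := exists_exit hS.e1 hS.e2 hcl
    refine (explore_exit hG hd hε hεl hK ht1 ht hγ hc hM hbd hGd H hfin X ω a hS ha).trans ?_
    have haX : a.1 ∈ X := by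
      obtain ⟨n, f, hf, hX, ha', _⟩ := ha
      rw [ha']
      exact hX n le_rfl f hf
    have h1 : T.Th B (K * (1 - εl) / ((d : ℝ) - 1)) γ a ≤ CT * (c + ∑ v ∈ X, γ v) := by
      refine (hTh a).trans (mul_le_mul_of_nonneg_left ?_ hCT)
      have := Finset.single_le_sum (f := γ) (fun v _ => hγ v) haX
      linarith
    calc M * (t₀ * (K ^ X.card * (c + ∑ v ∈ X, γ v +
          T.Th B (K * (1 - εl) / ((d : ℝ) - 1)) γ a))) ≤
        M * (t₀ * (K ^ X.card * (c + ∑ v ∈ X, γ v + CT * (c + ∑ v ∈ X, γ v)))) := by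
          gcongr
      _ = _ := by ring

end explore

end PT

end FI
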