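import Mathlib

/-!
# FI: definitions for the factor-of-iid proper edge colouring of the `d`-regular tree

Darts, states, Kempe chains, the look-ahead exchange and the repair kernel.
-/

set_option autoImplicit false

namespace FI

open Finset Function
open scoped Classical

/-- a dart: a vertex together with one of its `d` ports. -/
abbrev Dart (V : Type*) (d : ℕ) := V × Fin d

/-- a state: at every vertex a bijection from ports to colours. -/
abbrev St (V : Type*) (d : ℕ) := V → Equiv.Perm (Fin d)

/-- an adjacency: partner of a dart, or `none` if the edge is cut / missing. -/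
abbrev Adj (V : Type*) (d : ℕ) := Dart V d → Option (Dart V d)

section Basic

variable {V : Type*} {d : ℕ}

/-- colour of a dart -/
def col (x : St V d) (a : Dart V d) : Fin d := x a.1 a.2

/-- the dart at `v` with colour `k` -/
def dt (x : St V d) (v : V) (k : Fin d) : Dart V d := (v, (x v).symm k)

/-- one Kempe step: arrive at `a.1` through the dart `a`, leave through colour `τ (col x a)`. -/
def nx (N : Adj V d) (x : St V d) (τ : Equiv.Perm (Fin d)) (a : Dart V d) :
    Option (Dart V d) :=
  N (dt x a.1 (τ (col x a)))

/-- `n`-th position (arrival dart) of the chain which starts with arrival dart `a`. -/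
def pos (N : Adj V d) (x : St V d) (τ : Equiv.Perm (Fin d)) (a : Dart V d) :
    ℕ → Option (Dart V d)
  | 0 => some a
  | n + 1 => (pos N x τ a n).bind (nx N x τ)

/-- the vertex `v` lies on the chain from `a`. -/
def onCh (N : Adj V d) (x : St V d) (τ : Equiv.Perm (Fin d)) (a : Dart V d) (v : V) : Prop :=
  ∃ n f, pos N x τ a n = some f ∧ f.1 = v

/-- Kempe flip of the whole chain from `a`. -/
noncomputable def flip (N : Adj V d) (x : St V d) (τ : Equiv.Perm (Fin d)) (a : Dart V d) :
    St V d :=
  fun v => if onCh N x τ a v then τ * x v else x v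

/-- consistency of a state with an adjacency -/
def Cons (N : Adj V d) (x : St V d) : Prop :=
  ∀ a b, N a = some b → col x a = col x b

/-- the side chain leaving through the dart `a` (pair `τ`) has at most `J` positions. -/
def sideOK (J : ℕ) (N : Adj V d) (x : St V d) (τ : Equiv.Perm (Fin d)) (a : Dart V d) : Prop :=
  ∀ c, N a = some c → pos N x τ c J = none

/-- availability of the exchange at the `n`-th position of the chain from `a`. -/
def own (J : ℕ) (N : Adj V d) (x : St V d) (τ : Equiv.Perm (Fin d)) (b : Fin d)
    (a : Dart V d) (n : ℕ) : Prop :=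
  ∃ f, pos N x τ a n = some f ∧
    sideOK J N x (Equiv.swap (τ (col x f)) b) (dt x f.1 (τ (col x f))) ∧
    sideOK J N x (Equiv.swap b (col x f)) (dt x f.1 b)

/-- number of available even positions before `2 j` -/
noncomputable def cntOwn (J : ℕ) (N : Adj V d) (x : St V d) (τ : Equiv.Perm (Fin d))
    (b : Fin d) (a : Dart V d) (j : ℕ) : ℕ :=
  ((range j).filter (fun m => own J N x τ b a (2 * m))).card

/-- the same number in the flipped state -/
noncomputable def cntOth (J : ℕ) (N : Adj V d) (x : St V d) (τ : Equiv.Perm (Fin d))
    (b : Fin d) (a : Dart V d) (j : ℕ) : ℕ :=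
  cntOwn J N (flip N x τ a) τ b a j

/-- parameters of the kernel -/
structure Par where
  K : ℕ
  M : ℕ
  J : ℕ

/-- the index `j` is selectable -/
def sel (P : Par) (N : Adj V d) (x : St V d) (τ : Equiv.Perm (Fin d))
    (b : Fin d) (a : Dart V d) (j : ℕ) : Prop :=
  own P.J N x τ b a (2 * j) ∧ cntOwn P.J N x τ b a j < P.K ∧ cntOth P.J N x τ b a j < P.K

/-- list of selectable indices -/
noncomputable def avail (P : Par) (N : Adj V d) (x : St V d) (τ : Equiv.Perm (Fin d))
    (b : Fin d) (a : Dart V d) : List ℕ :=
  (List.range P.M).filter (fun j => sel P N x τ b a j)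

/-- the 3-cycle `k → l → b → k` -/
def cyc (k l b : Fin d) : Equiv.Perm (Fin d) := Equiv.swap k b * Equiv.swap k l

/-- the exchange at position `n` of the chain from `a`. -/
noncomputable def phi (N : Adj V d) (x : St V d) (τ : Equiv.Perm (Fin d)) (b : Fin d)
    (a : Dart V d) (n : ℕ) : St V d :=
  match pos N x τ a n with
  | none => x
  | some f => fun v =>
      if v = f.1 then cyc (col x f) (τ (col x f)) b * x v
      else if ∃ i g, i < n ∧ pos N x τ a i = some g ∧ g.1 = v then τ * x v
      else if ∃ c, N (dt x f.1 (τ (col x f))) = some c ∧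
          onCh N x (Equiv.swap (τ (col x f)) b) c v then
        Equiv.swap (τ (col x f)) b * x v
      else if ∃ c, N (dt x f.1 b) = some c ∧ onCh N x (Equiv.swap b (col x f)) c v then
        Equiv.swap b (col x f) * x v
      else x v

/-- a colour different from `k` and `l` (symmetric in `k`, `l`). -/
noncomputable def third [NeZero d] (k l : Fin d) : Fin d :=
  Classical.epsilon (fun b => b ≠ k ∧ b ≠ l)

/-- The repair kernel at the cut edge `(a, b')`, noise `ξ < K`. -/
noncomputable def kern [NeZero d] (P : Par) (N : Adj V d) (x : St V d) (ξ : ℕ)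
    (a b' : Dart V d) : St V d :=
  if col x a = col x b' then x
  else
    match (avail P N x (Equiv.swap (col x a) (col x b')) (third (col x a) (col x b')) a)[ξ]? with
    | some j => phi N x (Equiv.swap (col x a) (col x b')) (third (col x a) (col x b')) a (2 * j)
    | none => flip N x (Equiv.swap (col x a) (col x b')) b'

/-- adding the edge `{a, b'}` to an adjacency -/
noncomputable def addE (N : Adj V d) (a b' : Dart V d) : Adj V d :=
  fun c => if c = a then some b' else if c = b' then some a else N c

/-- non-backtracking walks from the arrival dart `a` along a word of ports -/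
inductive Wk (N : Adj V d) : Dart V d → List (Fin d) → Dart V d → Prop
  | nil (a : Dart V d) : Wk N a [] a
  | cons {a c f : Dart V d} {i : Fin d} {p : List (Fin d)} :
      i ≠ a.2 → N (a.1, i) = some c → Wk N c p f → Wk N a (i :: p) f

/-- forests: symmetric adjacency, and non-backtracking walks from a dart to a vertex are unique -/
structure Forest (N : Adj V d) : Prop where
  symm : ∀ a b, N a = some b → N b = some a
  uniq : ∀ a p q f g, Wk N a p f → Wk N a q g → f.1 = g.1 → p = q

end Basic

/-- Ported tree structure over the graph `G`: `N0` is the partner of a dart, `cd` the canonical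
dart of an edge (it also gives the orientation: branch 1 is at `(cd a).1`). -/
structure PT {V : Type*} (G : SimpleGraph V) (d : ℕ) where
  N0 : Dart V d → Dart V d
  inv : ∀ a, N0 (N0 a) = a
  adj : ∀ a, G.Adj a.1 (N0 a).1
  surj : ∀ v w, G.Adj v w → ∃ i, (N0 (v, i)).1 = w
  inj : ∀ v i j, (N0 (v, i)).1 = (N0 (v, j)).1 → i = j
  cd : Dart V d → Dart V d
  cd_cases : ∀ a, cd a = a ∨ cd a = N0 a
  cd_N0 : ∀ a, cd (N0 a) = cd a

/-- configurations: a state, and for every canonical dart whether its edge is uncut -/
abbrev Cfg (V : Type*) (d : ℕ) := St V d × (Dart V d → Bool)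

section Run

variable {V : Type*} {G : SimpleGraph V} {d : ℕ}

/-- current adjacency inside the volume `B` -/
noncomputable def PT.nof (T : PT G d) (B : Finset V) (u : Dart V d → Bool) : Adj V d :=
  fun a => if a.1 ∈ B ∧ (T.N0 a).1 ∈ B ∧ u (T.cd a) = true then some (T.N0 a) else none

/-- canonical darts of the edges inside `B` -/
noncomputable def PT.EB (T : PT G d) (B : Finset V) : Finset (Dart V d) :=
  (B ×ˢ univ).filter (fun a => T.cd a = a ∧ (T.N0 a).1 ∈ B)

/-- the update at a hit edge `e` (canonical dart) with noise `ξ`, mask `m` -/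
noncomputable def PT.hs (T : PT G d) [NeZero d] (P : Par) (B : Finset V) (m : Dart V d → Bool)
    (e : Dart V d) (ξ : ℕ) (ω : Cfg V d) : Cfg V d :=
  if m e = true ∧ ω.2 e = false then
    (kern P (T.nof B ω.2) ω.1 ξ e (T.N0 e), Function.update ω.2 e true)
  else ω

/-- the run over a list of edges with noise `ζ` (hit bit and `ξ`), step functions `R` -/
def runL (R : Dart V d → ℕ → Cfg V d → Cfg V d) (ζ : Dart V d → Bool × ℕ) :
    List (Dart V d) → Cfg V d → Cfg V d
  | [], ω => ω
  | e :: L, ω => runL R ζ L (if (ζ e).1 then R e (ζ e).2 ω else ω)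

/-- expectation of `F` of a pair of runs with common noise: hit probability `p`,
`ξ` uniform in `range K`. -/
noncomputable def VP (p : ℝ) (K : ℕ) (R R' : Dart V d → ℕ → Cfg V d → Cfg V d) :
    List (Dart V d) → (Cfg V d → Cfg V d → ℝ) → Cfg V d → Cfg V d → ℝ
  | [], F, ω, ω' => F ω ω'
  | e :: L, F, ω, ω' => (1 - p) * VP p K R R' L F ω ω' +
      p * ((1 / (K : ℝ)) * ∑ ξ ∈ range K, VP p K R R' L F (R e ξ ω) (R' e ξ ω'))

/-- the weight of an edge in the density of the exact law -/
noncomputable def PT.zw (T : PT G d) (e : Dart V d) (ω : Cfg V d) : ℝ :=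
  if ω.2 e = true then (if col ω.1 e = col ω.1 (T.N0 e) then (d : ℝ) else 0) else 1

/-- averaging one coordinate: the state at a vertex (uniform), or the status of an edge
(cut with probability `ε e`) -/
noncomputable def av1 (ε : Dart V d → ℝ) : V ⊕ Dart V d → (Cfg V d → ℝ) → Cfg V d → ℝ
  | .inl v, F, ω => (1 / (d.factorial : ℝ)) *
      ∑ σ : Equiv.Perm (Fin d), F (Function.update ω.1 v σ, ω.2)
  | .inr e, F, ω => (1 - ε e) * F (ω.1, Function.update ω.2 e true) +
      ε e * F (ω.1, Function.update ω.2 e false)

end Run

end FI
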