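import Pool.Agent.H99.FI.Defs

/-!
# FI: metric facts of trees, ported trees are forests
-/

set_option autoImplicit false

namespace FI

open Finset Function
open scoped Classical

variable {V : Type*} {G : SimpleGraph V} {d : ℕ}

theorem dist_adj (hG : G.IsTree) (r : V) {v w : V} (h : G.Adj v w) :
    G.dist r v = G.dist r w + 1 ∨ G.dist r w = G.dist r v + 1 :=
  hG.dist_eq_dist_add_one_of_adj r h

/-- the neighbour closer to `r` is unique -/
theorem closer_unique (hG : G.IsTree) (r : V) {v w w' : V} (h : G.Adj v w) (h' : G.Adj v w')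
    (hw : G.dist r v = G.dist r w + 1) (hw' : G.dist r v = G.dist r w' + 1) : w = w' := by
  obtain ⟨p, hp, hpl⟩ := hG.connected.exists_path_of_dist r w
  obtain ⟨q, hq, hql⟩ := hG.connected.exists_path_of_dist r w'
  have hp' : (p.concat h.symm).IsPath := by
    apply SimpleGraph.Walk.isPath_of_length_eq_dist
    rw [SimpleGraph.Walk.length_concat, hpl, hw]
  have hq' : (q.concat h'.symm).IsPath := by
    apply SimpleGraph.Walk.isPath_of_length_eq_dist
    rw [SimpleGraph.Walk.length_concat, hql, hw']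
  have := hG.isAcyclic.path_unique ⟨_, hp'⟩ ⟨_, hq'⟩
  have h2 : p.concat h.symm = q.concat h'.symm := congrArg Subtype.val this
  have h3 := congrArg SimpleGraph.Walk.penultimate h2
  simpa using h3

theorem exists_closer (hG : G.IsTree) (r : V) {v : V} (h : v ≠ r) :
    ∃ w, G.Adj v w ∧ G.dist r v = G.dist r w + 1 := by
  obtain ⟨p, hp⟩ := hG.connected.exists_walk_length_eq_dist v r
  cases p with
  | nil => exact absurd rfl h
  | @cons _ w _ hadj q =>
    refine ⟨w, hadj, ?_⟩
    rw [SimpleGraph.Walk.length_cons] at hp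
    have h1 : G.dist w r ≤ q.length := SimpleGraph.dist_le q
    rcases dist_adj hG r hadj with h2 | h2
    · exact h2
    · rw [SimpleGraph.dist_comm (u := r), SimpleGraph.dist_comm (u := r)] at h2
      omega

/-- `A` contains `r` and is closed under going towards `r` -/
def Clo (G : SimpleGraph V) (r : V) (A : Finset V) : Prop :=
  r ∈ A ∧ ∀ v ∈ A, ∀ w, G.Adj v w → G.dist r v = G.dist r w + 1 → w ∈ A

/-- a vertex outside of a closed set has at most one neighbour inside, and it is the closer one -/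
theorem Clo.closer (hG : G.IsTree) {r : V} {A : Finset V} (hA : Clo G r A) {v w : V}
    (hv : v ∈ A) (hw : w ∉ A) (h : G.Adj w v) : G.dist r w = G.dist r v + 1 := by
  rcases dist_adj hG r h with h' | h'
  · exact h'
  · exact absurd (hA.2 v hv w h.symm h') hw

theorem Clo.nbr_unique (hG : G.IsTree) {r : V} {A : Finset V} (hA : Clo G r A) {v v' w : V}
    (hv : v ∈ A) (hv' : v' ∈ A) (hw : w ∉ A) (h : G.Adj w v) (h' : G.Adj w v') : v = v' :=
  closer_unique hG r h h' (hA.closer hG hv hw h) (hA.closer hG hv' hw h')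

theorem Clo.insert (hG : G.IsTree) {r : V} {A : Finset V} (hA : Clo G r A) {v w : V}
    (hv : v ∈ A) (h : G.Adj w v) : Clo G r (insert w A) := by
  by_cases hw : w ∈ A
  · rwa [Finset.insert_eq_of_mem hw]
  refine ⟨Finset.mem_insert_of_mem hA.1, fun u hu u' huu' hd => ?_⟩
  rcases Finset.mem_insert.mp hu with rfl | hu
  · have := closer_unique hG r h huu' (hA.closer hG hv hw h) hd
    rw [← this]
    exact Finset.mem_insert_of_mem hv
  · exact Finset.mem_insert_of_mem (hA.2 u hu u' huu' hd)

theorem Clo.singleton (r : V) : Clo G r {r} := by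
  refine ⟨Finset.mem_singleton_self r, fun v hv w _ hd => ?_⟩
  rw [Finset.mem_singleton] at hv
  subst hv
  simp at hd

/-- growing inside a larger closed set -/
theorem Clo.grow (hG : G.IsTree) {r : V} {A B : Finset V} (hA : Clo G r A) (hB : Clo G r B)
    (hAB : ¬ B ⊆ A) : ∃ w ∈ B, w ∉ A ∧ ∃ v ∈ A, G.Adj w v := by
  obtain ⟨w, hw, hwm⟩ := Finset.exists_min_image (B \ A) (fun w => G.dist r w)
    (by
      rw [Finset.nonempty_iff_ne_empty]
      intro h
      exact hAB (Finset.sdiff_eq_empty_iff_subset.mp h))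
  rw [Finset.mem_sdiff] at hw
  have hwr : w ≠ r := fun h => hw.2 (h ▸ hA.1)
  obtain ⟨v, hv, hd⟩ := exists_closer hG r hwr
  have hvB : v ∈ B := hB.2 w hw.1 v hv hd
  refine ⟨w, hw.1, hw.2, v, ?_, hv⟩
  by_contra hvA
  have := hwm v (Finset.mem_sdiff.mpr ⟨hvB, hvA⟩)
  omega

/-! ### ported trees -/

namespace PT

variable (T : PT G d)

theorem N0_ne (a : Dart V d) : (T.N0 a).1 ≠ a.1 := fun h => (T.adj a).ne h.symm

theorem N0_inj {a b : Dart V d} (h : T.N0 a = T.N0 b) : a = b := by
  rw [← T.inv a, h, T.inv]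

theorem eq_of_nb {a b : Dart V d} (h1 : a.1 = b.1) (h2 : (T.N0 a).1 = (T.N0 b).1) : a = b := by
  obtain ⟨v, i⟩ := a
  obtain ⟨w, j⟩ := b
  simp only at h1
  subst h1
  rw [T.inj v i j h2]

theorem cd_cd (a : Dart V d) : T.cd (T.cd a) = T.cd a := by
  rcases T.cd_cases a with h | h
  · rw [h, h]
  · conv_lhs => rw [h]
    rw [T.cd_N0]

theorem cd_eq_iff {a b : Dart V d} : T.cd a = T.cd b ↔ a = b ∨ a = T.N0 b := by
  constructor
  · intro h
    rcases T.cd_cases a with h1 | h1 <;> rcases T.cd_cases b with h2 | h2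
    · exact Or.inl (by rw [← h1, h, h2])
    · exact Or.inr (by rw [← h1, h, h2])
    · right
      have : T.N0 a = b := by rw [← h1, h, h2]
      rw [← this, T.inv]
    · left
      exact T.N0_inj (by rw [← h1, h, h2])
  · rintro (rfl | rfl)
    · rfl
    · rw [T.cd_N0]

theorem mem_EB {B : Finset V} {a : Dart V d} :
    a ∈ T.EB B ↔ a.1 ∈ B ∧ T.cd a = a ∧ (T.N0 a).1 ∈ B := by
  simp [PT.EB]

theorem cd_mem_EB {B : Finset V} {a : Dart V d} (h1 : a.1 ∈ B) (h2 : (T.N0 a).1 ∈ B) :
    T.cd a ∈ T.EB B := by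
  rw [mem_EB]
  refine ⟨?_, T.cd_cd a, ?_⟩
  · rcases T.cd_cases a with h | h <;> rw [h] <;> assumption
  · rcases T.cd_cases a with h | h <;> rw [h]
    · exact h2
    · rw [T.inv]; exact h1

theorem EB_mono {A B : Finset V} (h : A ⊆ B) : T.EB A ⊆ T.EB B := by
  intro a ha
  rw [mem_EB] at ha ⊢
  exact ⟨h ha.1, ha.2.1, h ha.2.2⟩

theorem nof_some {B : Finset V} {u : Dart V d → Bool} {a b : Dart V d} :
    T.nof B u a = some b ↔
      a.1 ∈ B ∧ (T.N0 a).1 ∈ B ∧ u (T.cd a) = true ∧ T.N0 a = b := by
  unfold PT.nof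
  split_ifs with h
  · simp only [Option.some.injEq]
    tauto
  · simp only [reduceCtorEq, false_iff]
    tauto

theorem nof_symm {B : Finset V} {u : Dart V d → Bool} {a b : Dart V d}
    (h : T.nof B u a = some b) : T.nof B u b = some a := by
  rw [nof_some] at h ⊢
  obtain ⟨h1, h2, h3, rfl⟩ := h
  rw [T.inv, T.cd_N0]
  exact ⟨h2, h1, h3, rfl⟩

/-- metric content of walks -/
theorem wk_dist (hG : G.IsTree) {N : Adj V d} (hN : ∀ a b, N a = some b → T.N0 a = b)
    {a f : Dart V d} {p : List (Fin d)} (h : Wk N a p f) :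
    G.dist f.1 a.1 = p.length ∧ G.dist f.1 (T.N0 a).1 = p.length + 1 := by
  induction h with
  | nil a =>
    refine ⟨by simp, ?_⟩
    simpa using (SimpleGraph.dist_eq_one_iff_adj.mpr (T.adj a))
  | @cons a c f i p hi hc hw ih =>
    have hc' := hN _ _ hc
    have hc2 : T.N0 c = (a.1, i) := by rw [← hc', T.inv]
    rw [hc2] at ih
    have hadj : G.Adj a.1 c.1 := by
      have := T.adj (a.1, i)
      rw [hc'] at this
      exact this
    refine ⟨by simpa using ih.2, ?_⟩
    have h1 : G.dist f.1 a.1 = p.length + 1 := by simpa using ih.2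
    rcases dist_adj hG f.1 (T.adj a) with h2 | h2
    · exfalso
      have h3 : c.1 = (T.N0 a).1 :=
        closer_unique hG f.1 hadj (T.adj a) (by rw [h1, ih.1]) h2
      have h4 : a.2 = i := T.inj a.1 a.2 i (by rw [hc', h3])
      exact hi h4.symm
    · rw [h2, h1, List.length_cons]

theorem forest_of (hG : G.IsTree) {N : Adj V d} (hN : ∀ a b, N a = some b → T.N0 a = b)
    (hs : ∀ a b, N a = some b → N b = some a) : Forest N := by
  refine ⟨hs, ?_⟩
  intro a p
  induction p generalizing a with
  | nil =>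
    intro q f g hp hq hfg
    cases hp
    have := (T.wk_dist hG hN hq).1
    rw [← hfg, SimpleGraph.dist_self] at this
    exact (List.eq_nil_of_length_eq_zero this.symm).symm
  | cons i p ih =>
    intro q f g hp hq hfg
    have hp1 := (T.wk_dist hG hN hp).1
    have hq1 := (T.wk_dist hG hN hq).1
    cases hp with
    | @cons _ c _ _ _ hi hc hw =>
      cases hq with
      | nil =>
        rw [hfg, SimpleGraph.dist_self] at hp1
        simp at hp1
      | @cons _ c' _ j q hj hc' hw' =>
        have hlen : p.length = q.length := by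
          rw [hfg, hq1] at hp1
          simpa using hp1.symm
        have h1 := (T.wk_dist hG hN hw).1
        have h2 := (T.wk_dist hG hN hw').1
        have e1 := hN _ _ hc
        have e2 := hN _ _ hc'
        have a1 : G.Adj a.1 c.1 := by have := T.adj (a.1, i); rwa [e1] at this
        have a2 : G.Adj a.1 c'.1 := by have := T.adj (a.1, j); rwa [e2] at this
        have hcc : c.1 = c'.1 := by
          refine closer_unique hG f.1 a1 a2 ?_ ?_
          · rw [hp1, h1]; simp
          · rw [hp1, hfg, h2, ← hlen]; simp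
        have hij : i = j := T.inj a.1 i j (by rw [e1, e2, hcc])
        subst hij
        have : c = c' := by rw [← e1, ← e2]
        subst this
        rw [ih c q f g hw hw' hfg]

theorem forest_nof (hG : G.IsTree) (B : Finset V) (u : Dart V d → Bool) :
    Forest (T.nof B u) :=
  T.forest_of hG (fun _ _ h => (T.nof_some.mp h).2.2.2) (fun _ _ h => T.nof_symm h)

/-- repairing an edge -/
theorem addE_nof {B : Finset V} {u : Dart V d → Bool} {e : Dart V d} (he : e ∈ T.EB B) :
    addE (T.nof B u) e (T.N0 e) = T.nof B (Function.update u e true) := by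
  rw [mem_EB] at he
  funext c
  unfold addE
  by_cases h1 : c = e
  · subst h1
    rw [if_pos rfl, eq_comm, nof_some]
    exact ⟨he.1, he.2.2, by rw [he.2.1]; simp, rfl⟩
  · rw [if_neg h1]
    by_cases h2 : c = T.N0 e
    · subst h2
      rw [if_pos rfl, eq_comm, nof_some]
      refine ⟨he.2.2, by rw [T.inv]; exact he.1, ?_, T.inv e⟩
      rw [T.cd_N0, he.2.1]; simp
    · rw [if_neg h2]
      have : T.cd c ≠ e := by
        intro h
        rw [← he.2.1, cd_eq_iff] at h
        exact h.elim h1 h2
      unfold PT.nof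
      rw [Function.update_of_ne this]

theorem nof_none_of_cut {B : Finset V} {u : Dart V d → Bool} {e : Dart V d}
    (he : T.cd e = e) (hu : u e = false) :
    T.nof B u e = none ∧ T.nof B u (T.N0 e) = none := by
  constructor
  · unfold PT.nof
    rw [if_neg]
    rw [he, hu]; simp
  · unfold PT.nof
    rw [if_neg]
    rw [T.cd_N0, he, hu]; simp

end PT

end FI
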