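import Pool.Agent.H99.FI.Avg
import Pool.Agent.H99.FI.Tree

/-!
# FI: conditional expectation `EE` given the configuration on an explored set
-/

set_option autoImplicit false

namespace FI

open Finset Function
open scoped Classical

variable {V : Type*} {G : SimpleGraph V} {d : ℕ}

/-! ### functions which do not depend on some coordinates -/

/-- `F` does not depend on the coordinates in `s` -/
def NoDep (s : Finset (V ⊕ Dart V d)) (F : Cfg V d → ℝ) : Prop :=
  ∀ ω ω', Off s ω ω' → F ω' = F ω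

theorem Off.mono {s t : Finset (V ⊕ Dart V d)} (h : s ⊆ t) {ω ω' : Cfg V d} (ho : Off s ω ω') :
    Off t ω ω' :=
  ⟨fun v hv => ho.1 v fun h' => hv (h h'), fun e he => ho.2 e fun h' => he (h h')⟩

theorem Off.symm {s : Finset (V ⊕ Dart V d)} {ω ω' : Cfg V d} (ho : Off s ω ω') :
    Off s ω' ω :=
  ⟨fun v hv => (ho.1 v hv).symm, fun e he => (ho.2 e he).symm⟩

theorem Off.trans {s : Finset (V ⊕ Dart V d)} {ω ω' ω'' : Cfg V d} (h : Off s ω ω')
    (h' : Off s ω' ω'') : Off s ω ω'' :=
  ⟨fun v hv => (h'.1 v hv).trans (h.1 v hv), fun e he => (h'.2 e he).trans (h.2 e he)⟩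

theorem Off.of_upc {s : Finset (V ⊕ Dart V d)} {i : V ⊕ Dart V d} (hi : i ∈ s)
    (t : Equiv.Perm (Fin d) × Bool) (ω : Cfg V d) : Off s ω (FI.upc i t ω) := by
  refine ⟨fun v hv => ?_, fun e he => ?_⟩
  · cases i with
    | inl w =>
      have : v ≠ w := fun h' => hv (h' ▸ hi)
      simp [FI.upc, Function.update_of_ne this]
    | inr e => rfl
  · cases i with
    | inl w => rfl
    | inr f =>
      have : e ≠ f := fun h' => he (h' ▸ hi)
      simp [FI.upc, Function.update_of_ne this]

theorem NoDep.mono {s t : Finset (V ⊕ Dart V d)} (h : s ⊆ t) {F : Cfg V d → ℝ}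
    (hF : NoDep t F) : NoDep s F := fun ω ω' ho => hF ω ω' (ho.mono h)

/-- factoring out -/
theorem AV_mul_left (ε : Dart V d → ℝ) (s : Finset (V ⊕ Dart V d)) {H : Cfg V d → ℝ}
    (hH : NoDep s H) (F : Cfg V d → ℝ) (ω : Cfg V d) :
    AV ε s (fun ω => H ω * F ω) ω = H ω * AV ε s F ω := by
  have h1 : AV ε s (fun ω' => H ω' * F ω') ω = AV ε s (fun ω' => H ω * F ω') ω :=
    AV_congr_off s ω fun ω' hω' => by rw [hH ω ω' hω']
  rw [h1, AV_smul]

/-- `AV` does not depend on the averaged coordinates -/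
theorem AV_noDep (ε : Dart V d → ℝ) (s : Finset (V ⊕ Dart V d)) (F : Cfg V d → ℝ) :
    NoDep s (AV ε s F) := by
  -- one coordinate
  have key : ∀ (i : V ⊕ Dart V d) (F : Cfg V d → ℝ) (t : Equiv.Perm (Fin d) × Bool)
      (ω : Cfg V d), av1 ε i F (upc i t ω) = av1 ε i F ω := by
    intro i F t ω
    cases i with
    | inl v => simp [av1, upc]
    | inr e => simp [av1, upc]
  have key2 : ∀ i ∈ s, ∀ (t : Equiv.Perm (Fin d) × Bool) (ω : Cfg V d),
      AV ε s F (upc i t ω) = AV ε s F ω := by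
    intro i hi t ω
    rw [← Finset.insert_erase hi, AV_insert ε (Finset.notMem_erase i s)]
    exact key _ _ _ _
  -- pass from ω to ω' changing one coordinate at a time
  have key3 : ∀ (r : Finset (V ⊕ Dart V d)), r ⊆ s → ∀ ω ω', Off r ω ω' →
      AV ε s F ω' = AV ε s F ω := by
    intro r
    induction r using Finset.induction_on with
    | empty =>
      intro _ ω ω' h
      have : ω' = ω := Prod.ext (funext fun v => h.1 v (by simp)) (funext fun e => h.2 e (by simp))
      rw [this]
    | insert i r hir ih =>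
      intro hr ω ω' h
      rw [Finset.insert_subset_iff] at hr
      cases i with
      | inl v =>
        rw [← key2 _ hr.1 (ω.1 v, true) ω']
        apply ih hr.2
        refine ⟨fun w hw => ?_, fun e he => ?_⟩
        · by_cases hwv : w = v
          · subst hwv; simp [upc]
          · simp only [upc, Function.update_of_ne hwv]
            exact h.1 w (by simp [hwv, hw])
        · simp only [upc]
          exact h.2 e (by simp [he])
      | inr e =>
        rw [← key2 _ hr.1 (1, ω.2 e) ω']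
        apply ih hr.2
        refine ⟨fun w hw => ?_, fun f hf => ?_⟩
        · simp only [upc]
          exact h.1 w (by simp [hw])
        · by_cases hfe : f = e
          · subst hfe; simp [upc]
          · simp only [upc, Function.update_of_ne hfe]
            exact h.2 f (by simp [hfe, hf])
  exact key3 s (Finset.Subset.refl s)

/-! ### the conditional expectation -/

namespace PT

variable (T : PT G d)

/-- coordinates of the volume `B` which are not determined by the explored set `A` -/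
noncomputable def cA (B A : Finset V) : Finset (V ⊕ Dart V d) :=
  (B \ A).image Sum.inl ∪ (T.EB B \ T.EB A).image Sum.inr

/-- `EE ε B A F ω`: expectation of `F` under the exact law in the volume `B`, given the
configuration `ω` on `A` (states on `A`, statuses of the edges inside `A`). -/
noncomputable def EE (ε : Dart V d → ℝ) (B A : Finset V) (F : Cfg V d → ℝ) : Cfg V d → ℝ :=
  AV ε (T.cA B A) (fun ω => (∏ e ∈ T.EB B \ T.EB A, T.zw e ω) * F ω)

variable {T}

theorem mem_cA_inl {B A : Finset V} {v : V} :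
    Sum.inl v ∈ T.cA B A ↔ v ∈ B ∧ v ∉ A := by simp [cA]

theorem mem_cA_inr {B A : Finset V} {e : Dart V d} :
    Sum.inr e ∈ T.cA B A ↔ e ∈ T.EB B ∧ e ∉ T.EB A := by simp [cA]

theorem zw_nonneg (e : Dart V d) (ω : Cfg V d) : 0 ≤ T.zw e ω := by
  unfold PT.zw
  split_ifs <;> positivity

theorem zwprod_nonneg (s : Finset (Dart V d)) (ω : Cfg V d) : 0 ≤ ∏ e ∈ s, T.zw e ω :=
  Finset.prod_nonneg fun e _ => zw_nonneg e ω

variable (ε : Dart V d → ℝ) (B A : Finset V)

theorem EE_noDep (F : Cfg V d → ℝ) : NoDep (T.cA B A) (T.EE ε B A F) := AV_noDep _ _ _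

theorem EE_add (F F' : Cfg V d → ℝ) :
    T.EE ε B A (fun ω => F ω + F' ω) = fun ω => T.EE ε B A F ω + T.EE ε B A F' ω := by
  unfold EE
  rw [← AV_add]
  simp only [mul_add]

theorem EE_smul (c : ℝ) (F : Cfg V d → ℝ) :
    T.EE ε B A (fun ω => c * F ω) = fun ω => c * T.EE ε B A F ω := by
  unfold EE
  rw [← AV_smul]
  congr 1
  funext ω
  ring

theorem EE_sum {κ : Type*} (t : Finset κ) (F : κ → Cfg V d → ℝ) :
    T.EE ε B A (fun ω => ∑ k ∈ t, F k ω) = fun ω => ∑ k ∈ t, T.EE ε B A (F k) ω := by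
  unfold EE
  rw [← AV_sum]
  simp only [Finset.mul_sum]

theorem EE_zero : T.EE ε B A (fun _ => 0) = fun _ => 0 := by
  have := EE_smul (T := T) ε B A 0 (fun _ => 0)
  simpa using this

theorem EE_mul_left {H : Cfg V d → ℝ} (hH : NoDep (T.cA B A) H) (F : Cfg V d → ℝ)
    (ω : Cfg V d) : T.EE ε B A (fun ω => H ω * F ω) ω = H ω * T.EE ε B A F ω := by
  unfold EE
  rw [← AV_mul_left ε _ hH]
  congr 1
  funext ω
  ring

variable {ε}

theorem EE_nonneg (hε : WOK ε) {F : Cfg V d → ℝ} (h : ∀ ω, 0 ≤ F ω) (ω : Cfg V d) :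
    0 ≤ T.EE ε B A F ω :=
  AV_nonneg hε _ (fun ω => mul_nonneg (zwprod_nonneg _ _) (h ω)) ω

theorem EE_mono_off (hε : WOK ε) {F F' : Cfg V d → ℝ} (ω : Cfg V d)
    (h : ∀ ω', Off (T.cA B A) ω ω' → F ω' ≤ F' ω') : T.EE ε B A F ω ≤ T.EE ε B A F' ω :=
  AV_mono_off hε _ ω fun ω' hω' => mul_le_mul_of_nonneg_left (h ω' hω') (zwprod_nonneg _ _)

theorem EE_mono (hε : WOK ε) {F F' : Cfg V d → ℝ} (h : ∀ ω, F ω ≤ F' ω) (ω : Cfg V d) :
    T.EE ε B A F ω ≤ T.EE ε B A F' ω :=
  EE_mono_off B A hε ω fun ω' _ => h ω'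

/-- only consistent configurations (on the edges not inside `A`) matter -/
theorem EE_mono_cons (hε : WOK ε) {F F' : Cfg V d → ℝ} (ω : Cfg V d)
    (h : ∀ ω', Off (T.cA B A) ω ω' →
      (∀ e ∈ T.EB B, e ∉ T.EB A → ω'.2 e = true → col ω'.1 e = col ω'.1 (T.N0 e)) →
      F ω' ≤ F' ω') : T.EE ε B A F ω ≤ T.EE ε B A F' ω := by
  refine AV_mono_off hε _ ω fun ω' hω' => ?_
  by_cases hc : ∀ e ∈ T.EB B, e ∉ T.EB A → ω'.2 e = true → col ω'.1 e = col ω'.1 (T.N0 e)
  · exact mul_le_mul_of_nonneg_left (h ω' hω' hc) (zwprod_nonneg _ _)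
  · push Not at hc
    obtain ⟨e, he, he', hu, hne⟩ := hc
    have : ∏ e ∈ T.EB B \ T.EB A, T.zw e ω' = 0 := by
      apply Finset.prod_eq_zero (Finset.mem_sdiff.mpr ⟨he, he'⟩)
      unfold PT.zw
      rw [if_pos hu, if_neg hne]
    rw [this]
    simp

theorem EE_congr_cons (ε : Dart V d → ℝ) {F F' : Cfg V d → ℝ} (ω : Cfg V d)
    (h : ∀ ω', Off (T.cA B A) ω ω' →
      (∀ e ∈ T.EB B, e ∉ T.EB A → ω'.2 e = true → col ω'.1 e = col ω'.1 (T.N0 e)) →
      F ω' = F' ω') : T.EE ε B A F ω = T.EE ε B A F' ω := by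
  refine AV_congr_off _ ω fun ω' hω' => ?_
  by_cases hc : ∀ e ∈ T.EB B, e ∉ T.EB A → ω'.2 e = true → col ω'.1 e = col ω'.1 (T.N0 e)
  · rw [h ω' hω' hc]
  · push Not at hc
    obtain ⟨e, he, he', hu, hne⟩ := hc
    have : ∏ e ∈ T.EB B \ T.EB A, T.zw e ω' = 0 := by
      apply Finset.prod_eq_zero (Finset.mem_sdiff.mpr ⟨he, he'⟩)
      unfold PT.zw
      rw [if_pos hu, if_neg hne]
    rw [this]
    simp

theorem cA_self (A : Finset V) : T.cA A A = ∅ := by simp [cA]

theorem cA_of_subset {A B : Finset V} (h : B ⊆ A) : T.cA B A = ∅ := by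
  unfold cA
  rw [Finset.sdiff_eq_empty_iff_subset.mpr h, Finset.sdiff_eq_empty_iff_subset.mpr (T.EB_mono h)]
  simp

theorem EE_self (ε : Dart V d → ℝ) {A B : Finset V} (h : B ⊆ A) (F : Cfg V d → ℝ) :
    T.EE ε B A F = F := by
  unfold EE
  rw [cA_of_subset h, Finset.sdiff_eq_empty_iff_subset.mpr (T.EB_mono h)]
  simp

/-- the dart structure at a boundary vertex of a closed set -/
theorem EB_insert (hG : G.IsTree) {r : V} {A : Finset V} (hA : Clo G r A) {a : Dart V d}
    (ha : a.1 ∈ A) (hw : (T.N0 a).1 ∉ A) :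
    T.EB (insert (T.N0 a).1 A) = insert (T.cd a) (T.EB A) := by
  ext c
  rw [Finset.mem_insert, T.mem_EB, T.mem_EB, Finset.mem_insert, Finset.mem_insert]
  constructor
  · rintro ⟨h1, h2, h3⟩
    rcases h1 with h1 | h1 <;> rcases h3 with h3 | h3
    · exact absurd (h3.trans h1.symm) (T.N0_ne c)
    · left
      -- c.1 = w, (N0 c).1 ∈ A, so (N0 c).1 = a.1, c = N0 a
      have h4 : (T.N0 c).1 = a.1 := by
        refine hA.nbr_unique hG h3 ha hw ?_ (T.adj a).symm
        rw [← h1]; exact T.adj c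
      have h5 : c = T.N0 a := T.eq_of_nb h1 (by rw [T.inv]; exact h4)
      rw [← h2, h5, T.cd_N0]
    · left
      have h4 : c.1 = a.1 := by
        refine hA.nbr_unique hG h1 ha hw ?_ (T.adj a).symm
        rw [← h3]; exact (T.adj c).symm
      have h5 : c = a := T.eq_of_nb h4 h3
      rw [← h2, h5]
    · exact Or.inr ⟨h1, h2, h3⟩
  · rintro (rfl | ⟨h1, h2, h3⟩)
    · refine ⟨?_, T.cd_cd a, ?_⟩
      · rcases T.cd_cases a with h | h <;> rw [h]
        · exact Or.inr ha
        · exact Or.inl rfl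
      · rcases T.cd_cases a with h | h <;> rw [h]
        · exact Or.inl rfl
        · rw [T.inv]; exact Or.inr ha
    · exact ⟨Or.inr h1, h2, Or.inr h3⟩

theorem cd_notMem_EB {A : Finset V} {a : Dart V d} (hw : (T.N0 a).1 ∉ A) :
    T.cd a ∉ T.EB A := by
  rw [T.mem_EB]
  rintro ⟨h1, _, h3⟩
  rcases T.cd_cases a with h | h
  · rw [h] at h3; exact hw h3
  · rw [h] at h1; exact hw h1

/-- EX1, operator form: revealing one more vertex. -/
theorem EE_step (ε : Dart V d → ℝ) (hG : G.IsTree) {r : V} {A B : Finset V} (hA : Clo G r A)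
    (hAB : A ⊆ B) {a : Dart V d} (ha : a.1 ∈ A) (hw : (T.N0 a).1 ∉ A) (hwB : (T.N0 a).1 ∈ B)
    (F : Cfg V d → ℝ) (ω : Cfg V d) :
    T.EE ε B A F ω = av1 ε (.inl (T.N0 a).1) (av1 ε (.inr (T.cd a))
      (fun ω => T.zw (T.cd a) ω * T.EE ε B (insert (T.N0 a).1 A) F ω)) ω := by
  set w := (T.N0 a).1 with hwdef
  set e := T.cd a with hedef
  have hEB : T.EB (insert w A) = insert e (T.EB A) := EB_insert hG hA ha hw
  have heA : e ∉ T.EB A := cd_notMem_EB hw
  have heB : e ∈ T.EB B := T.cd_mem_EB (hAB ha) hwB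
  have h1 : T.EB B \ T.EB A = insert e (T.EB B \ T.EB (insert w A)) := by
    rw [hEB]
    ext c
    simp only [Finset.mem_sdiff, Finset.mem_insert, not_or]
    constructor
    · rintro ⟨h1, h2⟩
      by_cases hc : c = e
      · exact Or.inl hc
      · exact Or.inr ⟨h1, hc, h2⟩
    · rintro (rfl | ⟨h1, _, h2⟩)
      · exact ⟨heB, heA⟩
      · exact ⟨h1, h2⟩
  have h2 : T.cA B A = insert (Sum.inl w) (insert (Sum.inr e) (T.cA B (insert w A))) := by
    ext c
    cases c with
    | inl v =>
      simp only [mem_cA_inl, Finset.mem_insert, Sum.inl.injEq, reduceCtorEq, false_or, not_or]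
      constructor
      · rintro ⟨h1, h2⟩
        by_cases hv : v = w
        · exact Or.inl hv
        · exact Or.inr ⟨h1, hv, h2⟩
      · rintro (rfl | ⟨h1, _, h2⟩)
        · exact ⟨hwB, hw⟩
        · exact ⟨h1, h2⟩
    | inr c =>
      have := Finset.ext_iff.mp h1 c
      simp only [Finset.mem_sdiff, Finset.mem_insert] at this
      simp only [mem_cA_inr, Finset.mem_insert, Sum.inr.injEq, reduceCtorEq, false_or]
      exact this
  have h3 : Sum.inr e ∉ T.cA B (insert w A) := by
    rw [mem_cA_inr, hEB]; simp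
  have h4 : Sum.inl w ∉ insert (Sum.inr e) (T.cA B (insert w A)) := by
    simp [mem_cA_inl]
  have h5 : e ∉ T.EB B \ T.EB (insert w A) := by rw [hEB]; simp
  unfold EE
  rw [h2, AV_insert ε h4, AV_insert ε h3, h1]
  congr 2
  funext ω
  rw [← AV_mul_left]
  · congr 1
    funext ω
    rw [Finset.prod_insert h5]
    ring
  · intro ω ω' ho
    have hx : ∀ v ∈ insert w A, ω'.1 v = ω.1 v := fun v hv =>
      ho.1 v (by rw [mem_cA_inl]; exact fun h => h.2 hv)
    have hu : ω'.2 e = ω.2 e := ho.2 e (by rw [mem_cA_inr, hEB]; simp)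
    have he1 : e.1 ∈ insert w A := by
      rcases T.cd_cases a with h | h <;> rw [hedef, h]
      · exact Finset.mem_insert_of_mem ha
      · exact Finset.mem_insert_self _ _
    have he2 : (T.N0 e).1 ∈ insert w A := by
      rcases T.cd_cases a with h | h <;> rw [hedef, h]
      · exact Finset.mem_insert_self _ _
      · rw [T.inv]; exact Finset.mem_insert_of_mem ha
    unfold PT.zw col
    rw [hu, hx _ he1, hx _ he2]

theorem zw_cd (a : Dart V d) (ω : Cfg V d) :
    T.zw (T.cd a) ω =
      if ω.2 (T.cd a) = true then (if col ω.1 a = col ω.1 (T.N0 a) then (d : ℝ) else 0) else 1 := by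
  unfold PT.zw
  rcases T.cd_cases a with h | h
  · rw [h]
  · rw [h, T.inv]
    congr 1
    simp only [eq_comm]

/-- EX1, explicit form -/
theorem EE_step' (ε : Dart V d → ℝ) (hG : G.IsTree) {r : V} {A B : Finset V} (hA : Clo G r A)
    (hAB : A ⊆ B) {a : Dart V d} (ha : a.1 ∈ A) (hw : (T.N0 a).1 ∉ A) (hwB : (T.N0 a).1 ∈ B)
    (F : Cfg V d → ℝ) (ω : Cfg V d) :
    T.EE ε B A F ω = (1 / (d.factorial : ℝ)) * ∑ σ : Equiv.Perm (Fin d),
      ((1 - ε (T.cd a)) * ((if col ω.1 a = σ (T.N0 a).2 then (d : ℝ) else 0) *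
        T.EE ε B (insert (T.N0 a).1 A) F
          (Function.update ω.1 (T.N0 a).1 σ, Function.update ω.2 (T.cd a) true)) +
      ε (T.cd a) * T.EE ε B (insert (T.N0 a).1 A) F
          (Function.update ω.1 (T.N0 a).1 σ, Function.update ω.2 (T.cd a) false)) := by
  rw [EE_step ε hG hA hAB ha hw hwB]
  simp only [av1, zw_cd]
  congr 1
  refine Finset.sum_congr rfl fun σ _ => ?_
  have hne : a.1 ≠ (T.N0 a).1 := fun h => hw (h ▸ ha)
  have e1 : col (Function.update ω.1 (T.N0 a).1 σ) a = col ω.1 a := by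
    unfold col; rw [Function.update_of_ne hne]
  have e2 : col (Function.update ω.1 (T.N0 a).1 σ) (T.N0 a) = σ (T.N0 a).2 := by
    unfold col; rw [Function.update_self]
  simp [e1, e2]

/-- number of permutations with one prescribed value -/
theorem card_perm_apply (hd : 1 ≤ d) (j k : Fin d) :
    (Finset.univ.filter fun σ : Equiv.Perm (Fin d) => σ j = k).card = (d - 1).factorial := by
  have hpart : ∀ k' : Fin d,
      (Finset.univ.filter fun σ : Equiv.Perm (Fin d) => σ j = k').card =
      (Finset.univ.filter fun σ : Equiv.Perm (Fin d) => σ j = k).card := by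
    intro k'
    refine Finset.card_bij (fun σ _ => Equiv.swap k k' * σ) ?_ ?_ ?_
    · intro σ hσ
      simp only [Finset.mem_filter, Finset.mem_univ, true_and] at hσ ⊢
      simp [hσ]
    · intro σ _ σ' _ h
      exact mul_left_cancel h
    · intro σ hσ
      simp only [Finset.mem_filter, Finset.mem_univ, true_and] at hσ
      refine ⟨Equiv.swap k k' * σ, ?_, ?_⟩
      · simp [hσ]
      · rw [← mul_assoc, Equiv.swap_mul_self, one_mul]
  have htot : ∑ k' : Fin d,
      (Finset.univ.filter fun σ : Equiv.Perm (Fin d) => σ j = k').card = d.factorial := by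
    rw [← Finset.card_eq_sum_card_fiberwise (f := fun σ : Equiv.Perm (Fin d) => σ j)
      (s := Finset.univ) (t := Finset.univ) (by intro _ _; simp)]
    rw [Finset.card_univ, Fintype.card_perm, Fintype.card_fin]
  rw [Finset.sum_congr rfl fun k' _ => hpart k', Finset.sum_const, Finset.card_univ,
    Fintype.card_fin, smul_eq_mul] at htot
  have : d * (d - 1).factorial = d.factorial := Nat.mul_factorial_pred (by omega)
  rw [← this] at htot
  exact Nat.eq_of_mul_eq_mul_left (by omega) htot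

theorem avg_match (hd : 1 ≤ d) (j k : Fin d) :
    (1 / (d.factorial : ℝ)) * ∑ σ : Equiv.Perm (Fin d), (if k = σ j then (d : ℝ) else 0) = 1 := by
  rw [← Finset.sum_filter, Finset.sum_const]
  have : (Finset.univ.filter fun σ : Equiv.Perm (Fin d) => k = σ j).card = (d - 1).factorial := by
    rw [← card_perm_apply hd j k]
    congr 1
    ext σ
    simp [eq_comm]
  rw [this, nsmul_eq_mul]
  have h2 : d * (d - 1).factorial = d.factorial := Nat.mul_factorial_pred (by omega)
  have h3 : ((d : ℝ) * ((d - 1).factorial : ℝ)) = (d.factorial : ℝ) := by exact_mod_cast h2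
  have h4 : (d.factorial : ℝ) ≠ 0 := by positivity
  rw [← h3] at h4 ⊢
  field_simp

/-- P0: total mass one -/
theorem EE_one (hG : G.IsTree) (hd : 1 ≤ d) (ε : Dart V d → ℝ) {r : V} {A B : Finset V}
    (hA : Clo G r A) (hB : Clo G r B) (hAB : A ⊆ B) (ω : Cfg V d) :
    T.EE ε B A (fun _ => 1) ω = 1 := by
  induction hn : (B \ A).card using Nat.strong_induction_on generalizing A ω with
  | _ n ih =>
    by_cases hBA : B ⊆ A
    · rw [EE_self ε hBA]
    · obtain ⟨w, hwB, hwA, v, hv, hadj⟩ := Clo.grow hG hA hB hBA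
      obtain ⟨i, hi⟩ := T.surj v w hadj.symm
      have hw' : (T.N0 (v, i)).1 = w := hi
      have hlt : (B \ insert w A).card < n := by
        rw [← hn]
        apply Finset.card_lt_card
        rw [Finset.ssubset_iff_of_subset]
        · exact ⟨w, by simp [hwB, hwA], by simp⟩
        · intro c hc
          simp only [Finset.mem_sdiff, Finset.mem_insert, not_or] at hc ⊢
          exact ⟨hc.1, hc.2.2⟩
      have hcl : Clo G r (insert w A) := hA.insert hG hv hadj
      have hsub : insert w A ⊆ B := Finset.insert_subset hwB hAB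
      rw [EE_step' ε hG hA hAB (a := (v, i)) hv (by rw [hw']; exact hwA) (by rw [hw']; exact hwB)]
      rw [hw']
      have hone : ∀ ω', T.EE ε B (insert w A) (fun _ => 1) ω' = 1 :=
        fun ω' => ih _ hlt hcl hsub ω' rfl
      simp only [hone, mul_one]
      rw [Finset.sum_add_distrib, ← Finset.mul_sum, mul_add, mul_left_comm, avg_match hd]
      simp only [Finset.sum_const, Finset.card_univ, Fintype.card_perm, Fintype.card_fin,
        nsmul_eq_mul]
      field_simp
      ring

theorem EE_const (hG : G.IsTree) (hd : 1 ≤ d) (ε : Dart V d → ℝ) {r : V} {A B : Finset V}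
    (hA : Clo G r A) (hB : Clo G r B) (hAB : A ⊆ B) (c : ℝ) (ω : Cfg V d) :
    T.EE ε B A (fun _ => c) ω = c := by
  have h := congrFun (EE_smul (T := T) ε B A c (fun _ => 1)) ω
  simp only [mul_one] at h
  rw [h, EE_one hG hd ε hA hB hAB, mul_one]

/-- functions determined by the explored set are constants -/
theorem EE_of_noDep (hG : G.IsTree) (hd : 1 ≤ d) (ε : Dart V d → ℝ) {r : V} {A B : Finset V}
    (hA : Clo G r A) (hB : Clo G r B) (hAB : A ⊆ B) {F : Cfg V d → ℝ}
    (hF : NoDep (T.cA B A) F) (ω : Cfg V d) : T.EE ε B A F ω = F ω := by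
  have h := EE_mul_left (T := T) ε B A hF (fun _ => 1) ω
  simp only [mul_one] at h
  rw [h, EE_one hG hd ε hA hB hAB, mul_one]

/-- tower property -/
theorem EE_tower (hG : G.IsTree) (hd : 1 ≤ d) (ε : Dart V d → ℝ) {r : V} {A A' B : Finset V}
    (hA : Clo G r A) (hA' : Clo G r A') (hB : Clo G r B) (hAA : A ⊆ A') (hAB : A' ⊆ B)
    (F : Cfg V d → ℝ) (ω : Cfg V d) :
    T.EE ε B A (T.EE ε B A' F) ω = T.EE ε B A F ω := by
  induction hn : (A' \ A).card using Nat.strong_induction_on generalizing A ω with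
  | _ n ih =>
    by_cases hBA : A' ⊆ A
    · have : A = A' := Finset.Subset.antisymm hAA hBA
      subst this
      exact EE_of_noDep hG hd ε hA hB hAB (EE_noDep ε B A F) ω
    · obtain ⟨w, hwB, hwA, v, hv, hadj⟩ := Clo.grow hG hA hA' hBA
      obtain ⟨i, hi⟩ := T.surj v w hadj.symm
      have hw' : (T.N0 (v, i)).1 = w := hi
      have hlt : (A' \ insert w A).card < n := by
        rw [← hn]
        apply Finset.card_lt_card
        rw [Finset.ssubset_iff_of_subset]
        · exact ⟨w, by simp [hwB, hwA], by simp⟩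
        · intro c hc
          simp only [Finset.mem_sdiff, Finset.mem_insert, not_or] at hc ⊢
          exact ⟨hc.1, hc.2.2⟩
      have hcl : Clo G r (insert w A) := hA.insert hG hv hadj
      have hsub : insert w A ⊆ A' := Finset.insert_subset hwB hAA
      have hAB0 : A ⊆ B := hAA.trans hAB
      have a1 : (T.N0 (v, i)).1 ∉ A := by rw [hw']; exact hwA
      have a2 : (T.N0 (v, i)).1 ∈ B := by rw [hw']; exact hAB hwB
      rw [EE_step' ε hG hA hAB0 (a := (v, i)) hv a1 a2,
        EE_step' ε hG hA hAB0 (a := (v, i)) hv a1 a2, hw']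
      congr 1
      refine Finset.sum_congr rfl fun σ _ => ?_
      rw [ih _ hlt hcl hsub _ rfl, ih _ hlt hcl hsub _ rfl]

/-- the first vertex of the exploration -/
theorem EE_root (ε : Dart V d → ℝ) {r : V} {B : Finset V} (hr : r ∈ B)
    (F : Cfg V d → ℝ) (ω : Cfg V d) :
    T.EE ε B ∅ F ω = (1 / (d.factorial : ℝ)) * ∑ σ : Equiv.Perm (Fin d),
      T.EE ε B {r} F (Function.update ω.1 r σ, ω.2) := by
  have h0 : T.EB {r} = ∅ := by
    ext c
    simp only [T.mem_EB, Finset.mem_singleton, Finset.notMem_empty, iff_false]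
    rintro ⟨h1, _, h3⟩
    exact T.N0_ne c (h3.trans h1.symm)
  have h1 : T.EB (∅ : Finset V) = ∅ := by
    ext c; simp [T.mem_EB]
  have h2 : T.cA B ∅ = insert (Sum.inl r) (T.cA B {r}) := by
    ext c
    cases c with
    | inl v =>
      simp only [mem_cA_inl, Finset.mem_insert, Sum.inl.injEq, Finset.mem_singleton,
        Finset.notMem_empty, not_false_eq_true, and_true]
      constructor
      · intro h
        by_cases hv : v = r
        · exact Or.inl hv
        · exact Or.inr ⟨h, hv⟩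
      · rintro (rfl | ⟨h, _⟩)
        · exact hr
        · exact h
    | inr c => simp [mem_cA_inr, h0, h1]
  have h3 : Sum.inl r ∉ T.cA B {r} := by simp [mem_cA_inl]
  unfold EE
  rw [h2, AV_insert ε h3, h0, h1]
  rfl

end PT

end FI
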