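import Pool.Agent.H99.FI.Exact.Count
import Pool.Agent.H99.FI.Loc.Main

/-!
# FI: the exact law is preserved by the repairs
-/

set_option autoImplicit false

namespace FI

open Finset Function
open scoped Classical

variable {V : Type*} {G : SimpleGraph V} {d : ℕ}

/-- states agreeing with `x₀` off `s` -/
noncomputable def XS (s : Finset V) (x₀ : St V d) : Finset (St V d) :=
  (Finset.univ : Finset (s → Equiv.Perm (Fin d))).image
    (fun t v => if h : v ∈ s then t ⟨v, h⟩ else x₀ v)

theorem mem_XS {s : Finset V} {x₀ x : St V d} : x ∈ XS s x₀ ↔ ∀ v, v ∉ s → x v = x₀ v := by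
  unfold XS
  rw [Finset.mem_image]
  constructor
  · rintro ⟨t, _, rfl⟩ v hv
    simp [hv]
  · intro h
    refine ⟨fun v => x v.1, Finset.mem_univ _, ?_⟩
    funext v
    by_cases hv : v ∈ s
    · simp [hv]
    · simp [hv, h v hv]

theorem XS_empty (x₀ : St V d) : XS ∅ x₀ = {x₀} := by
  ext x
  rw [mem_XS, Finset.mem_singleton]
  constructor
  · intro h; exact funext fun v => h v (by simp)
  · rintro rfl v _; rfl

theorem AV_inl (ε : Dart V d → ℝ) (s : Finset V) (F : Cfg V d → ℝ) (ω : Cfg V d) :
    AV ε (s.image Sum.inl) F ω =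
      (1 / (d.factorial : ℝ)) ^ s.card * ∑ x ∈ XS s ω.1, F (x, ω.2) := by
  induction s using Finset.induction_on generalizing ω with
  | empty => simp [XS_empty]
  | insert v s hv ih =>
    have h1 : Sum.inl v ∉ s.image (Sum.inl : V → V ⊕ Dart V d) := by simpa using hv
    rw [Finset.image_insert, AV_insert ε h1]
    simp only [av1]
    rw [Finset.card_insert_of_notMem hv, pow_succ']
    rw [mul_assoc]
    congr 1
    simp only [ih]
    rw [← Finset.mul_sum]
    congr 1
    rw [← Finset.sum_fiberwise (XS (insert v s) ω.1) (fun x => x v)]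
    refine Finset.sum_congr rfl fun σ _ => ?_
    refine Finset.sum_congr ?_ fun _ _ => rfl
    ext x
    rw [mem_XS, Finset.mem_filter, mem_XS]
    constructor
    · intro h
      refine ⟨fun w hw => ?_, ?_⟩
      · rw [Finset.mem_insert, not_or] at hw
        rw [h w hw.2, Function.update_of_ne hw.1]
      · rw [h v hv, Function.update_self]
    · rintro ⟨h2, h3⟩ w hw
      by_cases hwv : w = v
      · subst hwv; rw [h3, Function.update_self]
      · rw [Function.update_of_ne hwv]
        exact h2 w (by simp [hwv, hw])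

namespace PT

variable (T : PT G d)

/-- consistency on a set of canonical darts -/
def ConsOn (s : Finset (Dart V d)) (ω : Cfg V d) : Prop :=
  ∀ c ∈ s, ω.2 c = true → col ω.1 c = col ω.1 (T.N0 c)

variable {T}

theorem cons_iff {B : Finset V} {ω : Cfg V d} :
    Cons (T.nof B ω.2) ω.1 ↔ T.ConsOn (T.EB B) ω := by
  constructor
  · intro h c hc hu
    rw [T.mem_EB] at hc
    exact h c (T.N0 c) (T.nof_some.mpr ⟨hc.1, hc.2.2, by rw [hc.2.1]; exact hu, rfl⟩)
  · intro h a b hab
    rw [T.nof_some] at hab
    obtain ⟨h1, h2, h3, rfl⟩ := hab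
    have := h (T.cd a) (T.cd_mem_EB h1 h2) h3
    rcases T.cd_cases a with h4 | h4
    · rw [h4] at this; exact this
    · rw [h4, T.inv] at this; exact this.symm

theorem prod_zw (s : Finset (Dart V d)) (ω : Cfg V d) :
    ∏ c ∈ s, T.zw c ω =
      if T.ConsOn s ω then (d : ℝ) ^ (s.filter fun c => ω.2 c = true).card else 0 := by
  split_ifs with h
  · have : ∀ c ∈ s, T.zw c ω = if ω.2 c = true then (d : ℝ) else 1 := by
      intro c hc
      unfold PT.zw
      by_cases hu : ω.2 c = true
      · rw [if_pos hu, if_pos hu, if_pos (h c hc hu)]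
      · rw [if_neg hu, if_neg hu]
    rw [Finset.prod_congr rfl this, Finset.prod_ite, Finset.prod_const, Finset.prod_const_one,
      mul_one]
  · unfold ConsOn at h
    push Not at h
    obtain ⟨c, hc, hu, hne⟩ := h
    apply Finset.prod_eq_zero hc
    unfold PT.zw
    rw [if_pos hu, if_neg hne]

/-- the average over the states, for fixed statuses -/
noncomputable def AX (T : PT G d) (B A : Finset V) (F : Cfg V d → ℝ) (ω : Cfg V d) : ℝ :=
  AV (fun _ => 0) ((B \ A).image Sum.inl)
    (fun ω => (∏ c ∈ T.EB B \ T.EB A, T.zw c ω) * F ω) ω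

theorem AV_inl_eps (ε ε' : Dart V d → ℝ) (s : Finset V) (F : Cfg V d → ℝ) :
    AV ε (s.image Sum.inl) F = AV ε' (s.image Sum.inl) F := by
  funext ω
  rw [AV_inl, AV_inl]

theorem AX_eq (B A : Finset V) (F : Cfg V d → ℝ) (ω : Cfg V d) :
    T.AX B A F ω = (1 / (d.factorial : ℝ)) ^ (B \ A).card *
      (d : ℝ) ^ ((T.EB B \ T.EB A).filter fun c => ω.2 c = true).card *
      ∑ x ∈ (XS (B \ A) ω.1).filter (fun x => T.ConsOn (T.EB B \ T.EB A) (x, ω.2)),
        F (x, ω.2) := by
  unfold AX
  rw [AV_inl, mul_assoc]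
  congr 1
  rw [Finset.sum_filter, Finset.mul_sum]
  refine Finset.sum_congr rfl fun x _ => ?_
  rw [prod_zw]
  simp only
  split_ifs <;> simp

/-- splitting off the status of the edge `e` -/
theorem EE_split (ε : Dart V d → ℝ) (B A : Finset V) {e : Dart V d} (he : e ∈ T.EB B)
    (heA : e ∉ T.EB A) (F : Cfg V d → ℝ) (ω : Cfg V d) :
    T.EE ε B A F ω = AV ε (((T.EB B \ T.EB A).erase e).image Sum.inr) (fun ω =>
      (1 - ε e) * T.AX B A F (ω.1, Function.update ω.2 e true) +
      ε e * T.AX B A F (ω.1, Function.update ω.2 e false)) ω := by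
  have h1 : T.cA B A = ((T.EB B \ T.EB A).erase e).image Sum.inr ∪
      ({Sum.inr e} ∪ (B \ A).image Sum.inl) := by
    ext c
    cases c with
    | inl v => simp [mem_cA_inl]
    | inr c =>
      simp only [mem_cA_inr, Finset.mem_union, Finset.mem_image, Finset.mem_erase,
        Finset.mem_sdiff, Sum.inr.injEq, exists_eq_right, Finset.mem_singleton, reduceCtorEq,
        and_false, exists_false, or_false]
      constructor
      · rintro ⟨h1, h2⟩
        by_cases hce : c = e
        · exact Or.inr hce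
        · exact Or.inl ⟨hce, h1, h2⟩
      · rintro (⟨_, h1, h2⟩ | rfl)
        · exact ⟨h1, h2⟩
        · exact ⟨he, heA⟩
  unfold EE
  rw [h1, AV_union, AV_union, AV_singleton]
  · congr 1
    funext ω
    simp only [av1]
    unfold AX
    rw [AV_inl_eps ε (fun _ => 0)]
  · rw [Finset.disjoint_left]
    intro c hc hc'
    simp only [Finset.mem_singleton] at hc
    subst hc
    simp at hc'
  · rw [Finset.disjoint_left]
    intro c hc hc'
    simp only [Finset.mem_image, Finset.mem_erase] at hc
    obtain ⟨a, ⟨ha, _⟩, rfl⟩ := hc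
    simp only [Finset.mem_union, Finset.mem_singleton, Sum.inr.injEq] at hc'
    rcases hc' with hc' | hc'
    · exact ha hc'
    · simp at hc'

theorem pos_mem {B : Finset V} {u : Dart V d → Bool} {x : St V d} {τ : Equiv.Perm (Fin d)}
    {a : Dart V d} (ha : a.1 ∈ B) (n : ℕ) (f : Dart V d)
    (h : pos (T.nof B u) x τ a n = some f) : f.1 ∈ B := by
  cases n with
  | zero =>
    simp only [pos, Option.some.injEq] at h
    rwa [← h]
  | succ n =>
    simp only [pos, Option.bind_eq_some_iff] at h
    obtain ⟨g, _, hg⟩ := h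
    unfold nx at hg
    have := T.nof_some.mp hg
    rw [← this.2.2.2]
    exact this.2.1

theorem cov_self (P : Par) {B : Finset V} {e : Dart V d} (he : e ∈ T.EB B) (ω : Cfg V d) :
    T.Cov P B e B ω :=
  ⟨fun v hv _ => hv, fun n f h => ⟨pos_mem (T.mem_EB.mp he).2.2 n f h, fun h => h⟩⟩

/-- the repair does not change anything outside of the volume -/
theorem kern_off_vol [NeZero d] (hd : 3 ≤ d) (hG : G.IsTree) (P : Par) {B : Finset V}
    {e : Dart V d} (he : e ∈ T.EB B) (ω : Cfg V d) (hcut : ω.2 e = false)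
    (hc : Cons (T.nof B ω.2) ω.1) (ξ : ℕ) {v : V} (hv : v ∉ B) :
    kern P (T.nof B ω.2) ω.1 ξ e (T.N0 e) v = ω.1 v :=
  (kern_off hd hG T P B B (Finset.Subset.refl B) e he ω hcut hc (cov_self P he ω) ξ).1 v hv

theorem exact_nof [NeZero d] (hd : 3 ≤ d) (hG : G.IsTree) (P : Par)
    {B : Finset V} {e : Dart V d} (he : e ∈ T.EB B) (u : Dart V d → Bool) (hu : u e = false)
    (x₀ : St V d) (F : St V d → ℝ) :
    ∑ x ∈ (XS B x₀).filter (fun x => Cons (T.nof B u) x), ∑ ξ ∈ range P.K,
      F (kern P (T.nof B u) x ξ e (T.N0 e)) =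
      (P.K : ℝ) * d * ∑ y ∈ (XS B x₀).filter (fun y => Cons (T.nof B (Function.update u e true)) y),
        F y := by
  have heC := T.mem_EB.mp he
  have hnone := T.nof_none_of_cut (B := B) heC.2.1 hu
  have := kern_exact hd P (T.nof B u) e (T.N0 e) (fun _ _ h => T.nof_symm h)
    (by rw [T.addE_nof he]; exact T.forest_nof hG B _) hnone.1 hnone.2
    (fun h => T.N0_ne e (by rw [← h])) B
    (fun c hc => by
      obtain ⟨b, hb⟩ := Option.ne_none_iff_exists'.mp hc
      exact (T.nof_some.mp hb).1)
    heC.1 heC.2.2 (XS B x₀)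
    (fun x hx y hy => by
      rw [mem_XS] at hx ⊢
      intro v hv
      rw [hy v hv, hx v hv]) F
  rw [T.addE_nof he] at this
  exact this

theorem filter_card_update {B A : Finset V} {e : Dart V d} (he : e ∈ T.EB B)
    (heA : e ∉ T.EB A) (u : Dart V d → Bool) :
    ((T.EB B \ T.EB A).filter fun c => Function.update u e true c = true).card =
      ((T.EB B \ T.EB A).filter fun c => Function.update u e false c = true).card + 1 := by
  have : ((T.EB B \ T.EB A).filter fun c => Function.update u e true c = true) =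
      insert e ((T.EB B \ T.EB A).filter fun c => Function.update u e false c = true) := by
    ext c
    simp only [Finset.mem_filter, Finset.mem_insert, Finset.mem_sdiff]
    by_cases hc : c = e
    · subst hc
      simp [he, heA]
    · simp [Function.update_of_ne hc, hc]
  rw [this, Finset.card_insert_of_notMem]
  simp

/-- unconditional exactness for fixed statuses of the other edges -/
theorem AX_repair_eq [NeZero d] (hd : 3 ≤ d) (hG : G.IsTree) (P : Par) (hK : 0 < P.K)
    {B : Finset V} {e : Dart V d} (he : e ∈ T.EB B) (F : Cfg V d → ℝ) (ω : Cfg V d) :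
    T.AX B ∅ (fun ω' => (1 / (P.K : ℝ)) * ∑ ξ ∈ range P.K,
        F (kern P (T.nof B ω'.2) ω'.1 ξ e (T.N0 e), Function.update ω'.2 e true))
      (ω.1, Function.update ω.2 e false) =
    T.AX B ∅ F (ω.1, Function.update ω.2 e true) := by
  have hKR : (0 : ℝ) < P.K := by exact_mod_cast hK
  have hE0 : T.EB (∅ : Finset V) = ∅ := by ext c; simp [T.mem_EB]
  have heA : e ∉ T.EB (∅ : Finset V) := by rw [hE0]; simp
  rw [AX_eq, AX_eq]
  simp only
  rw [filter_card_update he heA, pow_succ]
  have hc : ∀ (x : St V d) (u : Dart V d → Bool),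
      T.ConsOn (T.EB B \ T.EB ∅) (x, u) ↔ Cons (T.nof B u) x := by
    intro x u
    rw [hE0, Finset.sdiff_empty]
    exact (cons_iff (T := T) (B := B) (ω := (x, u))).symm
  simp only [hc, Finset.sdiff_empty]
  have key := exact_nof hd hG P he (Function.update ω.2 e false) (by simp) ω.1
    (fun y => F (y, Function.update ω.2 e true))
  rw [Function.update_idem] at key
  simp only [Function.update_idem, ← Finset.mul_sum]
  rw [key]
  field_simp

/-- core computation: conditional exactness for fixed statuses of the other edges, on a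
no-touch event. -/
theorem AX_repair_le [NeZero d] (hd : 3 ≤ d) (hG : G.IsTree) (P : Par) (hK : 0 < P.K)
    {B A : Finset V} {e : Dart V d} (he : e ∈ T.EB B)
    (heA : e ∉ T.EB A) (F : Cfg V d → ℝ) (hF : ∀ ω, 0 ≤ F ω) (nt : Cfg V d → Prop)
    (ω : Cfg V d) (hcons : T.ConsOn (T.EB A) ω)
    (hnt : ∀ ω', nt ω' → Off (T.cA B A) ω ω' → Cons (T.nof B ω'.2) ω'.1 → ω'.2 e = false →
      ∀ ξ, ∀ v ∈ A, kern P (T.nof B ω'.2) ω'.1 ξ e (T.N0 e) v = ω'.1 v) :
    T.AX B A (fun ω' => if nt ω' then (1 / (P.K : ℝ)) * ∑ ξ ∈ range P.K,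
        F (kern P (T.nof B ω'.2) ω'.1 ξ e (T.N0 e), Function.update ω'.2 e true) else 0)
      (ω.1, Function.update ω.2 e false) ≤
    T.AX B A F (ω.1, Function.update ω.2 e true) := by
  have hKR : (0 : ℝ) < P.K := by exact_mod_cast hK
  have heC := T.mem_EB.mp he
  rw [AX_eq, AX_eq]
  simp only
  rw [filter_card_update he heA, pow_succ, Function.update_idem]
  set u0 := Function.update ω.2 e false with hu0
  set u1 := Function.update ω.2 e true with hu1
  have hu01 : Function.update u0 e true = u1 := by rw [hu0, hu1, Function.update_idem]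
  have hu0e : u0 e = false := by rw [hu0, Function.update_self]
  have key := exact_nof hd hG P he u0 hu0e ω.1
    (fun y => if y ∈ XS (B \ A) ω.1 then F (y, u1) else 0)
  rw [hu01] at key
  have hsub : XS (B \ A) ω.1 ⊆ XS B ω.1 := by
    intro x hx
    rw [mem_XS] at hx ⊢
    exact fun v hv => hx v (by simp [hv])
  -- states in the conditional sum are consistent
  have hcs : ∀ x ∈ XS (B \ A) ω.1, T.ConsOn (T.EB B \ T.EB A) (x, u0) →
      Cons (T.nof B u0) x := by
    intro x hx hc
    rw [cons_iff (T := T) (B := B) (ω := (x, u0))]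
    intro c hcB hcu
    by_cases hcA : c ∈ T.EB A
    · have hne : c ≠ e := fun h => heA (h ▸ hcA)
      have hcA' := T.mem_EB.mp hcA
      rw [mem_XS] at hx
      have e1 : x c.1 = ω.1 c.1 := hx _ (by simp [hcA'.1])
      have e2 : x (T.N0 c).1 = ω.1 (T.N0 c).1 := hx _ (by simp [hcA'.2.2])
      have e3 : ω.2 c = true := by
        simp only [hu0, Function.update_of_ne hne] at hcu
        exact hcu
      have := hcons c hcA e3
      unfold col at this ⊢
      simp only
      rw [e1, e2, this]
    · exact hc c (Finset.mem_sdiff.mpr ⟨hcB, hcA⟩) hcu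
  have hL : ∑ x ∈ (XS (B \ A) ω.1).filter (fun x => T.ConsOn (T.EB B \ T.EB A) (x, u0)),
      (if nt (x, u0) then (1 / (P.K : ℝ)) * ∑ ξ ∈ range P.K,
        F (kern P (T.nof B u0) x ξ e (T.N0 e), u1) else 0) ≤
      (1 / (P.K : ℝ)) * ∑ x ∈ (XS B ω.1).filter (fun x => Cons (T.nof B u0) x),
        ∑ ξ ∈ range P.K, (if kern P (T.nof B u0) x ξ e (T.N0 e) ∈ XS (B \ A) ω.1 then
          F (kern P (T.nof B u0) x ξ e (T.N0 e), u1) else 0) := by
    rw [Finset.mul_sum]
    have hs : (XS (B \ A) ω.1).filter (fun x => T.ConsOn (T.EB B \ T.EB A) (x, u0)) ⊆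
        (XS B ω.1).filter (fun x => Cons (T.nof B u0) x) := by
      intro x hx
      rw [Finset.mem_filter] at hx ⊢
      exact ⟨hsub hx.1, hcs x hx.1 hx.2⟩
    refine (Finset.sum_le_sum fun x hx => ?_).trans
      (Finset.sum_le_sum_of_subset_of_nonneg hs fun x _ _ => ?_)
    · rw [Finset.mem_filter] at hx
      have hcx := hcs x hx.1 hx.2
      split_ifs with hn
      · refine mul_le_mul_of_nonneg_left (Finset.sum_le_sum fun ξ _ => ?_) (by positivity)
        rw [if_pos]
        rw [mem_XS]
        intro v hv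
        have hx1 := mem_XS.mp hx.1
        by_cases hvB : v ∈ B
        · have hvA : v ∈ A := by
            by_contra h
            exact hv (Finset.mem_sdiff.mpr ⟨hvB, h⟩)
          have hO : Off (T.cA B A) ω (x, u0) := by
            refine ⟨fun w hw => ?_, fun c hc => ?_⟩
            · rw [mem_cA_inl] at hw
              exact hx1 w (by rw [Finset.mem_sdiff]; exact hw)
            · rw [mem_cA_inr] at hc
              have hce : c ≠ e := by
                rintro rfl
                exact hc ⟨he, heA⟩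
              simp only [hu0, Function.update_of_ne hce]
          have := hnt (x, u0) hn hO hcx hu0e ξ v hvA
          simp only at this
          rw [this]
          exact hx1 v hv
        · have := kern_off_vol hd hG P he (x, u0) hu0e hcx ξ hvB
          simp only at this
          rw [this]
          exact hx1 v hv
      · refine mul_nonneg (by positivity) (Finset.sum_nonneg fun ξ _ => ?_)
        split_ifs
        · exact hF _
        · exact le_refl _
    · refine mul_nonneg (by positivity) (Finset.sum_nonneg fun ξ _ => ?_)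
      split_ifs
      · exact hF _
      · exact le_refl _
  have hR : ∑ y ∈ (XS B ω.1).filter (fun y => Cons (T.nof B u1) y),
      (if y ∈ XS (B \ A) ω.1 then F (y, u1) else 0) ≤
      ∑ y ∈ (XS (B \ A) ω.1).filter (fun x => T.ConsOn (T.EB B \ T.EB A) (x, u1)),
        F (y, u1) := by
    rw [← Finset.sum_filter]
    refine Finset.sum_le_sum_of_subset_of_nonneg ?_ fun x _ _ => hF _
    intro y hy
    simp only [Finset.mem_filter] at hy ⊢
    refine ⟨hy.2, ?_⟩
    have := (cons_iff (T := T) (B := B) (ω := (y, u1))).mp hy.1.2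
    exact fun c hc => this c (Finset.mem_sdiff.mp hc).1
  have hmain := hL.trans_eq (by rw [key])
  have hfin : ∑ x ∈ (XS (B \ A) ω.1).filter (fun x => T.ConsOn (T.EB B \ T.EB A) (x, u0)),
      (if nt (x, u0) then (1 / (P.K : ℝ)) * ∑ ξ ∈ range P.K,
        F (kern P (T.nof B u0) x ξ e (T.N0 e), u1) else 0) ≤
      (d : ℝ) * ∑ y ∈ (XS (B \ A) ω.1).filter (fun x => T.ConsOn (T.EB B \ T.EB A) (x, u1)),
        F (y, u1) := by
    refine hmain.trans ?_
    have : (1 / (P.K : ℝ)) * ((P.K : ℝ) * d *
        ∑ y ∈ (XS B ω.1).filter (fun y => Cons (T.nof B u1) y),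
          (if y ∈ XS (B \ A) ω.1 then F (y, u1) else 0)) =
        (d : ℝ) * ∑ y ∈ (XS B ω.1).filter (fun y => Cons (T.nof B u1) y),
          (if y ∈ XS (B \ A) ω.1 then F (y, u1) else 0) := by
      field_simp
    rw [this]
    exact mul_le_mul_of_nonneg_left hR (by positivity)
  calc _ ≤ (1 / (d.factorial : ℝ)) ^ (B \ A).card *
      (d : ℝ) ^ ((T.EB B \ T.EB A).filter fun c => u0 c = true).card *
      ((d : ℝ) * ∑ y ∈ (XS (B \ A) ω.1).filter (fun x => T.ConsOn (T.EB B \ T.EB A) (x, u1)),
        F (y, u1)) := mul_le_mul_of_nonneg_left hfin (by positivity)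
    _ = _ := by ring

end PT

end FI
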