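import Pool.Agent.H99.FI.Tree

/-!
# FI: more tree metric: separation, branches bydond a dart, geometric sums
-/

set_option autoImplicit false

namespace FI

open Finset Function
open scoped Classical

variable {V : Type*} {G : SimpleGraph V} {d : ℕ}

/-- separation by an edge -/
theorem dist_sep (hG : G.IsTree) {v v' u o : V} (hadj : G.Adj v v')
    (hu : G.dist u v' = G.dist u v + 1) (ho : G.dist o v = G.dist o v' + 1) :
    G.dist u o = G.dist u v + 1 + G.dist v' o := by
  -- strong induction on the distance of o and v'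
  have key : ∀ n, ∀ o, G.dist v' o = n → G.dist o v = n + 1 →
      G.dist u o = G.dist u v + 1 + n := by
    intro n
    induction n using Nat.strong_induction_on with
    | _ n ih =>
      intro o h1 h2
      rcases Nat.eq_zero_or_pos n with hn | hn
      · subst hn
        have : v' = o := (hG.connected.dist_eq_zero_iff).mp h1
        subst this
        rw [hu]
      · have hne : o ≠ v' := by
          rintro rfl
          simp at h1
          omega
        obtain ⟨o', ho', hd'⟩ := exists_closer hG v' hne
        have h3 : G.dist v' o' = n - 1 := by omega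
        -- dist o' v = n
        have h4 : G.dist o' v = (n - 1) + 1 := by
          rcases dist_adj hG o' hadj with h | h
          · rw [h, SimpleGraph.dist_comm, h3]
          · exfalso
            have t1 : G.dist o v ≤ G.dist o o' + G.dist o' v := hG.connected.dist_triangle
            have t2 : G.dist o o' = 1 := SimpleGraph.dist_eq_one_iff_adj.mpr ho'
            rw [SimpleGraph.dist_comm (u := o') (v := v'), h3] at h
            omega
        have h5 := ih (n - 1) (by omega) o' h3 h4
        rcases dist_adj hG u ho' with h | h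
        · omega
        · exfalso
          -- o is the neighbour of o' closer to u
          rcases Nat.eq_zero_or_pos (n - 1) with hn' | hn'
          · have : v' = o' := (hG.connected.dist_eq_zero_iff).mp (by omega)
            subst this
            have := closer_unique hG u ho'.symm hadj.symm h hu
            subst this
            simp at h2
          · have hne' : o' ≠ v' := by
              rintro rfl
              simp at h3
              omega
            obtain ⟨z, hz, hdz⟩ := exists_closer hG v' hne'
            have h6 : G.dist v' z = n - 2 := by omega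
            have h7 : G.dist z v = (n - 2) + 1 := by
              rcases dist_adj hG z hadj with h' | h'
              · rw [h', SimpleGraph.dist_comm, h6]
              · exfalso
                have t1 : G.dist o' v ≤ G.dist o' z + G.dist z v := hG.connected.dist_triangle
                have t2 : G.dist o' z = 1 := SimpleGraph.dist_eq_one_iff_adj.mpr hz
                rw [SimpleGraph.dist_comm (u := z) (v := v'), h6] at h'
                omega
            have h8 := ih (n - 2) (by omega) z h6 h7
            have := closer_unique hG u ho'.symm hz h (by omega)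
            subst this
            omega
  have := key (G.dist v' o) o rfl (by rw [ho, SimpleGraph.dist_comm (u := o)])
  exact this

/-- vertices on a geodesic to the root stay in a closed set -/
theorem Clo.geodesic (hG : G.IsTree) {r : V} {A : Finset V} (hA : Clo G r A) {v w : V}
    (hv : v ∈ A) (h : G.dist r w + G.dist w v = G.dist r v) : w ∈ A := by
  induction hn : G.dist w v generalizing v with
  | zero =>
    have : w = v := (hG.connected.dist_eq_zero_iff).mp hn
    rwa [this]
  | succ n ih =>
    have hne : v ≠ w := by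
      rintro rfl
      simp at hn
    obtain ⟨v', hv', hd'⟩ := exists_closer hG w hne
    -- v' is closer to w, hence closer to r
    have t1 : G.dist r v' ≤ G.dist r w + G.dist w v' := hG.connected.dist_triangle
    have hclose : G.dist r v = G.dist r v' + 1 := by
      rcases dist_adj hG r hv' with h' | h'
      · exact h'
      · omega
    exact ih (hA.2 v hv v' hv' hclose) (by omega) (by omega)

/-- a finset is convex if it is closed with respect to each of its points -/
def Cvx (G : SimpleGraph V) (B : Finset V) : Prop := ∀ r ∈ B, Clo G r B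

namespace PT

variable (T : PT G d)

/-- `u` is in the branch bydond the dart `a` -/
def Byd (a : Dart V d) (u : V) : Prop := G.dist u a.1 = G.dist u (T.N0 a).1 + 1

variable {T}

theorem byd_self (a : Dart V d) : T.Byd a (T.N0 a).1 := by
  unfold Byd
  rw [SimpleGraph.dist_self, zero_add, SimpleGraph.dist_eq_one_iff_adj]
  exact (T.adj a).symm

theorem not_byd_fst (a : Dart V d) : ¬ T.Byd a a.1 := by
  unfold Byd
  rw [SimpleGraph.dist_self]
  omega

theorem byd_or (hG : G.IsTree) (a : Dart V d) (u : V) :
    T.Byd a u ∨ G.dist u (T.N0 a).1 = G.dist u a.1 + 1 :=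
  dist_adj hG u (T.adj a)

theorem not_byd_iff (hG : G.IsTree) (a : Dart V d) (u : V) :
    ¬ T.Byd a u ↔ G.dist u (T.N0 a).1 = G.dist u a.1 + 1 := by
  constructor
  · intro h
    exact (byd_or hG a u).resolve_left h
  · intro h h'
    unfold Byd at h'
    omega

theorem exists_byd (hG : G.IsTree) {v u : V} (h : v ≠ u) : ∃ i, T.Byd (v, i) u := by
  obtain ⟨w, hw, hd⟩ := exists_closer hG u h
  obtain ⟨i, hi⟩ := T.surj v w hw
  refine ⟨i, ?_⟩
  unfold Byd
  rw [hi]
  exact hd

theorem byd_inj (hG : G.IsTree) {v u : V} {i j : Fin d} (hi : T.Byd (v, i) u)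
    (hj : T.Byd (v, j) u) : i = j :=
  T.inj v i j (closer_unique hG u (T.adj (v, i)) (T.adj (v, j)) hi hj)

theorem byd_next (hG : G.IsTree) {a : Dart V d} {u : V} (h : T.Byd a u) (hu : (T.N0 a).1 ≠ u) :
    ∃ i, i ≠ (T.N0 a).2 ∧ T.Byd ((T.N0 a).1, i) u := by
  obtain ⟨i, hi⟩ := exists_byd (T := T) hG hu
  refine ⟨i, ?_, hi⟩
  rintro rfl
  unfold Byd at hi h
  have : T.N0 ((T.N0 a).1, (T.N0 a).2) = a := T.inv a
  rw [this] at hi
  have hi' : G.dist u (T.N0 a).1 = G.dist u a.1 + 1 := hi
  omega

theorem byd_of_next (hG : G.IsTree) {a : Dart V d} {u : V} {i : Fin d} (hi : i ≠ (T.N0 a).2)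
    (h : T.Byd ((T.N0 a).1, i) u) : T.Byd a u ∧ u ≠ (T.N0 a).1 := by
  constructor
  · by_contra hn
    rw [not_byd_iff hG] at hn
    -- then a.1 is the closer neighbour of w
    have h2 : T.Byd ((T.N0 a).1, (T.N0 a).2) u := by
      unfold Byd
      have : T.N0 ((T.N0 a).1, (T.N0 a).2) = a := T.inv a
      rw [this]
      exact hn
    exact hi (byd_inj hG h h2)
  · rintro rfl
    unfold Byd at h
    rw [SimpleGraph.dist_self] at h
    omega

theorem sum_filter_eq' (F : Finset V) (c : V) (f : V → ℝ) :
    ∑ x ∈ F.filter (fun x => x = c), f x = if c ∈ F then f c else 0 := by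
  by_cases h : c ∈ F
  · have : F.filter (fun x => x = c) = {c} := by
      ext x
      simp only [Finset.mem_filter, Finset.mem_singleton]
      constructor
      · exact fun h => h.2
      · rintro rfl; exact ⟨h, rfl⟩
    rw [this, if_pos h, Finset.sum_singleton]
  · have : F.filter (fun x => x = c) = ∅ := by
      ext x
      simp only [Finset.mem_filter, Finset.notMem_empty, iff_false]
      rintro ⟨h1, rfl⟩
      exact h h1
    rw [this, if_neg h, Finset.sum_empty]

/-- decomposition of the branch bydond a dart -/
theorem sum_byd (hG : G.IsTree) (a : Dart V d) (F : Finset V) (f : V → ℝ) :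
    ∑ u ∈ F.filter (fun u => T.Byd a u), f u =
      (if (T.N0 a).1 ∈ F then f (T.N0 a).1 else 0) +
      ∑ i ∈ univ.erase (T.N0 a).2, ∑ u ∈ F.filter (fun u => T.Byd ((T.N0 a).1, i) u), f u := by
  have h1 : F.filter (fun u => T.Byd a u) = F.filter (fun u => u = (T.N0 a).1) ∪
      (univ.erase (T.N0 a).2).biUnion
        (fun i => F.filter (fun u => T.Byd ((T.N0 a).1, i) u)) := by
    ext u
    simp only [Finset.mem_filter, Finset.mem_union, Finset.mem_biUnion, Finset.mem_erase,
      Finset.mem_univ, and_true]
    constructor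
    · rintro ⟨hF, hb⟩
      by_cases hu : u = (T.N0 a).1
      · exact Or.inl ⟨hF, hu⟩
      · obtain ⟨i, hi, hb'⟩ := byd_next hG hb (Ne.symm hu)
        exact Or.inr ⟨i, hi, hF, hb'⟩
    · rintro (⟨hF, rfl⟩ | ⟨i, hi, hF, hb⟩)
      · exact ⟨hF, byd_self a⟩
      · exact ⟨hF, (byd_of_next hG hi hb).1⟩
  rw [h1, Finset.sum_union, Finset.sum_biUnion]
  · congr 1
    exact sum_filter_eq' F _ f
  · intro i _ j _ hij
    rw [Function.onFun, Finset.disjoint_left]
    intro u hu hu'
    rw [Finset.mem_filter] at hu hu'
    exact hij (byd_inj hG hu.2 hu'.2)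
  · rw [Finset.disjoint_left]
    intro u hu hu'
    rw [Finset.mem_filter] at hu
    simp only [Finset.mem_biUnion, Finset.mem_erase, Finset.mem_univ, and_true,
      Finset.mem_filter] at hu'
    obtain ⟨i, hi, _, hb⟩ := hu'
    exact (byd_of_next hG hi hb).2 hu.2

/-- decomposition at a vertex -/
theorem sum_vertex (hG : G.IsTree) (v : V) (F : Finset V) (f : V → ℝ) :
    ∑ u ∈ F, f u = (if v ∈ F then f v else 0) +
      ∑ i : Fin d, ∑ u ∈ F.filter (fun u => T.Byd (v, i) u), f u := by
  have h1 : F = F.filter (fun u => u = v) ∪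
      (univ : Finset (Fin d)).biUnion (fun i => F.filter (fun u => T.Byd (v, i) u)) := by
    ext u
    simp only [Finset.mem_filter, Finset.mem_union, Finset.mem_biUnion, Finset.mem_univ,
      true_and]
    constructor
    · intro hF
      by_cases hu : u = v
      · exact Or.inl ⟨hF, hu⟩
      · obtain ⟨i, hb'⟩ := exists_byd (T := T) hG (Ne.symm hu)
        exact Or.inr ⟨i, hF, hb'⟩
    · rintro (⟨hF, rfl⟩ | ⟨i, hF, hb⟩)
      · exact hF
      · exact hF
  conv_lhs => rw [h1]
  rw [Finset.sum_union, Finset.sum_biUnion]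
  · congr 1
    exact sum_filter_eq' F _ f
  · intro i _ j _ hij
    rw [Function.onFun, Finset.disjoint_left]
    intro u hu hu'
    rw [Finset.mem_filter] at hu hu'
    exact hij (byd_inj hG hu.2 hu'.2)
  · rw [Finset.disjoint_left]
    intro u hu hu'
    rw [Finset.mem_filter] at hu
    simp only [Finset.mem_biUnion, Finset.mem_univ, true_and, Finset.mem_filter] at hu'
    obtain ⟨i, _, hb⟩ := hu'
    rw [hu.2] at hb
    exact not_byd_fst (v, i) hb

/-- geometric sum over a branch -/
theorem sum_branch_le (hG : G.IsTree) {q : ℝ} (hq : 0 ≤ q) (hq1 : ((d : ℝ) - 1) * q < 1)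
    (hd : 1 ≤ d) (a : Dart V d) (F : Finset V) :
    ∑ u ∈ F.filter (fun u => T.Byd a u), q ^ G.dist (T.N0 a).1 u ≤ 1 / (1 - ((d : ℝ) - 1) * q) := by
  have hpos : 0 < 1 - ((d : ℝ) - 1) * q := by linarith
  have hd1 : (0 : ℝ) ≤ (d : ℝ) - 1 := by
    have : (1 : ℝ) ≤ d := by exact_mod_cast hd
    linarith
  have key : ∀ n, ∀ a : Dart V d,
      ∑ u ∈ (F.filter (fun u => G.dist (T.N0 a).1 u < n)).filter (fun u => T.Byd a u),
        q ^ G.dist (T.N0 a).1 u ≤ 1 / (1 - ((d : ℝ) - 1) * q) := by
    intro n
    induction n with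
    | zero =>
      intro a
      simp only [Nat.not_lt_zero, Finset.filter_false, Finset.filter_empty, Finset.sum_empty]
      exact div_nonneg zero_le_one hpos.le
    | succ n ih =>
      intro a
      rw [sum_byd hG]
      have h1 : (if (T.N0 a).1 ∈ F.filter (fun u => G.dist (T.N0 a).1 u < n + 1) then
          q ^ G.dist (T.N0 a).1 (T.N0 a).1 else 0) ≤ 1 := by
        split_ifs <;> simp
      have h2 : ∀ i ∈ univ.erase (T.N0 a).2,
          ∑ u ∈ (F.filter (fun u => G.dist (T.N0 a).1 u < n + 1)).filter
            (fun u => T.Byd ((T.N0 a).1, i) u), q ^ G.dist (T.N0 a).1 u ≤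
          q * (1 / (1 - ((d : ℝ) - 1) * q)) := by
        intro i _
        refine le_trans ?_ (mul_le_mul_of_nonneg_left (ih ((T.N0 a).1, i)) hq)
        rw [Finset.mul_sum]
        refine le_of_eq ?_
        have hset : (F.filter (fun u => G.dist (T.N0 a).1 u < n + 1)).filter
            (fun u => T.Byd ((T.N0 a).1, i) u) =
            (F.filter (fun u => G.dist (T.N0 ((T.N0 a).1, i)).1 u < n)).filter
            (fun u => T.Byd ((T.N0 a).1, i) u) := by
          ext u
          simp only [Finset.mem_filter]
          constructor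
          · rintro ⟨⟨h1, h2⟩, h3⟩
            refine ⟨⟨h1, ?_⟩, h3⟩
            unfold Byd at h3
            rw [SimpleGraph.dist_comm, SimpleGraph.dist_comm (u := u)] at h3
            simp only at h3
            rw [SimpleGraph.dist_comm] at h3 ⊢
            rw [SimpleGraph.dist_comm] at h2
            have h4 := h3
            rw [SimpleGraph.dist_comm] at h4
            rw [SimpleGraph.dist_comm (u := u)]
            rw [SimpleGraph.dist_comm (u := u)] at h2
            omega
          · rintro ⟨⟨h1, h2⟩, h3⟩
            refine ⟨⟨h1, ?_⟩, h3⟩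
            unfold Byd at h3
            simp only at h3
            rw [SimpleGraph.dist_comm (u := u), SimpleGraph.dist_comm (u := u)] at h3
            omega
        rw [hset]
        refine Finset.sum_congr rfl fun u hu => ?_
        have h3 := (Finset.mem_filter.mp hu).2
        unfold Byd at h3
        simp only at h3
        rw [SimpleGraph.dist_comm (u := u), SimpleGraph.dist_comm (u := u)] at h3
        rw [h3, pow_succ']
      refine (add_le_add h1 (Finset.sum_le_sum h2)).trans (le_of_eq ?_)
      rw [Finset.sum_const, Finset.card_erase_of_mem (Finset.mem_univ _), Finset.card_univ,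
        Fintype.card_fin, nsmul_eq_mul, Nat.cast_sub hd, Nat.cast_one]
      field_simp
      ring
  obtain ⟨n, hn⟩ : ∃ n, ∀ u ∈ F, G.dist (T.N0 a).1 u < n := by
    refine ⟨F.sup (fun u => G.dist (T.N0 a).1 u) + 1, fun u hu => ?_⟩
    exact Nat.lt_succ_of_le (Finset.le_sup (f := fun u => G.dist (T.N0 a).1 u) hu)
  have := key n a
  rwa [Finset.filter_true_of_mem hn] at this

/-- geometric sum over the whole tree -/
theorem sum_all_le (hG : G.IsTree) {q : ℝ} (hq : 0 ≤ q) (hq1 : ((d : ℝ) - 1) * q < 1)
    (hd : 1 ≤ d) (v : V) (F : Finset V) (T : PT G d) :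
    ∑ u ∈ F, q ^ G.dist v u ≤ 1 + d * q * (1 / (1 - ((d : ℝ) - 1) * q)) := by
  rw [sum_vertex (T := T) hG v]
  have h1 : (if v ∈ F then q ^ G.dist v v else 0) ≤ 1 := by
    split_ifs <;> simp
  have h2 : ∀ i : Fin d, ∑ u ∈ F.filter (fun u => T.Byd (v, i) u), q ^ G.dist v u ≤
      q * (1 / (1 - ((d : ℝ) - 1) * q)) := by
    intro i
    refine le_trans (le_of_eq ?_)
      (mul_le_mul_of_nonneg_left (sum_branch_le (T := T) hG hq hq1 hd (v, i) F) hq)
    rw [Finset.mul_sum]
    refine Finset.sum_congr rfl fun u hu => ?_
    have h3 := (Finset.mem_filter.mp hu).2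
    unfold Byd at h3
    simp only at h3
    rw [SimpleGraph.dist_comm (u := u), SimpleGraph.dist_comm (u := u)] at h3
    rw [h3, pow_succ']
  refine (add_le_add h1 (Finset.sum_le_sum fun i _ => h2 i)).trans (le_of_eq ?_)
  rw [Finset.sum_const, Finset.card_univ, Fintype.card_fin, nsmul_eq_mul]
  ring

/-- convolution bound: `Σ_u q^{d(v,u)} β^{d(u,o)} ≤ C β^{d(v,o)}` -/
theorem sum_conv_le (hG : G.IsTree) {q β : ℝ} (hq : 0 ≤ q) (hβ : 0 < β) (hβ1 : β ≤ 1)
    (hqβ : q < β) (hq1 : ((d : ℝ) - 1) * β < 1) (hd : 1 ≤ d) (o v : V) (F : Finset V)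
    (T : PT G d) :
    ∑ u ∈ F, q ^ G.dist v u * β ^ G.dist u o ≤
      (1 + d * β * (1 / (1 - ((d : ℝ) - 1) * β))) / (1 - q / β) * β ^ G.dist v o := by
  set S := 1 + d * β * (1 / (1 - ((d : ℝ) - 1) * β)) with hS
  have hd1 : (0 : ℝ) ≤ (d : ℝ) - 1 := by
    have : (1 : ℝ) ≤ d := by exact_mod_cast hd
    linarith
  have hpos : 0 < 1 - ((d : ℝ) - 1) * β := by linarith
  have hSpos : 0 < S := by rw [hS]; positivity
  have hr : 0 < 1 - q / β := by
    rw [sub_pos, div_lt_one hβ]; exact hqβ
  -- the auxiliary sum with (q β)
  have haux : ∀ v, ∑ u ∈ F, (q * β) ^ G.dist v u ≤ S := by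
    intro v
    refine le_trans (Finset.sum_le_sum fun u _ => ?_)
      (sum_all_le hG hβ.le hq1 hd v F T)
    exact pow_le_pow_left₀ (by positivity) (by nlinarith) _
  induction hn : G.dist v o generalizing v with
  | zero =>
    have : v = o := (hG.connected.dist_eq_zero_iff).mp hn
    subst this
    rw [pow_zero, mul_one]
    refine le_trans (le_trans (le_of_eq ?_) (haux v)) ?_
    · refine Finset.sum_congr rfl fun u _ => ?_
      rw [SimpleGraph.dist_comm (u := u), mul_pow]
    · rw [le_div_iff₀ hr]
      have : 0 ≤ q / β := by positivity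
      nlinarith
  | succ n ih =>
    have hne : v ≠ o := by
      rintro rfl
      simp at hn
    obtain ⟨i, hi⟩ := exists_byd (T := T) hG hne
    set v' := (T.N0 (v, i)).1 with hv'
    have hi2 : G.dist o v = G.dist o v' + 1 := hi
    have hadj : G.Adj v v' := T.adj (v, i)
    have hdo : G.dist v' o = n := by
      rw [SimpleGraph.dist_comm (u := o), SimpleGraph.dist_comm (u := o)] at hi2
      omega
    rw [← Finset.sum_filter_add_sum_filter_not F (fun u => T.Byd (v, i) u)]
    have h1 : ∑ u ∈ F.filter (fun u => T.Byd (v, i) u), q ^ G.dist v u * β ^ G.dist u o ≤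
        q * (S / (1 - q / β) * β ^ n) := by
      refine le_trans ?_ (mul_le_mul_of_nonneg_left (ih v' hdo) hq)
      rw [Finset.mul_sum]
      refine le_trans (le_of_eq ?_) (Finset.sum_le_sum_of_subset_of_nonneg
        (Finset.filter_subset (fun u => T.Byd (v, i) u) F) fun u _ _ => by positivity)
      refine Finset.sum_congr rfl fun u hu => ?_
      have h3 := (Finset.mem_filter.mp hu).2
      unfold Byd at h3
      simp only at h3
      rw [SimpleGraph.dist_comm (u := u), SimpleGraph.dist_comm (u := u)] at h3
      rw [h3, pow_succ']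
      ring
    have h2 : ∑ u ∈ F.filter (fun u => ¬ T.Byd (v, i) u), q ^ G.dist v u * β ^ G.dist u o ≤
        β ^ (n + 1) * S := by
      refine le_trans ?_ (mul_le_mul_of_nonneg_left (haux v) (by positivity))
      rw [Finset.mul_sum]
      refine le_trans (le_of_eq ?_) (Finset.sum_le_sum_of_subset_of_nonneg
        (Finset.filter_subset (fun u => ¬ T.Byd (v, i) u) F) fun u _ _ => by positivity)
      refine Finset.sum_congr rfl fun u hu => ?_
      have h3 := (Finset.mem_filter.mp hu).2
      rw [not_byd_iff hG] at h3
      have h4 := dist_sep hG hadj h3 hi2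
      rw [h4, hdo, mul_pow, SimpleGraph.dist_comm (u := u)]
      ring
    refine (add_le_add h1 h2).trans (le_of_eq ?_)
    have hc : q = β * (1 - (1 - q / β)) := by field_simp; ring
    set c := 1 - q / β with hcdef
    rw [hc]
    field_simp
    ring

end PT

end FI
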