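import Pool.Agent.H99.FI.Exp

/-!
# FI: averages over a permutation with one prescribed value
-/

set_option autoImplicit false

namespace FI

open Finset Function
open scoped Classical

variable {d : ℕ}

theorem card_two_mul (hd : 2 ≤ d) {j i : Fin d} (hij : i ≠ j) {c l : Fin d} (hcl : l ≠ c) :
    (d - 1) * (univ.filter fun σ : Equiv.Perm (Fin d) => σ j = c ∧ σ i = l).card =
      (d - 1).factorial := by
  have hsym : ∀ i' ∈ univ.erase j,
      (univ.filter fun σ : Equiv.Perm (Fin d) => σ j = c ∧ σ i' = l).card =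
      (univ.filter fun σ : Equiv.Perm (Fin d) => σ j = c ∧ σ i = l).card := by
    intro i' hi'
    have hi'j : i' ≠ j := Finset.ne_of_mem_erase hi'
    refine Finset.card_bij (fun σ _ => σ * Equiv.swap i i') ?_ ?_ ?_
    · intro σ hσ
      simp only [Finset.mem_filter, Finset.mem_univ, true_and] at hσ ⊢
      refine ⟨?_, ?_⟩
      · rw [Equiv.Perm.mul_apply, Equiv.swap_apply_of_ne_of_ne hij.symm hi'j.symm, hσ.1]
      · rw [Equiv.Perm.mul_apply, Equiv.swap_apply_left, hσ.2]
    · intro σ _ σ' _ h
      exact mul_right_cancel h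
    · intro σ hσ
      simp only [Finset.mem_filter, Finset.mem_univ, true_and] at hσ
      refine ⟨σ * Equiv.swap i i', ?_, ?_⟩
      · simp only [Finset.mem_filter, Finset.mem_univ, true_and]
        refine ⟨?_, ?_⟩
        · rw [Equiv.Perm.mul_apply, Equiv.swap_apply_of_ne_of_ne hij.symm hi'j.symm, hσ.1]
        · rw [Equiv.Perm.mul_apply, Equiv.swap_apply_right, hσ.2]
      · rw [mul_assoc, Equiv.swap_mul_self, mul_one]
  have htot : ∑ i' ∈ univ.erase j,
      (univ.filter fun σ : Equiv.Perm (Fin d) => σ j = c ∧ σ i' = l).card =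
      (univ.filter fun σ : Equiv.Perm (Fin d) => σ j = c).card := by
    rw [Finset.card_eq_sum_card_fiberwise (f := fun σ : Equiv.Perm (Fin d) => σ.symm l)
      (s := univ.filter fun σ : Equiv.Perm (Fin d) => σ j = c) (t := univ.erase j)]
    · refine Finset.sum_congr rfl fun i' _ => ?_
      congr 1
      ext σ
      simp only [Finset.mem_filter, Finset.mem_univ, true_and]
      constructor
      · rintro ⟨h1, h2⟩
        exact ⟨h1, by rw [← h2]; simp⟩
      · rintro ⟨h1, h2⟩
        exact ⟨h1, by rw [← h2]; simp⟩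
    · intro σ hσ
      simp only [Finset.coe_filter, Finset.mem_univ, true_and, Set.mem_setOf_eq] at hσ
      simp only [Finset.coe_erase, Finset.coe_univ, Set.mem_diff, Set.mem_univ,
        Set.mem_singleton_iff, true_and]
      intro h
      apply hcl
      rw [← hσ, ← h]
      simp
  rw [Finset.sum_congr rfl hsym, Finset.sum_const, Finset.card_erase_of_mem (Finset.mem_univ _),
    Finset.card_univ, Fintype.card_fin, smul_eq_mul, PT.card_perm_apply (by omega)] at htot
  exact htot

theorem fact_rel (hd : 1 ≤ d) : ((d : ℝ) * ((d - 1).factorial : ℝ)) = (d.factorial : ℝ) := by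
  have h2 : d * (d - 1).factorial = d.factorial := Nat.mul_factorial_pred (by omega)
  exact_mod_cast h2

/-- average of a function of the position of `l`, given the value at `j` -/
theorem avg_inv (hd : 2 ≤ d) (j : Fin d) {c l : Fin d} (hcl : l ≠ c) (g : Fin d → ℝ) :
    (1 / (d.factorial : ℝ)) * ∑ σ : Equiv.Perm (Fin d),
      (if c = σ j then (d : ℝ) else 0) * g (σ.symm l) =
      (1 / ((d : ℝ) - 1)) * ∑ i ∈ univ.erase j, g i := by
  have h1 : ∑ σ : Equiv.Perm (Fin d), (if c = σ j then (d : ℝ) else 0) * g (σ.symm l) =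
      ∑ i ∈ univ.erase j, ∑ σ ∈ univ.filter (fun σ : Equiv.Perm (Fin d) => σ j = c ∧ σ i = l),
        (d : ℝ) * g i := by
    have : ∀ σ : Equiv.Perm (Fin d), (if c = σ j then (d : ℝ) else 0) * g (σ.symm l) =
        if σ j = c then (d : ℝ) * g (σ.symm l) else 0 := by
      intro σ
      by_cases h : c = σ j
      · rw [if_pos h, if_pos h.symm]
      · rw [if_neg h, if_neg (Ne.symm h), zero_mul]
    rw [Finset.sum_congr rfl fun σ _ => this σ, ← Finset.sum_filter]
    rw [← Finset.sum_fiberwise_of_maps_to (s := univ.filter fun σ : Equiv.Perm (Fin d) => σ j = c)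
      (t := univ.erase j) (g := fun σ : Equiv.Perm (Fin d) => σ.symm l)]
    · refine Finset.sum_congr rfl fun i _ => ?_
      have hset : (univ.filter fun σ : Equiv.Perm (Fin d) => σ j = c).filter
          (fun σ => σ.symm l = i) =
          univ.filter (fun σ : Equiv.Perm (Fin d) => σ j = c ∧ σ i = l) := by
        ext σ
        simp only [Finset.mem_filter, Finset.mem_univ, true_and]
        constructor
        · rintro ⟨h1, h2⟩
          exact ⟨h1, by rw [← h2]; simp⟩
        · rintro ⟨h1, h2⟩
          exact ⟨h1, by rw [← h2]; simp⟩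
      rw [hset]
      refine Finset.sum_congr rfl fun σ hσ => ?_
      simp only [Finset.mem_filter, Finset.mem_univ, true_and] at hσ
      rw [← hσ.2]
      simp
    · intro σ hσ
      simp only [Finset.mem_filter, Finset.mem_univ, true_and] at hσ
      simp only [Finset.mem_erase, Finset.mem_univ, and_true]
      intro h
      apply hcl
      rw [← hσ, ← h]
      simp
  have hd1 : (0 : ℝ) < (d : ℝ) - 1 := by
    have : (2 : ℝ) ≤ d := by exact_mod_cast hd
    linarith
  rw [h1, Finset.mul_sum, Finset.mul_sum]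
  refine Finset.sum_congr rfl fun i hi => ?_
  rw [Finset.sum_const, nsmul_eq_mul]
  have h2 := card_two_mul hd (Finset.ne_of_mem_erase hi) hcl
  have h3 : ((d : ℝ) - 1) *
      ((univ.filter fun σ : Equiv.Perm (Fin d) => σ j = c ∧ σ i = l).card : ℝ) =
      ((d - 1).factorial : ℝ) := by
    rw [← h2]
    push_cast [Nat.cast_sub (show 1 ≤ d by omega)]
    ring
  have h4 := fact_rel (d := d) (by omega)
  rw [← h4, ← h3]
  have h5 : ((univ.filter fun σ : Equiv.Perm (Fin d) => σ j = c ∧ σ i = l).card : ℝ) ≠ 0 := by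
    intro h0
    rw [h0, mul_zero] at h3
    exact (Nat.cast_ne_zero.mpr (Nat.factorial_ne_zero _)) h3.symm
  have h6 : (d : ℝ) ≠ 0 := by
    have : (2 : ℝ) ≤ d := by exact_mod_cast hd
    linarith
  field_simp

/-- probability of a second prescribed value -/
theorem avg_two_le (hd : 2 ≤ d) (j i : Fin d) {c l : Fin d} (hcl : l ≠ c) {y : ℝ} (hy : 0 ≤ y) :
    (1 / (d.factorial : ℝ)) * ∑ σ : Equiv.Perm (Fin d),
      (if c = σ j then (d : ℝ) else 0) * (if σ i = l then y else 0) ≤ 1 / ((d : ℝ) - 1) * y := by
  have hd1 : (0 : ℝ) < (d : ℝ) - 1 := by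
    have : (2 : ℝ) ≤ d := by exact_mod_cast hd
    linarith
  have h := avg_inv hd j hcl (fun i' => if i' = i then y else 0)
  have h' : ∀ σ : Equiv.Perm (Fin d), (if σ.symm l = i then y else 0) =
      (if σ i = l then y else 0) := by
    intro σ
    congr 1
    rw [eq_iff_iff]
    constructor
    · intro h; rw [← h]; simp
    · intro h; rw [← h]; simp
  simp only [h'] at h
  rw [h]
  refine mul_le_mul_of_nonneg_left ?_ (by positivity)
  rw [Finset.sum_ite_eq']
  split_ifs
  · exact le_refl _
  · exact hy

end FI
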