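import Pool.Agent.H99.FI.Metric

/-!
# FI: positions of a Kempe chain are non-backtracking walks
-/

set_option autoImplicit false

namespace FI

open Finset Function
open scoped Classical

variable {V : Type*} {G : SimpleGraph V} {d : ℕ}

theorem Wk.snoc {N : Adj V d} {a f c : Dart V d} {p : List (Fin d)} {i : Fin d}
    (h : Wk N a p f) (hi : i ≠ f.2) (hc : N (f.1, i) = some c) : Wk N a (p ++ [i]) c := by
  induction h with
  | nil a => exact Wk.cons hi hc (Wk.nil c)
  | cons h1 h2 _ ih => exact Wk.cons h1 h2 (ih hi hc)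

theorem dt_fst' (x : St V d) (v : V) (k : Fin d) : (dt x v k).1 = v := rfl

@[simp] theorem col_dt' (x : St V d) (v : V) (k : Fin d) : col x (dt x v k) = k := by
  unfold col dt; simp

theorem dt_col' (x : St V d) (a : Dart V d) : dt x a.1 (col x a) = a := by
  unfold col dt; simp

theorem dt_eq_iff (x : St V d) {v : V} {k : Fin d} {a : Dart V d} :
    dt x v k = a ↔ v = a.1 ∧ col x a = k := by
  constructor
  · rintro rfl
    exact ⟨rfl, col_dt' x v k⟩
  · rintro ⟨rfl, rfl⟩
    exact dt_col' x a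

theorem pos_succ99 {N : Adj V d} {x : St V d} {τ : Equiv.Perm (Fin d)} {a f : Dart V d} {n : ℕ} :
    pos N x τ a (n + 1) = some f ↔
      ∃ g, pos N x τ a n = some g ∧ N (dt x g.1 (τ (col x g))) = some f := by
  simp only [pos, Option.bind_eq_some_iff, nx]

/-- if a position exists then so do the earlier ones -/
theorem pos_le {N : Adj V d} {x : St V d} {τ : Equiv.Perm (Fin d)} {a f : Dart V d} {n m : ℕ}
    (h : pos N x τ a n = some f) (hm : m ≤ n) : ∃ g, pos N x τ a m = some g := by
  induction n generalizing f with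
  | zero =>
    obtain rfl : m = 0 := by omega
    exact ⟨f, h⟩
  | succ n ih =>
    rcases Nat.lt_or_ge m (n + 1) with h1 | h1
    · obtain ⟨g, hg, _⟩ := pos_succ99.mp h
      exact ih hg (by omega)
    · obtain rfl : m = n + 1 := by omega
      exact ⟨f, h⟩

theorem swap_ne {k l c : Fin d} (hkl : k ≠ l) (hc : c = k ∨ c = l) : Equiv.swap k l c ≠ c := by
  rcases hc with rfl | rfl
  · rw [Equiv.swap_apply_left]; exact hkl.symm
  · rw [Equiv.swap_apply_right]; exact hkl

theorem swap_mem {k l c : Fin d} (hc : c = k ∨ c = l) :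
    Equiv.swap k l c = k ∨ Equiv.swap k l c = l := by
  rcases hc with rfl | rfl
  · rw [Equiv.swap_apply_left]; exact Or.inr rfl
  · rw [Equiv.swap_apply_right]; exact Or.inl rfl

/-- local consistency along an adjacency is enough -/
theorem pos_info {N : Adj V d} {x : St V d} {k l : Fin d} (hkl : k ≠ l) {b : Dart V d}
    (hb : col x b = k ∨ col x b = l) {n : ℕ} {f : Dart V d}
    (hc : ∀ m, m < n → ∀ g f, pos N x (Equiv.swap k l) b m = some g →
      N (dt x g.1 (Equiv.swap k l (col x g))) = some f →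
      col x (dt x g.1 (Equiv.swap k l (col x g))) = col x f)
    (h : pos N x (Equiv.swap k l) b n = some f) :
    (col x f = k ∨ col x f = l) ∧ ∃ p : List (Fin d), p.length = n ∧ Wk N b p f := by
  induction n generalizing f with
  | zero =>
    simp only [pos, Option.some.injEq] at h
    subst h
    exact ⟨hb, [], rfl, Wk.nil b⟩
  | succ n ih =>
    obtain ⟨g, hg, hN⟩ := pos_succ99.mp h
    obtain ⟨h1, p, hp, hw⟩ := ih (fun m hm => hc m (by omega)) hg
    have h2 := hc n (by omega) g f hg hN
    rw [col_dt'] at h2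
    refine ⟨by rw [← h2]; exact swap_mem h1, p ++ [(x g.1).symm (Equiv.swap k l (col x g))],
      by simp [hp], hw.snoc ?_ hN⟩
    intro h3
    have h4 : x g.1 g.2 = Equiv.swap k l (col x g) := by
      rw [← h3]; simp
    exact swap_ne hkl h1 (by rw [← h4]; rfl)

namespace PT

variable {T : PT G d}

/-- distances along a chain in a consistent configuration -/
theorem pos_dist (hG : G.IsTree) {B : Finset V} {u : Dart V d → Bool} {x : St V d}
    (hcons : Cons (T.nof B u) x) {k l : Fin d} (hkl : k ≠ l) {b : Dart V d}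
    (hb : col x b = k ∨ col x b = l) {n : ℕ} {f : Dart V d}
    (h : pos (T.nof B u) x (Equiv.swap k l) b n = some f) :
    G.dist f.1 b.1 = n ∧ G.dist f.1 (T.N0 b).1 = n + 1 ∧ (col x f = k ∨ col x f = l) := by
  obtain ⟨h1, p, hp, hw⟩ := pos_info hkl hb (fun m _ g f _ hN => hcons _ _ hN) h
  have := T.wk_dist hG (fun _ _ h => (T.nof_some.mp h).2.2.2) hw
  rw [hp] at this
  exact ⟨this.1, this.2, h1⟩

/-- previous position -/
theorem pos_prev (hG : G.IsTree) {B : Finset V} {u : Dart V d → Bool} {x : St V d}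
    (hcons : Cons (T.nof B u) x) {k l : Fin d} (hkl : k ≠ l) {b : Dart V d}
    (hb : col x b = k ∨ col x b = l) {n : ℕ} {f : Dart V d}
    (h : pos (T.nof B u) x (Equiv.swap k l) b (n + 1) = some f) :
    ∃ g, pos (T.nof B u) x (Equiv.swap k l) b n = some g ∧
      T.N0 f = dt x g.1 (Equiv.swap k l (col x g)) ∧ (T.N0 f).1 = g.1 ∧
      u (T.cd f) = true ∧ col x f = Equiv.swap k l (col x g) ∧ T.Byd f b.1 := by
  obtain ⟨g, hg, hN⟩ := pos_succ99.mp h
  have h1 := T.nof_some.mp hN
  have h2 : T.N0 f = dt x g.1 (Equiv.swap k l (col x g)) := by rw [← h1.2.2.2, T.inv]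
  have h3 := hcons _ _ hN
  rw [col_dt'] at h3
  refine ⟨g, hg, h2, by rw [h2]; rfl, ?_, h3.symm, ?_⟩
  · have h4 := h1.2.2.1
    rw [← h1.2.2.2, T.cd_N0]
    exact h4
  · have d1 := (pos_dist hG hcons hkl hb h).1
    have d2 := (pos_dist hG hcons hkl hb hg).1
    unfold Byd
    rw [h2]
    change G.dist b.1 f.1 = G.dist b.1 g.1 + 1
    rw [SimpleGraph.dist_comm, d1, SimpleGraph.dist_comm, d2]

end PT

end FI
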