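import Pool.Agent.H99.FI.PosLem
import Pool.Agent.H99.FI.PermAvg

/-!
# FI: probability that a far chain comes to the explored set
-/

set_option autoImplicit false

namespace FI

open Finset Function
open scoped Classical

variable {V : Type*} {G : SimpleGraph V} {d : ℕ}

namespace PT

variable (T : PT G d)

/-- the dart at `v` towards `t` (junk port if `v = t`) -/
noncomputable def tow [NeZero d] (v t : V) : Dart V d :=
  (v, if h : ∃ i, T.Byd (v, i) t then h.choose else 0)

/-- the next dart after `a` on the way to `t` -/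
noncomputable def nxt [NeZero d] (t : V) (a : Dart V d) : Dart V d := T.tow (T.N0 a).1 t

/-- port at `v` through which a chain coming from the dart `b` arrives -/
noncomputable def arr [NeZero d] (b : Dart V d) (v : V) : Dart V d :=
  if v = b.1 then b else T.tow v b.1

variable {T}

theorem tow_byd [NeZero d] (hG : G.IsTree) {v t : V} (h : v ≠ t) : T.Byd (T.tow v t) t := by
  unfold tow
  have h' := exists_byd (T := T) hG h
  rw [dif_pos h']
  exact h'.choose_spec

theorem tow_fst [NeZero d] (v t : V) : (T.tow v t).1 = v := rfl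

theorem tow_eq [NeZero d] (hG : G.IsTree) {v t : V} {a : Dart V d} (h1 : a.1 = v)
    (h2 : T.Byd a t) : T.tow v t = a := by
  have hne : v ≠ t := by
    rintro rfl
    rw [← h1] at h2
    exact not_byd_fst a h2
  obtain ⟨w, i⟩ := a
  simp only at h1
  subst h1
  have := byd_inj hG (tow_byd (T := T) hG hne) h2
  exact Prod.ext rfl this

/-- compatibility of the colours along the path from `(N0 a).1` to `b.1` -/
def PC [NeZero d] (T : PT G d) (b : Dart V d) : ℕ → Dart V d → Cfg V d → Prop
  | 0, _, _ => True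
  | n + 1, a, ω =>
      ω.2 (T.cd (T.nxt b.1 a)) = true ∧
      ω.1 (T.N0 (T.nxt b.1 a)).1 (T.arr b (T.N0 (T.nxt b.1 a)).1).2 =
        ω.1 (T.N0 a).1 (T.N0 a).2 ∧
      PC T b n (T.nxt b.1 a) ω

theorem PC_succ [NeZero d] (T : PT G d) (b : Dart V d) (n : ℕ) (a : Dart V d) (ω : Cfg V d) :
    T.PC b (n + 1) a ω ↔
      (ω.2 (T.cd (T.nxt b.1 a)) = true ∧
      ω.1 (T.N0 (T.nxt b.1 a)).1 (T.arr b (T.N0 (T.nxt b.1 a)).1).2 =
        ω.1 (T.N0 a).1 (T.N0 a).2 ∧
      PC T b n (T.nxt b.1 a) ω) := Iff.rfl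

/-- the chain from `b` comes to `(N0 a).1` and wants to leave through `N0 a` -/
def Tch (T : PT G d) (B : Finset V) (b : Dart V d) (τ : Equiv.Perm (Fin d)) (a : Dart V d)
    (ω : Cfg V d) : Prop :=
  ∃ m f, pos (T.nof B ω.2) ω.1 τ b m = some f ∧ f.1 = (T.N0 a).1 ∧
    dt ω.1 f.1 (τ (col ω.1 f)) = T.N0 a

theorem PC_of_Tch [NeZero d] (hG : G.IsTree) {B : Finset V} {b : Dart V d} {k l : Fin d}
    (hkl : k ≠ l) {ω : Cfg V d} (hcons : Cons (T.nof B ω.2) ω.1)
    (hb : col ω.1 b = k ∨ col ω.1 b = l) {n : ℕ} {a : Dart V d}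
    (hn : G.dist (T.N0 a).1 b.1 = n) (hbyd : T.Byd a b.1)
    (h : T.Tch B b (Equiv.swap k l) a ω) : T.PC b n a ω := by
  induction n generalizing a with
  | zero => trivial
  | succ n ih =>
    obtain ⟨m, f, hf, hf1, hf2⟩ := h
    have hne : (T.N0 a).1 ≠ b.1 := by
      intro h
      rw [h, SimpleGraph.dist_self] at hn
      omega
    have hd := pos_dist hG hcons hkl hb hf
    have hm : m ≠ 0 := by
      rintro rfl
      rw [hf1, hn] at hd
      omega
    obtain ⟨m, rfl⟩ := Nat.exists_eq_succ_of_ne_zero hm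
    obtain ⟨g, hg, hg1, hg2, hu, hcol, hbf⟩ := pos_prev hG hcons hkl hb hf
    -- f is the dart at w_1 towards b
    have hfa : f = T.nxt b.1 a := by
      unfold nxt
      exact (tow_eq hG hf1 hbf).symm
    have hbn : T.Byd (T.nxt b.1 a) b.1 := by rw [← hfa]; exact hbf
    have hdn : G.dist (T.N0 (T.nxt b.1 a)).1 b.1 = n := by
      rw [← hfa, hg2]
      have := (pos_dist hG hcons hkl hb hg).1
      have := hd.1
      rw [hf1, hn] at this
      omega
    have hgd := pos_dist hG hcons hkl hb hg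
    refine ⟨by rw [← hfa]; exact hu, ?_, ih hdn hbn ⟨m, g, hg, by rw [← hfa]; exact hg2.symm, ?_⟩⟩
    · -- colours
      have hcg : col ω.1 g = ω.1 (T.N0 a).1 (T.N0 a).2 := by
        have h1 := (dt_eq_iff ω.1).mp hf2
        have h2 : col ω.1 (T.N0 a) = Equiv.swap k l (col ω.1 f) := h1.2
        rw [hcol, Equiv.swap_apply_self] at h2
        exact h2.symm
      rw [← hcg, ← hfa, hg2]
      -- g is the arrival dart
      have : T.arr b g.1 = g := by
        unfold arr
        by_cases hgb : g.1 = b.1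
        · rw [if_pos hgb]
          have : m = 0 := by
            have := hgd.1
            rw [hgb, SimpleGraph.dist_self] at this
            exact this.symm
          subst this
          simp only [pos, Option.some.injEq] at hg
          exact hg
        · rw [if_neg hgb]
          have hm' : m ≠ 0 := by
            rintro rfl
            simp only [pos, Option.some.injEq] at hg
            exact hgb (by rw [hg])
          obtain ⟨m', rfl⟩ := Nat.exists_eq_succ_of_ne_zero hm'
          obtain ⟨_, _, _, _, _, _, hbg⟩ := pos_prev hG hcons hkl hb hg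
          exact tow_eq hG rfl hbg
      rw [this]
      rfl
    · rw [← hfa, hg1]

theorem PC_noDep_aux [NeZero d] (hG : G.IsTree) {b : Dart V d} {X : Finset V}
    (hX : Cvx G X) (hbX : b.1 ∈ X) {n : ℕ} {a : Dart V d}
    (hn : G.dist (T.N0 a).1 b.1 = n) (haX : (T.N0 a).1 ∈ X)
    {ω ω' : Cfg V d} (h1 : ∀ v ∈ X, ω'.1 v = ω.1 v) (h2 : ∀ c ∈ T.EB X, ω'.2 c = ω.2 c) :
    T.PC b n a ω' ↔ T.PC b n a ω := by
  induction n generalizing a with
  | zero => exact Iff.rfl
  | succ n ih =>
    have hne : (T.N0 a).1 ≠ b.1 := by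
      intro h
      rw [h, SimpleGraph.dist_self] at hn
      omega
    have hb := tow_byd (T := T) hG hne
    have hb' : G.dist b.1 (T.N0 a).1 = G.dist b.1 (T.N0 (T.nxt b.1 a)).1 + 1 := hb
    have hX2 : (T.N0 (T.nxt b.1 a)).1 ∈ X :=
      (hX b.1 hbX).2 (T.N0 a).1 haX _ (T.adj (T.nxt b.1 a)) hb'
    have hdn : G.dist (T.N0 (T.nxt b.1 a)).1 b.1 = n := by
      rw [SimpleGraph.dist_comm] at hn
      rw [SimpleGraph.dist_comm]
      omega
    rw [PC_succ, PC_succ,
      h2 _ (T.cd_mem_EB (a := T.nxt b.1 a) haX hX2), h1 _ haX, h1 _ hX2, ih hdn hX2]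

/-- probability of compatibility along a path -/
theorem PC_prob [NeZero d] (hG : G.IsTree) (hd : 3 ≤ d) {ε : Dart V d → ℝ} (hε : WOK ε)
    {εl : ℝ} (hεl : ∀ e, εl ≤ ε e) {r : V} {B : Finset V} (hB : Cvx G B) {b : Dart V d}
    (hbB : b.1 ∈ B) (n : ℕ) (X : Finset V) (hX : Clo G r X) (hXB : X ⊆ B) (a : Dart V d)
    (haX : (T.N0 a).1 ∈ X) (hn : G.dist (T.N0 a).1 b.1 = n) (hr : r ∈ B)
    (hnb : ∀ u ∈ X, (T.N0 a).1 ≠ b.1 → ¬ T.Byd (T.nxt b.1 a) u)
    (ha2 : (T.N0 a).1 ≠ b.1 → (T.nxt b.1 a).2 ≠ (T.N0 a).2)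
    (ω : Cfg V d) :
    T.EE ε B X (fun ω => if T.PC b n a ω then (1 : ℝ) else 0) ω ≤
      ((1 - εl) / ((d : ℝ) - 1)) ^ n := by
  have hd1 : (0 : ℝ) < (d : ℝ) - 1 := by
    have : (3 : ℝ) ≤ d := by exact_mod_cast hd
    linarith
  have hεl1 : εl ≤ 1 := (hεl b).trans (hε b).2
  induction n generalizing X a ω with
  | zero =>
    simp only [PC, if_true, pow_zero]
    rw [EE_one hG (by omega) ε hX (hB r hr) hXB]
  | succ n ih =>
    have hne : (T.N0 a).1 ≠ b.1 := by
      intro h
      rw [h, SimpleGraph.dist_self] at hn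
      omega
    set a' := T.nxt b.1 a with ha'
    have hb : T.Byd a' b.1 := tow_byd (T := T) hG hne
    have ha'1 : a'.1 = (T.N0 a).1 := rfl
    have hw : (T.N0 a').1 ∉ X := fun h => hnb _ h hne (byd_self a')
    have hwB : (T.N0 a').1 ∈ B := (hB b.1 hbB).2 a'.1 (hXB haX) _ (T.adj a') hb
    have hdn : G.dist (T.N0 a').1 b.1 = n := by
      have : G.dist b.1 a'.1 = G.dist b.1 (T.N0 a').1 + 1 := hb
      rw [ha'1, SimpleGraph.dist_comm] at this
      rw [SimpleGraph.dist_comm]
      omega
    have hX' : Clo G r (insert (T.N0 a').1 X) :=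
      hX.insert hG (v := a'.1) haX (T.adj a').symm
    have hXB' : insert (T.N0 a').1 X ⊆ B := Finset.insert_subset hwB hXB
    have hEBi : T.EB (insert (T.N0 a').1 X) = insert (T.cd a') (T.EB X) :=
      EB_insert hG hX (a := a') haX hw
    set q := (1 - εl) / ((d : ℝ) - 1) with hq
    have hq0 : 0 ≤ q := div_nonneg (by linarith) hd1.le
    -- conditions for the next step
    have hnb' : ∀ u ∈ insert (T.N0 a').1 X, (T.N0 a').1 ≠ b.1 → ¬ T.Byd (T.nxt b.1 a') u := by
      intro u hu hne' hbu
      have hport : (T.nxt b.1 a').2 ≠ (T.N0 a').2 := by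
        intro h
        have h1 : T.nxt b.1 a' = T.N0 a' := Prod.ext rfl h
        have h2 := tow_byd (T := T) hG hne'
        have h3 : T.Byd (T.nxt b.1 a') b.1 := h2
        rw [h1] at h3
        unfold Byd at h3 hb
        rw [T.inv] at h3
        omega
      rcases Finset.mem_insert.mp hu with rfl | hu
      · exact not_byd_fst (T.nxt b.1 a') hbu
      · exact hnb u hu hne (byd_of_next hG hport hbu).1
    have ha2' : (T.N0 a').1 ≠ b.1 → (T.nxt b.1 a').2 ≠ (T.N0 a').2 := by
      intro hne' h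
      have h1 : T.nxt b.1 a' = T.N0 a' := Prod.ext rfl h
      have h3 : T.Byd (T.nxt b.1 a') b.1 := tow_byd (T := T) hG hne'
      rw [h1] at h3
      unfold Byd at h3 hb
      rw [T.inv] at h3
      omega
    rw [EE_step' ε hG hX hXB (a := a') haX hw hwB]
    -- colours
    set c₂ := ω.1 (T.N0 a).1 (T.N0 a).2 with hc₂
    have hcl : c₂ ≠ col ω.1 a' := by
      intro h
      have h1 : ω.1 a'.1 (T.N0 a).2 = ω.1 a'.1 a'.2 := h
      exact ha2 hne ((ω.1 a'.1).injective h1).symm
    have hcut : ∀ σ : Equiv.Perm (Fin d), T.EE ε B (insert (T.N0 a').1 X)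
        (fun ω => if T.PC b (n + 1) a ω then (1 : ℝ) else 0)
        (Function.update ω.1 (T.N0 a').1 σ, Function.update ω.2 (T.cd a') false) = 0 := by
      intro σ
      have : T.EE ε B (insert (T.N0 a').1 X)
          (fun ω => if T.PC b (n + 1) a ω then (1 : ℝ) else 0)
          (Function.update ω.1 (T.N0 a').1 σ, Function.update ω.2 (T.cd a') false) =
          T.EE ε B (insert (T.N0 a').1 X) (fun _ => 0)
          (Function.update ω.1 (T.N0 a').1 σ, Function.update ω.2 (T.cd a') false) := by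
        refine EE_congr_cons B _ ε _ fun ω' hO _ => ?_
        rw [if_neg]
        intro h
        have h1 : ω'.2 (T.cd a') = true := h.1
        have h2 : ω'.2 (T.cd a') = false := by
          rw [hO.2 _ (by
            rw [mem_cA_inr, hEBi]
            simp)]
          simp
        rw [h1] at h2
        exact absurd h2 (by simp)
      rw [this, EE_zero]
    have huncut : ∀ σ : Equiv.Perm (Fin d), T.EE ε B (insert (T.N0 a').1 X)
        (fun ω => if T.PC b (n + 1) a ω then (1 : ℝ) else 0)
        (Function.update ω.1 (T.N0 a').1 σ, Function.update ω.2 (T.cd a') true) ≤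
        if σ (T.arr b (T.N0 a').1).2 = c₂ then q ^ n else 0 := by
      intro σ
      have hne2 : (T.N0 a).1 ≠ (T.N0 a').1 := by
        rw [← ha'1]
        exact (T.adj a').ne
      have h0 : T.EE ε B (insert (T.N0 a').1 X)
          (fun ω => if T.PC b (n + 1) a ω then (1 : ℝ) else 0)
          (Function.update ω.1 (T.N0 a').1 σ, Function.update ω.2 (T.cd a') true) =
          T.EE ε B (insert (T.N0 a').1 X)
          (fun ω => (if σ (T.arr b (T.N0 a').1).2 = c₂ then (1 : ℝ) else 0) *
            (if T.PC b n a' ω then (1 : ℝ) else 0))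
          (Function.update ω.1 (T.N0 a').1 σ, Function.update ω.2 (T.cd a') true) := by
        refine EE_congr_cons B _ ε _ fun ω' hO _ => ?_
        have e1 : ω'.2 (T.cd a') = true := by
          rw [hO.2 _ (by
            rw [mem_cA_inr, hEBi]
            simp)]
          simp
        have e2 : ω'.1 (T.N0 a').1 = σ := by
          rw [hO.1 _ (by rw [mem_cA_inl]; simp)]
          simp
        have e3 : ω'.1 (T.N0 a).1 = ω.1 (T.N0 a).1 := by
          rw [hO.1 _ (by rw [mem_cA_inl]; simp [haX])]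
          simp only
          rw [Function.update_of_ne hne2]
        have : T.PC b (n + 1) a ω' ↔
            (σ (T.arr b (T.N0 a').1).2 = c₂ ∧ T.PC b n a' ω') := by
          rw [PC_succ, ← ha', e1, e2, e3]
          simp only [true_and, hc₂]
        by_cases h1 : σ (T.arr b (T.N0 a').1).2 = c₂
        · by_cases h2 : T.PC b n a' ω'
          · rw [if_pos (this.mpr ⟨h1, h2⟩), if_pos h1, if_pos h2, mul_one]
          · rw [if_neg (fun h => h2 (this.mp h).2), if_neg h2, mul_zero]
        · rw [if_neg (fun h => h1 (this.mp h).1), if_neg h1, zero_mul]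
      rw [h0]
      rw [congrFun (EE_smul ε B _ _ _) _]
      by_cases h1 : σ (T.arr b (T.N0 a').1).2 = c₂
      · rw [if_pos h1, if_pos h1, one_mul]
        exact ih _ hX' hXB' a' (Finset.mem_insert_self _ _) hdn hnb' ha2' _
      · rw [if_neg h1, if_neg h1, zero_mul]
    simp only [hcut, mul_zero, add_zero]
    have hεa := hε (T.cd a')
    have hsum : ∑ σ : Equiv.Perm (Fin d),
        (1 - ε (T.cd a')) * ((if col ω.1 a' = σ (T.N0 a').2 then (d : ℝ) else 0) *
        T.EE ε B (insert (T.N0 a').1 X) (fun ω => if T.PC b (n + 1) a ω then (1 : ℝ) else 0)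
        (Function.update ω.1 (T.N0 a').1 σ, Function.update ω.2 (T.cd a') true)) ≤
        (1 - ε (T.cd a')) * ∑ σ : Equiv.Perm (Fin d),
        ((if col ω.1 a' = σ (T.N0 a').2 then (d : ℝ) else 0) *
        (if σ (T.arr b (T.N0 a').1).2 = c₂ then q ^ n else (0 : ℝ))) := by
      rw [Finset.mul_sum]
      refine Finset.sum_le_sum fun σ _ => ?_
      have h1 : (0 : ℝ) ≤ 1 - ε (T.cd a') := by linarith
      have h2 : (0 : ℝ) ≤ (if col ω.1 a' = σ (T.N0 a').2 then (d : ℝ) else 0) := by
        split_ifs <;> positivity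
      exact mul_le_mul_of_nonneg_left (mul_le_mul_of_nonneg_left (huncut σ) h2) h1
    have hbound := mul_le_mul_of_nonneg_left hsum
      (show (0 : ℝ) ≤ 1 / (d.factorial : ℝ) by positivity)
    rw [mul_left_comm] at hbound
    refine hbound.trans ?_
    have h2 := avg_two_le (d := d) (by omega) (T.N0 a').2 (T.arr b (T.N0 a').1).2 hcl
      (y := q ^ n) (by positivity)
    calc _ ≤ (1 - ε (T.cd a')) * (1 / ((d : ℝ) - 1) * q ^ n) :=
          mul_le_mul_of_nonneg_left h2 (by linarith)
      _ ≤ (1 - εl) * (1 / ((d : ℝ) - 1) * q ^ n) :=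
          mul_le_mul_of_nonneg_right (by have := hεl (T.cd a'); linarith) (by positivity)
      _ = q ^ (n + 1) := by rw [pow_succ, hq]; ring

end PT

end FI
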