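import Pool.Agent.H99.FI.Exp

/-!
# FI: the sequence of windows, the noise
-/

set_option autoImplicit false

namespace FI

open Finset Function MeasureTheory
open scoped Classical

/-- ported tree together with a (consistent) order of the edges of every volume -/
structure OT {V : Type*} (G : SimpleGraph V) (d : ℕ) extends PT G d where
  lst : Finset V → List (Dart V d)
  lst_nodup : ∀ B, (lst B).Nodup
  lst_mem : ∀ B a, a ∈ lst B ↔ a ∈ toPT.EB B
  lst_filter : ∀ B' B, B' ⊆ B → (lst B).filter (fun a => decide (a ∈ toPT.EB B')) = lst B'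

/-- parameters at scale `s` (cut probabilities between `2^{-8s-9}` and `2^{-8s}`) -/
def parS (s : ℕ) : Par := ⟨2 ^ (2 * s), 2 ^ (6 * s + 7), 2 ^ (6 * s + 7)⟩

/-- the noise at a vertex: a permutation, and for every window and port a hit bit and an index -/
abbrev Nz (d : ℕ) := Equiv.Perm (Fin d) × (ℕ → Fin d → Bool × ℕ)

instance (d : ℕ) : MeasurableSpace (Equiv.Perm (Fin d)) := ⊤

/-- law of one coordinate of the window noise: hit with probability `p`, index uniform in
`range K`. -/
noncomputable def winLaw (p : ℝ) (K : ℕ) : Measure (Bool × ℕ) :=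
  ((ENNReal.ofReal p) • Measure.dirac true + (ENNReal.ofReal (1 - p)) • Measure.dirac false).prod
    (∑ ξ ∈ range K, (1 / (K : ENNReal)) • Measure.dirac ξ)

/-- law of the noise at a vertex -/
noncomputable def nzLaw (d : ℕ) (p : ℕ → ℝ) (P : ℕ → Par) : Measure (Nz d) :=
  (∑ σ : Equiv.Perm (Fin d), (1 / (d.factorial : ENNReal)) • Measure.dirac σ).prod
    (Measure.infinitePi fun k : ℕ => Measure.pi fun _ : Fin d => winLaw (p k) (P k).K)

section
variable {V : Type*} {G : SimpleGraph V} {d : ℕ}

/-- law of the whole discrete noise -/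
noncomputable def nzP (V : Type*) (d : ℕ) (p : ℕ → ℝ) (P : ℕ → Par) : Measure (V → Nz d) :=
  Measure.infinitePi fun _ : V => nzLaw d p P

/-- the configuration in the volume `B` after `k` windows -/
noncomputable def OT.cfg (T : OT G d) [NeZero d] (P : ℕ → Par) (B : Finset V) (η : V → Nz d) :
    ℕ → Cfg V d
  | 0 => (fun v => (η v).1, fun _ => false)
  | k + 1 => runL (T.toPT.hs (P k) B (fun _ => true)) (fun a => (η a.1).2 k a.2) (T.lst B)
      (T.cfg P B η k)

/-- the ball as a finset (junk if infinite) -/
noncomputable def bl (G : SimpleGraph V) (o : V) (r : ℕ) : Finset V :=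
  if h : {v | G.dist o v ≤ r}.Finite then h.toFinset else ∅

/-- `F` depends only on the configuration in the volume `B` -/
def PT.DepOn (T : PT G d) (B : Finset V) (F : Cfg V d → ℝ) : Prop :=
  ∀ ω ω' : Cfg V d, (∀ v ∈ B, ω.1 v = ω'.1 v) → (∀ e ∈ T.EB B, ω.2 e = ω'.2 e) → F ω = F ω'

end

end FI
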